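import Mathlib

/-!
# Crossing chords and ladders
-/

namespace Pool.Agent.H619R2.QP

/-- The chords `e` and `f` (pairs of positions on a circle) cross: their four endpoints alternate. -/
def cr (e f : ℕ × ℕ) : Prop :=
  (min e.1 e.2 < min f.1 f.2 ∧ min f.1 f.2 < max e.1 e.2 ∧ max e.1 e.2 < max f.1 f.2) ∨
  (min f.1 f.2 < min e.1 e.2 ∧ min e.1 e.2 < max f.1 f.2 ∧ max f.1 f.2 < max e.1 e.2)

variable {α : Type*} {pos : α → ℕ} {Adj : α → α → Prop}

/-- `e` and `f` cross when the vertices are placed at the positions `pos`. -/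
def Cr (pos : α → ℕ) (e f : α × α) : Prop := cr (pos e.1, pos e.2) (pos f.1, pos f.2)

/-- No `k` pairwise crossing edges. -/
def NT (k : ℕ) (pos : α → ℕ) (Adj : α → α → Prop) : Prop :=
  ∀ l : List (α × α), l.length = k → (∀ e ∈ l, Adj e.1 e.2) → ¬ l.Pairwise (Cr pos)

theorem NT.le {k : ℕ} (h : NT k pos Adj) {l : List (α × α)} (hl : k ≤ l.length)
    (hE : ∀ e ∈ l, Adj e.1 e.2) : ¬ l.Pairwise (Cr pos) := by
  intro hp
  refine h (l.take k) (by simpa using hl) (fun e he => hE e (List.mem_of_mem_take he)) ?_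
  exact hp.sublist (List.take_sublist k l)

/-- A ladder: edges with increasing left ends in `A` and increasing right ends in `B`. -/
structure Lad (pos : α → ℕ) (Adj : α → α → Prop) (l : List (α × α)) (A B : Set α) : Prop where
  edge : ∀ e ∈ l, Adj e.1 e.2
  mono : l.Pairwise (fun e f => pos e.1 < pos f.1 ∧ pos e.2 < pos f.2)
  mem : ∀ e ∈ l, e.1 ∈ A ∧ e.2 ∈ B

theorem Lad.append {l l' : List (α × α)} {A B A' B' : Set α}
    (h : Lad pos Adj l A B) (h' : Lad pos Adj l' A' B') (hA : ∀ a ∈ A, ∀ a' ∈ A', pos a < pos a')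
    (hB : ∀ b ∈ B, ∀ b' ∈ B', pos b < pos b') : Lad pos Adj (l ++ l') (A ∪ A') (B ∪ B') := by
  refine ⟨?_, ?_, ?_⟩
  · intro e he
    rcases List.mem_append.1 he with he | he
    · exact h.edge e he
    · exact h'.edge e he
  · rw [List.pairwise_append]
    refine ⟨h.mono, h'.mono, fun e he f hf => ?_⟩
    exact ⟨hA _ (h.mem e he).1 _ (h'.mem f hf).1, hB _ (h.mem e he).2 _ (h'.mem f hf).2⟩
  · intro e he
    rcases List.mem_append.1 he with he | he
    · exact ⟨Or.inl (h.mem e he).1, Or.inl (h.mem e he).2⟩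
    · exact ⟨Or.inr (h'.mem e he).1, Or.inr (h'.mem e he).2⟩

theorem Lad.pairwise_cr {l : List (α × α)} {A B : Set α}
    (h : Lad pos Adj l A B) (hAB : ∀ a ∈ A, ∀ b ∈ B, pos a < pos b) : l.Pairwise (Cr pos) := by
  refine List.Pairwise.imp_of_mem ?_ h.mono
  rintro ⟨e1, e2⟩ ⟨f1, f2⟩ he hf hef
  have h1 := hAB _ (h.mem _ he).1 _ (h.mem _ he).2
  have h2 := hAB _ (h.mem _ he).1 _ (h.mem _ hf).2
  have h3 := hAB _ (h.mem _ hf).1 _ (h.mem _ he).2
  have h4 := hAB _ (h.mem _ hf).1 _ (h.mem _ hf).2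
  dsimp only at *
  left
  dsimp only
  omega

theorem NT.lad {k : ℕ} (h : NT k pos Adj) {l : List (α × α)} {A B : Set α}
    (hl : Lad pos Adj l A B) (hAB : ∀ a ∈ A, ∀ b ∈ B, pos a < pos b) : l.length < k := by
  by_contra hk
  exact h.le (not_lt.1 hk) hl.edge (hl.pairwise_cr hAB)

theorem Lad.single {x y : α} (h : Adj x y) : Lad pos Adj [(x, y)] {x} {y} :=
  ⟨by simpa using h, by simp, by simp⟩

/-- The elements of a finite set in the order of their positions. -/
theorem exists_sorted {A : Finset α} (hinj : Set.InjOn pos A) {n : ℕ} (hA : n ≤ A.card) :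
    ∃ f : Fin n → α, (∀ i, f i ∈ A) ∧ ∀ i j, i < j → pos (f i) < pos (f j) := by
  classical
  have hc : n ≤ (A.image pos).card := by rwa [Finset.card_image_of_injOn hinj]
  have h : ∀ i : Fin n, ∃ a ∈ A, pos a = (A.image pos).orderEmbOfCardLe hc i := by
    intro i
    have := Finset.orderEmbOfCardLe_mem (A.image pos) hc i
    rwa [Finset.mem_image] at this
  choose f hf hf' using h
  refine ⟨f, hf, fun i j hij => ?_⟩
  rw [hf', hf']
  exact ((A.image pos).orderEmbOfCardLe hc).strictMono hij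

/-- A ladder between two completely joined sets. -/
theorem Lad.of_sets {A B : Finset α} {n : ℕ} (hA : n ≤ A.card)
    (hB : n ≤ B.card) (hE : ∀ x ∈ A, ∀ y ∈ B, Adj x y) (hA' : Set.InjOn pos A)
    (hB' : Set.InjOn pos B) : ∃ l : List (α × α), l.length = n ∧ Lad pos Adj l A B := by
  obtain ⟨f, hf, hf'⟩ := exists_sorted hA' hA
  obtain ⟨g, hg, hg'⟩ := exists_sorted hB' hB
  refine ⟨List.ofFn (fun i : Fin n => (f i, g i)), by simp, ?_, ?_, ?_⟩
  · intro e he
    rw [List.mem_ofFn] at he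
    obtain ⟨i, rfl⟩ := he
    exact hE _ (hf i) _ (hg i)
  · rw [List.pairwise_ofFn]
    intro i j hij
    exact ⟨hf' _ _ hij, hg' _ _ hij⟩
  · intro e he
    rw [List.mem_ofFn] at he
    obtain ⟨i, rfl⟩ := he
    exact ⟨hf i, hg i⟩

/-- Cutting a set of vertices into an initial and a final part of prescribed sizes. -/
theorem split {S : Finset α} (hinj : Set.InjOn pos S) {n1 n2 : ℕ} (hn : n1 + n2 ≤ S.card) :
    ∃ S1 S2 : Finset α, S1 ⊆ S ∧ S2 ⊆ S ∧ S1.card = n1 ∧ S2.card = n2 ∧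
      ∀ x ∈ S1, ∀ y ∈ S2, pos x < pos y := by
  classical
  obtain ⟨f, hf, hf'⟩ := exists_sorted hinj hn
  have hfi : Function.Injective f := by
    intro i j hij
    rcases lt_trichotomy i j with h | h | h
    · have := hf' _ _ h
      rw [hij] at this
      omega
    · exact h
    · have := hf' _ _ h
      rw [hij] at this
      omega
  refine ⟨Finset.univ.image (fun i : Fin n1 => f (Fin.castAdd n2 i)),
    Finset.univ.image (fun i : Fin n2 => f (Fin.natAdd n1 i)), ?_, ?_, ?_, ?_, ?_⟩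
  · intro x hx
    simp only [Finset.mem_image, Finset.mem_univ, true_and] at hx
    obtain ⟨i, rfl⟩ := hx
    exact hf _
  · intro x hx
    simp only [Finset.mem_image, Finset.mem_univ, true_and] at hx
    obtain ⟨i, rfl⟩ := hx
    exact hf _
  · rw [Finset.card_image_of_injective _
      (fun i j hij => Fin.castAdd_injective n1 n2 (hfi hij))]
    simp
  · rw [Finset.card_image_of_injective _
      (fun i j hij => Fin.natAdd_injective n2 n1 (hfi hij))]
    simp
  · intro x hx y hy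
    simp only [Finset.mem_image, Finset.mem_univ, true_and] at hx hy
    obtain ⟨i, rfl⟩ := hx
    obtain ⟨j, rfl⟩ := hy
    refine hf' _ _ ?_
    rw [Fin.lt_def]
    simp only [Fin.val_castAdd, Fin.val_natAdd]
    omega

theorem cr_refl {N : ℕ} {e f : ℕ × ℕ} (he1 : e.1 < N) (he2 : e.2 < N)
    (hf1 : f.1 < N) (hf2 : f.2 < N) (h : cr (N - e.1, N - e.2) (N - f.1, N - f.2)) :
    cr e f := by
  obtain ⟨e1, e2⟩ := e
  obtain ⟨f1, f2⟩ := f
  unfold cr at *
  dsimp only at *
  omega

theorem cr_symm {e f : ℕ × ℕ} (h : cr e f) : cr f e := by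
  rcases h with h | h
  · exact Or.inr h
  · exact Or.inl h

end Pool.Agent.H619R2.QP
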