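import Pool.Agent.H619R2.QP.Local

/-!
# One copy of the gadget: the bus
-/

namespace Pool.Agent.H619R2.QP

section

variable {P M D nb : ℕ} {tr : ℕ → ℕ → Prop} {p : ℕ × ℕ → ℕ}

theorem pair_inj (s : ℕ) : Function.Injective (fun e : ℕ => (s, e)) := by
  intro a b h
  simpa using h

theorem mem_img {s : ℕ} {S : Finset ℕ} {x : ℕ × ℕ} :
    x ∈ S.image (fun e => (s, e)) ↔ ∃ e ∈ S, (s, e) = x := Finset.mem_image

theorem overL (h : Loc P M D nb tr p) (ho : Ord P M nb p) {u v : ℕ × ℕ} {m j o : ℕ}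
    (huv : LA P M D nb tr u v) (hu : ∀ o' < P, p u < p (2 * m, o')) (hmj : m < j)
    (hj : j ≤ M + 2) (hoP : o < P) (hv : v.1 % 2 = 1) : p v < p (2 * j, o) := by
  by_contra hcon
  have hF : FV P M (2 * j, o) := ⟨by simp, by dsimp only; omega, hoP⟩
  have hne : p (2 * j, o) ≠ p v := by
    intro he
    have := h.inj _ _ (Or.inl hF) huv.2.1 he
    rw [← this] at hv
    simp at hv
  have hlt : p (2 * j, o) < p v := by omega
  have := h.t1 u v huv (insert (2 * j, o) ((Finset.range P).image (fun e => (2 * m, e)))) (by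
    intro x hx
    rw [Finset.mem_insert, mem_img] at hx
    rcases hx with rfl | ⟨e, he, rfl⟩
    · have h1 := hu 0 (by omega)
      have h2 := ho.x1 m j 0 o hmj hj (by omega) hoP
      exact ⟨hF, by omega, hlt⟩
    · rw [Finset.mem_range] at he
      have h2 := ho.x1 m j e o hmj hj he hoP
      exact ⟨⟨by simp, by dsimp only; omega, he⟩, hu e he, by omega⟩)
  rw [Finset.card_insert_of_notMem, Finset.card_image_of_injective _ (pair_inj _),
    Finset.card_range] at this
  · omega
  · rw [mem_img]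
    rintro ⟨e, _, he⟩
    rw [Prod.mk.injEq] at he
    omega

theorem overR (h : Loc P M D nb tr p) (ho : Ord P M nb p) {u v : ℕ × ℕ} {m j o : ℕ}
    (huv : LA P M D nb tr u v) (hv : ∀ o' < P, p (2 * m, o') < p v) (hmj : j < m)
    (hm : m ≤ M + 2) (hoP : o < P) (hu : u.1 % 2 = 1) : p (2 * j, o) < p u := by
  by_contra hcon
  have hF : FV P M (2 * j, o) := ⟨by simp, by dsimp only; omega, hoP⟩
  have hne : p (2 * j, o) ≠ p u := by
    intro he
    have := h.inj _ _ (Or.inl hF) huv.1 he
    rw [← this] at hu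
    simp at hu
  have hlt : p u < p (2 * j, o) := by omega
  have := h.t1 u v huv (insert (2 * j, o) ((Finset.range P).image (fun e => (2 * m, e)))) (by
    intro x hx
    rw [Finset.mem_insert, mem_img] at hx
    rcases hx with rfl | ⟨e, he, rfl⟩
    · have h1 := hv 0 (by omega)
      have h2 := ho.x1 j m o 0 hmj hm hoP (by omega)
      exact ⟨hF, hlt, by omega⟩
    · rw [Finset.mem_range] at he
      have h2 := ho.x1 j m o e hmj hm hoP he
      exact ⟨⟨by simp, by dsimp only; omega, he⟩, by omega, hv e he⟩)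
  rw [Finset.card_insert_of_notMem, Finset.card_image_of_injective _ (pair_inj _),
    Finset.card_range] at this
  · omega
  · rw [mem_img]
    rintro ⟨e, _, he⟩
    rw [Prod.mk.injEq] at he
    omega

theorem adj_t5 (hP : 9 ≤ P) (hM : 1 ≤ M) {e : ℕ} (he : e < nb) :
    LA P M D nb tr (0, P - 1) (3, e) :=
  ⟨Or.inl ⟨rfl, by dsimp only; omega, by dsimp only; omega⟩,
    Or.inr ⟨by simp, le_rfl, by dsimp only; omega, he⟩,
    Or.inl (Or.inr (Or.inr (Or.inr (Or.inl ⟨rfl, rfl, rfl⟩))))⟩

theorem adj_t6 (hP : 9 ≤ P) (hM : 1 ≤ M) {e : ℕ} (he : e < nb) :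
    LA P M D nb tr (2 * M + 1, e) (2 * (M + 2), 0) :=
  ⟨Or.inr ⟨by dsimp only; omega, by dsimp only; omega, le_rfl, he⟩,
    Or.inl ⟨by dsimp only; omega, by dsimp only; omega, by dsimp only; omega⟩,
    Or.inl (Or.inr (Or.inr (Or.inr (Or.inr (Or.inl ⟨rfl, by dsimp only; omega, rfl⟩)))))⟩

theorem adj_t4 {i e : ℕ} (hi : 1 ≤ i) (hiM : i + 1 ≤ M) (he : e < nb) :
    LA P M D nb tr (2 * i + 1, e) (2 * (i + 1) + 1, e) :=
  ⟨Or.inr ⟨by dsimp only; omega, by dsimp only; omega, by dsimp only; omega, he⟩,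
    Or.inr ⟨by dsimp only; omega, by dsimp only; omega, by dsimp only; omega, he⟩,
    Or.inl (Or.inr (Or.inr (Or.inl ⟨by dsimp only; omega, by dsimp only; omega, rfl⟩)))⟩

theorem pinL (h : Loc P M D nb tr p) (ho : Ord P M nb p) (hP : 9 ≤ P) {i : ℕ} (hi : 1 ≤ i) :
    i ≤ M → ∀ e < nb, ∀ j o, i + 1 ≤ j → j ≤ M + 2 → o < P → p (2 * i + 1, e) < p (2 * j, o) := by
  induction i, hi using Nat.le_induction with
  | base =>
    intro hM e he j o hj hj' hoP
    exact overL h ho (m := 1) (adj_t5 hP hM he)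
      (fun o' ho' => ho.x1 0 1 (P - 1) o' (by omega) (by omega) (by omega) ho') (by omega) hj' hoP
      (by simp)
  | succ i hi ih =>
    intro hM e he j o hj hj' hoP
    exact overL h ho (m := i + 1) (adj_t4 hi hM he)
      (fun o' ho' => ih (by omega) e he (i + 1) o' le_rfl (by omega) ho') (by omega) hj' hoP
      (by dsimp only; omega)

theorem pinR' (h : Loc P M D nb tr p) (ho : Ord P M nb p) (hP : 9 ≤ P) (d : ℕ) :
    ∀ i, i + d = M → 1 ≤ i → ∀ e < nb, ∀ j o, j ≤ i → o < P → p (2 * j, o) < p (2 * i + 1, e) := by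
  induction d with
  | zero =>
    intro i hi hi1 e he j o hj hoP
    obtain rfl : i = M := by omega
    exact overR h ho (m := i + 1) (adj_t6 hP hi1 he)
      (fun o' ho' => ho.x1 (i + 1) (i + 2) o' 0 (by omega) (by omega) ho' (by omega)) (by omega)
      (by omega) hoP (by dsimp only; omega)
  | succ d ih =>
    intro i hi hi1 e he j o hj hoP
    exact overR h ho (m := i + 1) (adj_t4 hi1 (by omega) he)
      (fun o' ho' => ih (i + 1) (by omega) (by omega) e he (i + 1) o' le_rfl ho') (by omega)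
      (by omega) hoP (by dsimp only; omega)

theorem pinR (h : Loc P M D nb tr p) (ho : Ord P M nb p) (hP : 9 ≤ P) {i : ℕ} (hi : 1 ≤ i)
    (hiM : i ≤ M) {e : ℕ} (he : e < nb) {j o : ℕ} (hj : j ≤ i) (hoP : o < P) :
    p (2 * j, o) < p (2 * i + 1, e) :=
  pinR' h ho hP (M - i) i (by omega) hi e he j o hj hoP

theorem BVmk {i e : ℕ} (hi : 1 ≤ i) (hiM : i ≤ M) (he : e < nb) : BV M nb (2 * i + 1, e) :=
  ⟨by dsimp only; omega, by dsimp only; omega, by dsimp only; omega, he⟩

theorem FVmk {j o : ℕ} (hj : j ≤ M + 3) (ho : o < P) : FV P M (2 * j, o) :=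
  ⟨by dsimp only; omega, by dsimp only; omega, ho⟩

theorem rev (h : Loc P M D nb tr p) (ho : Ord P M nb p) (hP : 9 ≤ P) {i : ℕ} (hi : 1 ≤ i)
    (hiM : i + 1 ≤ M) {e e' : ℕ} (he : e < nb) (he' : e' < nb)
    (hlt : p (2 * i + 1, e) < p (2 * i + 1, e')) :
    p (2 * (i + 1) + 1, e') < p (2 * (i + 1) + 1, e) := by
  by_contra hcon
  have hne : p (2 * (i + 1) + 1, e') ≠ p (2 * (i + 1) + 1, e) := by
    intro hc
    have := h.inj _ _ (Or.inr (BVmk (by omega) hiM he')) (Or.inr (BVmk (by omega) hiM he)) hc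
    rw [Prod.mk.injEq] at this
    rw [this.2] at hlt
    omega
  have h1 := pinL h ho hP hi (by omega) e' he' (i + 1) 0 le_rfl (by omega) (by omega)
  have h2 := pinR h ho hP (i := i + 1) (by omega) hiM he (j := i + 1) (o := 0) le_rfl (by omega)
  have := h.t2 _ _ _ _ (adj_t4 hi hiM he) (adj_t4 hi hiM he') hlt (by omega) (by omega)
    ((Finset.range P).image (fun e => (2 * (i + 1), e))) (by
      intro x hx
      rw [mem_img] at hx
      obtain ⟨o, ho', rfl⟩ := hx
      rw [Finset.mem_range] at ho'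
      exact ⟨FVmk (by omega) ho', pinL h ho hP hi (by omega) e' he' (i + 1) o le_rfl (by omega) ho',
        pinR h ho hP (i := i + 1) (by omega) hiM he (j := i + 1) (o := o) le_rfl ho'⟩)
  rw [Finset.card_image_of_injective _ (pair_inj _), Finset.card_range] at this
  omega

theorem clause (h : Loc P M D nb tr p) (ho : Ord P M nb p) (hP : 9 ≤ P) (hD : D ≤ nb) {i : ℕ}
    (hi : 1 ≤ i) (hiM : i ≤ M) {X Ds : Finset ℕ} (hX : X.card = 3) (hXn : ∀ x ∈ X, x < nb)
    (htr : ∀ x ∈ X, tr i x) (hDs : P - 3 ≤ Ds.card) (hDs' : ∀ d ∈ Ds, d < D)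
    (hDX : ∀ d ∈ Ds, ∀ x ∈ X, p (2 * i + 1, d) < p (2 * i + 1, x)) {a b : ℕ} (ha : a < nb)
    (hb : b < nb) (hXa : ∀ x ∈ X, p (2 * i + 1, x) < p (2 * i + 1, a))
    (hab : p (2 * i + 1, a) < p (2 * i + 1, b)) : False := by
  -- left arc of `b`
  obtain ⟨lb, hlb, hlb'⟩ : ∃ lb, LA P M D nb tr lb (2 * i + 1, b) ∧
      ∀ e < nb, p lb < p (2 * i + 1, e) := by
    by_cases hi1 : i = 1
    · subst hi1
      refine ⟨_, adj_t5 hP hiM hb, fun e he => ?_⟩
      exact (ho.x1 0 1 (P - 1) 0 (by omega) (by omega) (by omega) (by omega)).trans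
        (pinR h ho hP hi hiM he le_rfl (by omega))
    · obtain ⟨i', rfl⟩ : ∃ i', i = i' + 1 := ⟨i - 1, by omega⟩
      refine ⟨_, adj_t4 (by omega) hiM hb, fun e he => ?_⟩
      exact (pinL h ho hP (by omega) (by omega) b hb (i' + 1) 0 le_rfl (by omega) (by omega)).trans
        (pinR h ho hP hi hiM he le_rfl (by omega))
  -- right arc of `a`
  obtain ⟨ra, hra, hra'⟩ : ∃ ra, LA P M D nb tr (2 * i + 1, a) ra ∧
      ∀ o < P, p (2 * (i + 1), o) < p ra := by
    by_cases hi1 : i = M
    · subst hi1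
      exact ⟨_, adj_t6 hP hi ha, fun o ho' => ho.x1 (i + 1) (i + 2) o 0 (by omega) (by omega) ho'
        (by omega)⟩
    · exact ⟨_, adj_t4 hi (by omega) ha, fun o ho' => pinR h ho hP (i := i + 1) (by omega)
        (by omega) ha le_rfl ho'⟩
  have hbY : ∀ e < nb, ∀ o < P, p (2 * i + 1, e) < p (2 * (i + 1), o) := fun e he o ho' =>
    pinL h ho hP hi hiM e he (i + 1) o le_rfl (by omega) ho'
  have injB : ∀ S : Finset ℕ, (∀ x ∈ S, x < nb) →
      Set.InjOn p (S.image (fun e => (2 * i + 1, e)) : Finset (ℕ × ℕ)) := by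
    intro S hS x hx y hy hxy
    rw [Finset.mem_coe, mem_img] at hx hy
    obtain ⟨x', hx', rfl⟩ := hx
    obtain ⟨y', hy', rfl⟩ := hy
    exact h.inj _ _ (Or.inr (BVmk hi hiM (hS _ hx'))) (Or.inr (BVmk hi hiM (hS _ hy'))) hxy
  have injF : ∀ S : Finset ℕ, (∀ x ∈ S, x < P) →
      Set.InjOn p (S.image (fun e => (2 * (i + 1), e)) : Finset (ℕ × ℕ)) := by
    intro S hS x hx y hy hxy
    rw [Finset.mem_coe, mem_img] at hx hy
    obtain ⟨x', hx', rfl⟩ := hx
    obtain ⟨y', hy', rfl⟩ := hy
    exact h.inj _ _ (Or.inl (FVmk (by omega) (hS _ hx'))) (Or.inl (FVmk (by omega) (hS _ hy'))) hxy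
  have hDn : ∀ d ∈ Ds, d < nb := fun d hd => (hDs' d hd).trans_le hD
  obtain ⟨l2, hl2, hL2⟩ := Lad.of_sets (pos := p) (Adj := LA P M D nb tr)
    (A := Ds.image (fun e => (2 * i + 1, e)))
    (B := (Finset.range (P - 3)).image (fun e => (2 * (i + 1), e))) (n := P - 3)
    (by rwa [Finset.card_image_of_injective _ (pair_inj _)])
    (by rw [Finset.card_image_of_injective _ (pair_inj _), Finset.card_range]) (by
      intro x hx y hy
      rw [mem_img] at hx hy
      obtain ⟨x', hx', rfl⟩ := hx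
      obtain ⟨y', hy', rfl⟩ := hy
      rw [Finset.mem_range] at hy'
      exact ⟨Or.inr (BVmk hi hiM (hDn _ hx')), Or.inl (FVmk (by omega) (by omega)),
        Or.inl (Or.inr (Or.inr (Or.inr (Or.inr (Or.inr ⟨by dsimp only; omega,
          by dsimp only; omega, Or.inr (Or.inl ⟨hDs' _ hx', hy'⟩)⟩)))))⟩)
    (injB _ hDn) (injF _ (fun x hx => by rw [Finset.mem_range] at hx; omega))
  obtain ⟨l3, hl3, hL3⟩ := Lad.of_sets (pos := p) (Adj := LA P M D nb tr)
    (A := X.image (fun e => (2 * i + 1, e)))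
    (B := (Finset.Ico (P - 3) P).image (fun e => (2 * (i + 1), e))) (n := 3)
    (by rw [Finset.card_image_of_injective _ (pair_inj _), hX])
    (by rw [Finset.card_image_of_injective _ (pair_inj _), Nat.card_Ico]; omega) (by
      intro x hx y hy
      rw [mem_img] at hx hy
      obtain ⟨x', hx', rfl⟩ := hx
      obtain ⟨y', hy', rfl⟩ := hy
      rw [Finset.mem_Ico] at hy'
      have e : (2 * i + 1) / 2 = i := by omega
      exact ⟨Or.inr (BVmk hi hiM (hXn _ hx')), Or.inl (FVmk (by omega) (by omega)),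
        Or.inl (Or.inr (Or.inr (Or.inr (Or.inr (Or.inr ⟨by dsimp only; omega,
          by dsimp only; omega, Or.inr (Or.inr ⟨by dsimp only; rw [e]; exact htr _ hx',
            hy'.1⟩)⟩)))))⟩)
    (injB _ hXn) (injF _ (fun x hx => by rw [Finset.mem_Ico] at hx; omega))
  have hL1 := Lad.single (pos := p) hlb
  have hL4 := Lad.single (pos := p) hra
  obtain ⟨x0, hx0⟩ : X.Nonempty := by
    rw [← Finset.card_pos]
    omega
  have L12 := hL1.append hL2 (by
      intro x hx y hy
      rw [Set.mem_singleton_iff] at hx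
      rw [Finset.mem_coe, mem_img] at hy
      obtain ⟨y', hy', rfl⟩ := hy
      subst hx
      exact hlb' _ (hDn _ hy')) (by
      intro x hx y hy
      rw [Set.mem_singleton_iff] at hx
      rw [Finset.mem_coe, mem_img] at hy
      obtain ⟨y', hy', rfl⟩ := hy
      rw [Finset.mem_range] at hy'
      subst hx
      exact hbY _ hb _ (by omega))
  have L123 := L12.append hL3 (by
      intro x hx y hy
      rw [Finset.mem_coe, mem_img] at hy
      obtain ⟨y', hy', rfl⟩ := hy
      rcases hx with hx | hx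
      · rw [Set.mem_singleton_iff] at hx
        subst hx
        exact hlb' _ (hXn _ hy')
      · rw [Finset.mem_coe, mem_img] at hx
        obtain ⟨x', hx', rfl⟩ := hx
        exact hDX _ hx' _ hy') (by
      intro x hx y hy
      rw [Finset.mem_coe, mem_img] at hy
      obtain ⟨y', hy', rfl⟩ := hy
      rw [Finset.mem_Ico] at hy'
      rcases hx with hx | hx
      · rw [Set.mem_singleton_iff] at hx
        subst hx
        exact hbY _ hb _ (by omega)
      · rw [Finset.mem_coe, mem_img] at hx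
        obtain ⟨x', hx', rfl⟩ := hx
        rw [Finset.mem_range] at hx'
        exact ho.x2 (i + 1) _ _ (by omega) hx' hy'.1 hy'.2)
  have L := L123.append hL4 (by
      intro x hx y hy
      rw [Set.mem_singleton_iff] at hy
      subst hy
      rcases hx with (hx | hx) | hx
      · rw [Set.mem_singleton_iff] at hx
        subst hx
        exact hlb' _ ha
      · rw [Finset.mem_coe, mem_img] at hx
        obtain ⟨x', hx', rfl⟩ := hx
        exact (hDX _ hx' _ hx0).trans (hXa _ hx0)
      · rw [Finset.mem_coe, mem_img] at hx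
        obtain ⟨x', hx', rfl⟩ := hx
        exact hXa _ hx') (by
      intro x hx y hy
      rw [Set.mem_singleton_iff] at hy
      subst hy
      rcases hx with (hx | hx) | hx
      · rw [Set.mem_singleton_iff] at hx
        subst hx
        exact (hbY _ hb 0 (by omega)).trans (hra' 0 (by omega))
      · rw [Finset.mem_coe, mem_img] at hx
        obtain ⟨x', hx', rfl⟩ := hx
        rw [Finset.mem_range] at hx'
        exact hra' _ (by omega)
      · rw [Finset.mem_coe, mem_img] at hx
        obtain ⟨x', hx', rfl⟩ := hx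
        rw [Finset.mem_Ico] at hx'
        exact hra' _ (by omega))
  have := h.nt.lad L (by
    have hba : ∀ e < nb, (∀ o < P, p (2 * i + 1, e) < p (2 * (i + 1), o)) := hbY
    intro x hx y hy
    -- `x` is at most `a`
    have hxa : p x ≤ p (2 * i + 1, a) := by
      rcases hx with ((hx | hx) | hx) | hx
      · rw [Set.mem_singleton_iff] at hx
        subst hx
        exact (hlb' _ ha).le
      · rw [Finset.mem_coe, mem_img] at hx
        obtain ⟨x', hx', rfl⟩ := hx
        exact ((hDX _ hx' _ hx0).trans (hXa _ hx0)).le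
      · rw [Finset.mem_coe, mem_img] at hx
        obtain ⟨x', hx', rfl⟩ := hx
        exact (hXa _ hx').le
      · rw [Set.mem_singleton_iff] at hx
        subst hx
        exact le_rfl
    have hyb : p (2 * i + 1, b) ≤ p y := by
      rcases hy with ((hy | hy) | hy) | hy
      · rw [Set.mem_singleton_iff] at hy
        subst hy
        exact le_rfl
      · rw [Finset.mem_coe, mem_img] at hy
        obtain ⟨y', hy', rfl⟩ := hy
        rw [Finset.mem_range] at hy'
        exact (hbY _ hb _ (by omega)).le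
      · rw [Finset.mem_coe, mem_img] at hy
        obtain ⟨y', hy', rfl⟩ := hy
        rw [Finset.mem_Ico] at hy'
        exact (hbY _ hb _ (by omega)).le
      · rw [Set.mem_singleton_iff] at hy
        subst hy
        exact ((hbY _ hb 0 (by omega)).trans (hra' 0 (by omega))).le
    omega)
  simp only [List.length_append, List.length_singleton, hl2, hl3] at this
  omega

/-- contradiction at one level -/
theorem level_contra (h : Loc P M D nb tr p) (ho : Ord P M nb p) (hP : 9 ≤ P) (hD : D ≤ nb)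
    {i : ℕ} (hi : 1 ≤ i) (hiM : i ≤ M) {X : Finset ℕ} (hX : X.card = 3) (hXn : ∀ x ∈ X, x < nb)
    (htr : ∀ x ∈ X, tr i x)
    (hDs : ∀ x ∈ X, P - 3 ≤ ((Finset.range D).filter
      (fun d => p (2 * i + 1, d) < p (2 * i + 1, x))).card)
    (hR : ∀ x ∈ X, 2 ≤ ((Finset.range nb).filter
      (fun e => p (2 * i + 1, x) < p (2 * i + 1, e))).card) : False := by
  have hne : X.Nonempty := by
    rw [← Finset.card_pos]
    omega
  obtain ⟨x0, hx0, hx0'⟩ := X.exists_min_image (fun x => p (2 * i + 1, x)) hne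
  obtain ⟨x1, hx1, hx1'⟩ := X.exists_max_image (fun x => p (2 * i + 1, x)) hne
  have hinj : Set.InjOn (fun e => p (2 * i + 1, e)) ((Finset.range nb).filter
      (fun e => p (2 * i + 1, x1) < p (2 * i + 1, e)) : Finset ℕ) := by
    intro a ha b hb hab
    rw [Finset.mem_coe, Finset.mem_filter, Finset.mem_range] at ha hb
    have := h.inj _ _ (Or.inr (BVmk hi hiM ha.1)) (Or.inr (BVmk hi hiM hb.1)) hab
    rw [Prod.mk.injEq] at this
    exact this.2
  obtain ⟨f, hf, hf'⟩ := exists_sorted (pos := fun e => p (2 * i + 1, e)) hinj (hR x1 hx1)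
  have f0 := hf 0
  have f1 := hf 1
  rw [Finset.mem_filter, Finset.mem_range] at f0 f1
  refine clause h ho hP hD hi hiM hX hXn htr (hDs x0 hx0) (fun d hd => ?_) (fun d hd x hx => ?_)
    f0.1 f1.1 (fun x hx => ?_) (hf' 0 1 (by decide))
  · rw [Finset.mem_filter, Finset.mem_range] at hd
    exact hd.1
  · rw [Finset.mem_filter] at hd
    exact hd.2.trans_le (hx0' x hx)
  · exact (hx1' x hx).trans_lt f0.2

end

end Pool.Agent.H619R2.QP
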