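import Pool.Agent.H619R2.QP.Complete

/-!
# The intended order has no long twist: case analysis
-/

namespace Pool.Agent.H619R2.QP

section

variable {P M D nb T : ℕ} {tr : ℕ → ℕ → Prop} {ord : ℕ → ℕ → ℕ}
  {R : Finset ((ℕ × ℕ × ℕ) × (ℕ × ℕ × ℕ))}

theorem card_hub {x y : ℕ × ℕ × ℕ} (hR : RS P M D nb T tr ord R x y) (hx : GV P M nb T x)
    (hx0 : x.1 = 0) : R.card ≤ P := by
  obtain ⟨h, s, w⟩ := x
  unfold GV at hx
  dsimp only at hx hx0
  have hs : s = 0 ∧ w < P + 1 := by omega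
  obtain ⟨rfl, hw⟩ := hs
  subst hx0
  have key : ∀ e ∈ R, e.1.1 = 0 ∧ e.1.2.1 = 0 ∧ e.1.2.2 < w := by
    intro e he
    have h1 := hR.lx e he
    obtain ⟨⟨c1, s1, o1⟩, e2⟩ := e
    unfold Lt at h1
    dsimp only at h1 ⊢
    have h2 : c1 = 0 ∧ s1 = 0 := by omega
    obtain ⟨rfl, rfl⟩ := h2
    rw [off_even rfl, off_even rfl] at h1
    omega
  refine card_le_label (fun e => e.1.2.2) (fun e he => ?_) (fun e he f hf hef => ?_)
  · exact lt_of_lt_of_le (key e he).2.2 (by omega)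
  · have h1 := key e he
    have h2 := key f hf
    refine hR.left_inj he hf ?_
    obtain ⟨⟨a1, a2, a3⟩, e2⟩ := e
    obtain ⟨⟨b1, b2, b3⟩, f2⟩ := f
    dsimp only at h1 h2 hef ⊢
    rw [h1.1, h2.1, h1.2.1, h2.2.1, hef]

theorem card_block {h s o o' : ℕ} (hR : RS P M D nb T tr ord R (h, s, o) (h, s, o'))
    (hs : s % 2 = 0) (ho : o' < P) : R.card ≤ P := by
  have key : ∀ e ∈ R, e.2.1 = h ∧ e.2.2.1 = s ∧ e.2.2.2 < P := by
    intro e he
    have h1 := hR.xr e he
    have h2 := hR.ry e he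
    obtain ⟨e1, ⟨h3, s3, o3⟩⟩ := e
    unfold Lt at h1 h2
    rw [off_even hs] at h1 h2
    dsimp only at h1 h2 ⊢
    have h4 : h3 = h ∧ s3 = s := by omega
    obtain ⟨rfl, rfl⟩ := h4
    rw [off_even hs] at h1 h2
    omega
  refine card_le_label (fun e => e.2.2.2) (fun e he => (key e he).2.2) (fun e he f hf hef => ?_)
  have h1 := key e he
  have h2 := key f hf
  refine hR.right_inj he hf ?_
  obtain ⟨e1, ⟨a1, a2, a3⟩⟩ := e
  obtain ⟨f1, ⟨b1, b2, b3⟩⟩ := f
  dsimp only at h1 h2 hef ⊢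
  rw [h1.1, h2.1, h1.2.1, h2.2.1, hef]

/-- an edge ending at a block vertex after an edge ending at the bus in front of the block -/
theorem next_block {h s o o' : ℕ} (hR : RS P M D nb T tr ord R (h, s, o) (h, s + 2, o'))
    (hs : s % 2 = 0) {e ea : (ℕ × ℕ × ℕ) × (ℕ × ℕ × ℕ)} (he : e ∈ R) (hea : ea ∈ R)
    (ha1 : ea.2.1 = h) (ha2 : ea.2.2.1 = s + 1) (he1 : e.2.1 = h) (he2 : e.2.2.1 = s + 2) :
    e.1.1 = h ∧ e.1.2.1 = s ∧ e.1.2.2 < o := by
  have hne : e ≠ ea := by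
    rintro rfl
    omega
  have h1 := hR.edge e he
  have h2 := hR.edge ea hea
  have h3 := hR.cr e he ea hea hne
  have h4 := hR.lx e he
  have g := h2.2.1
  obtain ⟨⟨a1, a2, a3⟩, ⟨b1, b2, b3⟩⟩ := e
  obtain ⟨⟨c1, c2, c3⟩, ⟨d1, d2, d3⟩⟩ := ea
  dsimp only at ha1 ha2 he1 he2 h3 g ⊢
  subst ha1 ha2 he2 he1
  obtain ⟨p1, p2, p3, p4⟩ := bus_end h2 (by omega)
  subst p1
  have h5 : Lt ord (c1, c2, c3) (a1, a2, a3) := by
    rcases h3 with h3 | h3
    · have := h3.2
      unfold Lt at this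
      dsimp only at this
      omega
    · exact h3.1
  obtain ⟨g1, g2, g3⟩ := h1
  unfold GV HV FV BV at g
  dsimp only at g
  unfold Lt at h4 h5
  rw [off_even hs] at h4
  dsimp only at h4 h5
  unfold gadj loc at g3
  dsimp only at g3
  rcases g3 with g3 | ⟨g3, g4, g5⟩
  · omega
  · subst g4
    rcases g5 with g5 | g5 | g5 | g5 | g5 | g5
    · omega
    · obtain ⟨q1, q2, q3⟩ := g5
      have : a2 = s := by omega
      subst this
      rw [off_even hs] at h4
      omega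
    · omega
    · omega
    · omega
    · have := g5.1
      have := g5.2.1
      omega

theorem card_t3 (hrev : ∀ i e e', e < nb → e' < nb → ord i e < ord i e' →
      ord (i + 1) e' < ord (i + 1) e) {h s o o' : ℕ}
    (hR : RS P M D nb T tr ord R (h, s, o) (h, s + 2, o')) (hh : 1 ≤ h) (hs : s % 2 = 0)
    (ho : o < P) (ho' : o' < P) (hc : o' < 2 ∨ (P - 3 ≤ o ∧ o' < P - 1)) : R.card ≤ P := by
  have key : ∀ e ∈ R, e.2.1 = h ∧ ((e.2.2.1 = s ∧ o < e.2.2.2 ∧ e.2.2.2 < P) ∨ e.2.2.1 = s + 1 ∨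
      (e.2.2.1 = s + 2 ∧ e.2.2.2 < o')) := by
    intro e he
    have h1 := hR.xr e he
    have h2 := hR.ry e he
    have g := (hR.edge e he).2.1
    obtain ⟨e1, ⟨h3, s3, o3⟩⟩ := e
    unfold Lt at h1 h2
    rw [off_even hs] at h1
    rw [off_even (show (s + 2) % 2 = 0 by omega)] at h2
    unfold GV HV FV BV at g
    dsimp only at h1 h2 g ⊢
    by_cases hs3 : s3 % 2 = 0
    · rw [off_even hs3] at h1 h2
      omega
    · omega
  by_cases hex : ∃ ea ∈ R, ea.2.2.1 = s + 1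
  · obtain ⟨ea, hea, hea'⟩ := hex
    have ha1 := (key ea hea).1
    have nb' : ∀ e ∈ R, e.2.2.1 = s + 2 → e.1.1 = h ∧ e.1.2.1 = s ∧ e.1.2.2 < o :=
      fun e he he' => next_block hR hs he hea ha1 hea' (key e he).1 he'
    refine card_le_label (fun e => if e.2.2.1 = s then e.2.2.2 else
      if e.2.2.1 = s + 1 then o else e.1.2.2) (fun e he => ?_) (fun e he f hf hef => ?_)
    · have h1 := key e he
      have h2 := nb' e he
      split_ifs <;> omega
    · have h1 := key e he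
      have h2 := nb' e he
      have h3 := key f hf
      have h4 := nb' f hf
      have h5 : (e.2.2.1 = s ∧ f.2.2.1 = s ∧ e.2.2.2 = f.2.2.2) ∨ (e.2.2.1 = s + 1 ∧
          f.2.2.1 = s + 1) ∨ (e.2.2.1 = s + 2 ∧ f.2.2.1 = s + 2 ∧ e.1.2.2 = f.1.2.2) := by
        split_ifs at hef <;> omega
      rcases h5 with ⟨q1, q2, q3⟩ | ⟨q1, q2⟩ | ⟨q1, q2, q3⟩
      · refine hR.right_inj he hf ?_
        obtain ⟨e1, ⟨a1, a2, a3⟩⟩ := e
        obtain ⟨f1, ⟨b1, b2, b3⟩⟩ := f
        dsimp only at q1 q2 q3 h1 h3 ⊢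
        rw [q1, q2, q3, h1.1, h3.1]
      · exact hR.bus_unique hrev he hf (by rw [h1.1, h3.1]) (by rw [q1, q2]) (by omega)
      · refine hR.left_inj he hf ?_
        have h6 := h2 q1
        have h7 := h4 q2
        obtain ⟨⟨a1, a2, a3⟩, e2⟩ := e
        obtain ⟨⟨b1, b2, b3⟩, f2⟩ := f
        dsimp only at q3 h6 h7 ⊢
        rw [h6.1, h6.2.1, h7.1, h7.2.1, q3]
  · push Not at hex
    refine card_le_label (fun e => if e.2.2.1 = s then e.2.2.2 - (o + 1) else
      (P - 1 - o) + e.2.2.2) (fun e he => ?_) (fun e he f hf hef => ?_)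
    · have h1 := key e he
      have h2 := hex e he
      split_ifs <;> omega
    · have h1 := key e he
      have h2 := hex e he
      have h3 := key f hf
      have h4 := hex f hf
      have h5 : e.2.2.1 = f.2.2.1 ∧ e.2.2.2 = f.2.2.2 := by
        split_ifs at hef <;> omega
      refine hR.right_inj he hf ?_
      obtain ⟨e1, ⟨a1, a2, a3⟩⟩ := e
      obtain ⟨f1, ⟨b1, b2, b3⟩⟩ := f
      dsimp only at h5 h1 h3 ⊢
      rw [h1.1, h3.1, h5.1, h5.2]

theorem card_t5 {h o' : ℕ} (hR : RS P M D nb T tr ord R (h, 0, P - 1) (h, 3, o')) (hh : 1 ≤ h)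
    (hP : 9 ≤ P) : R.card ≤ P := by
  have key : ∀ e ∈ R, e.2.1 = h ∧ e.2.2.1 = 2 ∧ e.2.2.2 < P := by
    intro e he
    have h0 := hR.lx e he
    have h1 := hR.xr e he
    have h2 := hR.ry e he
    have h3 := hR.edge e he
    have g := h3.2.1
    obtain ⟨⟨c3, s3, o3⟩, ⟨c4, s4, o4⟩⟩ := e
    unfold Lt at h0 h1 h2
    rw [off_even (show 0 % 2 = 0 by rfl)] at h0 h1
    unfold GV HV FV BV at g
    dsimp only at h0 h1 h2 g ⊢
    by_cases hs4 : s4 % 2 = 0
    · rw [off_even hs4] at h1 h2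
      omega
    · obtain ⟨p1, p2, p3, p4⟩ := bus_end h3 (by omega)
      rcases p4 with p4 | ⟨p4, p5, p6⟩
      · omega
      · subst p4 p5
        rw [off_even (show 0 % 2 = 0 by rfl)] at h0
        omega
  refine card_le_label (fun e => e.2.2.2) (fun e he => (key e he).2.2) (fun e he f hf hef => ?_)
  have h1 := key e he
  have h2 := key f hf
  refine hR.right_inj he hf ?_
  obtain ⟨e1, ⟨a1, a2, a3⟩⟩ := e
  obtain ⟨f1, ⟨b1, b2, b3⟩⟩ := f
  dsimp only at h1 h2 hef ⊢
  rw [h1.1, h2.1, h1.2.1, h2.2.1, hef]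

theorem card_t7 (hrev : ∀ i e e', e < nb → e' < nb → ord i e < ord i e' →
      ord (i + 1) e' < ord (i + 1) e) {h s a o' : ℕ}
    (hR : RS P M D nb T tr ord R (h, s, a) (h, s + 1, o')) (hs : s % 2 = 1) (ho' : o' < P) :
    R.card ≤ P := by
  have key : ∀ e ∈ R, e.2.1 = h ∧ (e.2.2.1 = s ∨ (e.2.2.1 = s + 1 ∧ e.2.2.2 < o')) := by
    intro e he
    have h1 := hR.xr e he
    have h2 := hR.ry e he
    obtain ⟨e1, ⟨h4, s4, o4⟩⟩ := e
    unfold Lt at h1 h2
    rw [off_even (show (s + 1) % 2 = 0 by omega)] at h2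
    dsimp only at h1 h2 ⊢
    by_cases hs4 : s4 % 2 = 0
    · rw [off_even hs4] at h1 h2
      omega
    · omega
  refine card_le_label (fun e => if e.2.2.1 = s then P - 1 else e.2.2.2) (fun e he => ?_)
    (fun e he f hf hef => ?_)
  · have h1 := key e he
    split_ifs <;> omega
  · have h1 := key e he
    have h3 := key f hf
    have h5 : (e.2.2.1 = s ∧ f.2.2.1 = s) ∨ (e.2.2.1 = s + 1 ∧
        f.2.2.1 = s + 1 ∧ e.2.2.2 = f.2.2.2) := by
      split_ifs at hef <;> omega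
    rcases h5 with ⟨q1, q2⟩ | ⟨q1, q2, q3⟩
    · exact hR.bus_unique hrev he hf (by rw [h1.1, h3.1]) (by rw [q1, q2]) (by omega)
    · refine hR.right_inj he hf ?_
      obtain ⟨e1, ⟨a1, a2, a3⟩⟩ := e
      obtain ⟨f1, ⟨b1, b2, b3⟩⟩ := f
      dsimp only at q1 q2 q3 h1 h3 ⊢
      rw [q1, q2, q3, h1.1, h3.1]

/-- the edges which end at a block vertex after a left arc -/
theorem typ {h s a : ℕ} {y : ℕ × ℕ × ℕ} (hR : RS P M D nb T tr ord R (h, s, a) y)
    (hs : s % 2 = 1) (hsM : s ≤ 2 * M + 1) {e ea : (ℕ × ℕ × ℕ) × (ℕ × ℕ × ℕ)} (he : e ∈ R)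
    (hea : ea ∈ R) (ha1 : ea.2.1 = h) (ha2 : ea.2.2.1 = s) (he1 : e.2.1 = h)
    (he2 : e.2.2.1 = s + 1) (ho : 2 ≤ e.2.2.2) :
    e.1.1 = h ∧ ((e.1.2.1 + 1 = s ∧ P - 3 ≤ e.1.2.2 ∧ e.1.2.2 < P ∧ e.2.2.2 < P - 1) ∨
      (e.1.2.1 = s ∧ ((e.1.2.2 < D ∧ e.2.2.2 < P - 3) ∨
        (tr (s / 2) e.1.2.2 ∧ P - 3 ≤ e.2.2.2)))) := by
  have hne : e ≠ ea := by
    rintro rfl
    omega
  have h1 := hR.edge e he
  have h2 := hR.edge ea hea
  have h3 := hR.cr e he ea hea hne
  have h4 := hR.lx e he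
  obtain ⟨⟨a1, a2, a3⟩, ⟨b1, b2, b3⟩⟩ := e
  obtain ⟨⟨c1, c2, c3⟩, ⟨d1, d2, d3⟩⟩ := ea
  dsimp only at ha1 ha2 he1 he2 h3 ho ⊢
  subst ha1 ha2 he2 he1
  obtain ⟨p1, p2, p3, p4⟩ := bus_end h2 (by omega)
  subst p1
  have h5 : Lt ord (c1, c2, c3) (a1, a2, a3) := by
    rcases h3 with h3 | h3
    · have := h3.2
      unfold Lt at this
      dsimp only at this
      omega
    · exact h3.1
  obtain ⟨g1, g2, g3⟩ := h1
  unfold Lt at h4 h5
  dsimp only at h4 h5
  unfold GV HV FV BV at g1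
  dsimp only at g1
  unfold gadj loc at g3
  dsimp only at g3
  rcases g3 with g3 | ⟨g3, g4, g5⟩
  · omega
  · subst g4
    rcases g5 with g5 | g5 | g5 | g5 | g5 | g5
    · omega
    · omega
    · omega
    · omega
    · omega
    · obtain ⟨q1, q2, q3⟩ := g5
      have : a2 = d2 := by omega
      subst this
      refine ⟨rfl, Or.inr ⟨rfl, ?_⟩⟩
      rcases q3 with q3 | q3 | q3
      · omega
      · exact Or.inl q3
      · exact Or.inr q3

/-- the case of an arc -/
theorem card_arc (hrev : ∀ i e e', e < nb → e' < nb → ord i e < ord i e' →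
      ord (i + 1) e' < ord (i + 1) e) (hP : 9 ≤ P)
    (hstar : ∀ i, 1 ≤ i → i ≤ M → ∃ t1 t2 t3, (∀ x, tr i x → x = t1 ∨ x = t2 ∨ x = t3) ∧
      ∃ x, (x = t1 ∨ x = t2 ∨ x = t3) ∧ ∀ d < D, ord i x < ord i d)
    {h s a : ℕ} {y : ℕ × ℕ × ℕ} (hR : RS P M D nb T tr ord R (h, s, a) y)
    (hs : s % 2 = 1) (hs3 : 3 ≤ s) (hsM : s ≤ 2 * M + 1)
    (key : ∀ e ∈ R, e.2.1 = h ∧ (e.2.2.1 = s ∨ (e.2.2.1 = s + 1 ∧ e.2.2.2 < P))) :
    R.card ≤ P := by
  classical
  set lab : (ℕ × ℕ × ℕ) × (ℕ × ℕ × ℕ) → ℕ :=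
    fun e => if e.2.2.1 = s then P else e.2.2.2 with hlab
  have hlt : ∀ e ∈ R, lab e < P + 1 := by
    intro e he
    have h1 := key e he
    rw [hlab]
    dsimp only
    split_ifs <;> omega
  have hinj : ∀ e ∈ R, ∀ f ∈ R, lab e = lab f → e = f := by
    intro e he f hf hef
    have h1 := key e he
    have h3 := key f hf
    rw [hlab] at hef
    dsimp only at hef
    have h5 : (e.2.2.1 = s ∧ f.2.2.1 = s) ∨ (e.2.2.1 = s + 1 ∧
        f.2.2.1 = s + 1 ∧ e.2.2.2 = f.2.2.2) := by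
      split_ifs at hef <;> omega
    rcases h5 with ⟨q1, q2⟩ | ⟨q1, q2, q3⟩
    · exact hR.bus_unique hrev he hf (by rw [h1.1, h3.1]) (by rw [q1, q2]) (by omega)
    · refine hR.right_inj he hf ?_
      obtain ⟨e1, ⟨a1, a2, a3⟩⟩ := e
      obtain ⟨f1, ⟨b1, b2, b3⟩⟩ := f
      dsimp only at q1 q2 q3 h1 h3 ⊢
      rw [q1, q2, q3, h1.1, h3.1]
  by_contra hcard
  push Not at hcard
  have himg : R.image lab = Finset.range (P + 1) := by
    refine Finset.eq_of_subset_of_card_le (fun n hn => ?_) ?_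
    · rw [Finset.mem_image] at hn
      obtain ⟨e, he, rfl⟩ := hn
      rw [Finset.mem_range]
      exact hlt e he
    · rw [Finset.card_range, Finset.card_image_of_injOn (fun e he f hf hef => hinj e he f hf hef)]
      omega
  have hex : ∀ n < P + 1, ∃ e ∈ R, lab e = n := by
    intro n hn
    have : n ∈ R.image lab := by
      rw [himg, Finset.mem_range]
      exact hn
    rwa [Finset.mem_image] at this
  obtain ⟨ea, hea, hla⟩ := hex P (by omega)
  have hea' := key ea hea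
  have hea1 : ea.2.2.1 = s := by
    rw [hlab] at hla
    dsimp only at hla
    split_ifs at hla with h1
    · exact h1
    · omega
  have hF : ∀ n < P, ∃ e ∈ R, e.2.1 = h ∧ e.2.2.1 = s + 1 ∧ e.2.2.2 = n := by
    intro n hn
    obtain ⟨e, he, hle⟩ := hex n (by omega)
    have h1 := key e he
    rw [hlab] at hle
    dsimp only at hle
    split_ifs at hle with h2
    · omega
    · exact ⟨e, he, h1.1, by omega, hle⟩
  choose! E hE hEh hEs hEo using hF
  have hT : ∀ n, 2 ≤ n → n < P → (E n).1.1 = h ∧ (((E n).1.2.1 + 1 = s ∧ P - 3 ≤ (E n).1.2.2 ∧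
      (E n).1.2.2 < P ∧ n < P - 1) ∨ ((E n).1.2.1 = s ∧ (((E n).1.2.2 < D ∧ n < P - 3) ∨
        (tr (s / 2) (E n).1.2.2 ∧ P - 3 ≤ n)))) := by
    intro n hn hn'
    have := typ hR hs hsM (hE n hn') hea hea'.1 hea1 (hEh n hn') (hEs n hn')
      (by rw [hEo n hn']; exact hn)
    rwa [hEo n hn'] at this
  have hmono : ∀ m n, m < n → n < P → Lt ord (E m).1 (E n).1 := by
    intro m n hmn hn
    have hne : E m ≠ E n := by
      intro he
      have h1 := hEo m (by omega)
      rw [he, hEo n hn] at h1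
      omega
    rcases hR.cr _ (hE m (by omega)) _ (hE n hn) hne with h1 | h1
    · exact h1.1
    · exfalso
      have h2 := h1.2
      have e1 := hEh m (by omega)
      have e2 := hEh n hn
      have e3 := hEs m (by omega)
      have e4 := hEs n hn
      have e5 := hEo m (by omega)
      have e6 := hEo n hn
      generalize E m = em at *
      generalize E n = en at *
      obtain ⟨em1, ⟨am1, am2, am3⟩⟩ := em
      obtain ⟨en1, ⟨an1, an2, an3⟩⟩ := en
      dsimp only at e1 e2 e3 e4 e5 e6 h2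
      subst e1 e2 e3 e4 e5 e6
      unfold Lt at h2
      rw [off_even (show (s + 1) % 2 = 0 by omega), off_even (show (s + 1) % 2 = 0 by omega)] at h2
      dsimp only at h2
      omega
  have hoff : ∀ n, ((E n).1.2.1 % 2 = 0 → off ord (E n).1 = (E n).1.2.2) ∧
      ((E n).1.2.1 = s → off ord (E n).1 = ord (s / 2) (E n).1.2.2) := by
    intro n
    generalize E n = e
    obtain ⟨⟨a1, a2, a3⟩, e2⟩ := e
    dsimp only
    constructor
    · intro h1
      exact off_even h1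
    · intro h1
      subst h1
      exact off_odd hs
  -- the edge ending at 5 comes from a dummy
  have t2 := hT 2 (by omega) (by omega)
  have t3 := hT 3 (by omega) (by omega)
  have t4 := hT 4 (by omega) (by omega)
  have t5 := hT 5 (by omega) (by omega)
  have m23 := hmono 2 3 (by omega) (by omega)
  have m34 := hmono 3 4 (by omega) (by omega)
  have m45 := hmono 4 5 (by omega) (by omega)
  have o2 := (hoff 2).1
  have o3 := (hoff 3).1
  have o4 := (hoff 4).1
  have o5 := (hoff 5).1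
  have o5' := (hoff 5).2
  have h5 : (E 5).1.2.1 = s ∧ (E 5).1.2.2 < D := by
    unfold Lt at m23 m34 m45
    rcases t5.2 with q | q
    · exfalso
      have r4 : (E 4).1.2.1 + 1 = s := by
        rcases t4.2 with r | r
        · exact r.1
        · omega
      have r3 : (E 3).1.2.1 + 1 = s := by
        rcases t3.2 with r | r
        · exact r.1
        · omega
      have r2 : (E 2).1.2.1 + 1 = s := by
        rcases t2.2 with r | r
        · exact r.1
        · omega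
      have b2 : P - 3 ≤ (E 2).1.2.2 := by
        rcases t2.2 with r | r
        · exact r.2.1
        · omega
      have := o2 (by omega)
      have := o3 (by omega)
      have := o4 (by omega)
      have := o5 (by omega)
      omega
    · refine ⟨q.1, ?_⟩
      rcases q.2 with r | r
      · exact r.1
      · omega
  have hB : ∀ n, P - 3 ≤ n → n < P → (E n).1.2.1 = s ∧ tr (s / 2) (E n).1.2.2 ∧
      ord (s / 2) (E 5).1.2.2 < ord (s / 2) (E n).1.2.2 := by
    intro n hn hn'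
    have t := hT n (by omega) hn'
    have m := hmono 5 n (by omega) hn'
    have o := (hoff n).2
    unfold Lt at m
    have r : (E n).1.2.1 = s := by
      rcases t.2 with r | r
      · omega
      · exact r.1
    refine ⟨r, ?_, ?_⟩
    · rcases t.2 with q | q
      · omega
      · rcases q.2 with q | q
        · omega
        · exact q.1
    · have := o r
      have := o5' h5.1
      omega
  obtain ⟨s1, s2, s3⟩ := hB (P - 3) (by omega) (by omega)
  obtain ⟨s4, s5, s6⟩ := hB (P - 2) (by omega) (by omega)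
  obtain ⟨s7, s8, s9⟩ := hB (P - 1) (by omega) (by omega)
  have m1 := hmono (P - 3) (P - 2) (by omega) (by omega)
  have m2 := hmono (P - 2) (P - 1) (by omega) (by omega)
  have c1 := (hT (P - 3) (by omega) (by omega)).1
  have c2 := (hT (P - 2) (by omega) (by omega)).1
  have c3 := (hT (P - 1) (by omega) (by omega)).1
  have u1 := (hoff (P - 3)).2 s1
  have u2 := (hoff (P - 2)).2 s4
  have u3 := (hoff (P - 1)).2 s7
  unfold Lt at m1 m2
  have d12 : (E (P - 3)).1.2.2 ≠ (E (P - 2)).1.2.2 := by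
    intro he
    rw [he] at u1
    omega
  have d23 : (E (P - 2)).1.2.2 ≠ (E (P - 1)).1.2.2 := by
    intro he
    rw [he] at u2
    omega
  have d13 : (E (P - 3)).1.2.2 ≠ (E (P - 1)).1.2.2 := by
    intro he
    rw [he] at u1
    omega
  obtain ⟨t1, t2, t3, ht, x, hx, hxd⟩ := hstar (s / 2) (by omega) (by omega)
  have v1 := ht _ s2
  have v2 := ht _ s5
  have v3 := ht _ s8
  have v : x = (E (P - 3)).1.2.2 ∨ x = (E (P - 2)).1.2.2 ∨ x = (E (P - 1)).1.2.2 := by omega
  have w := hxd _ h5.2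
  rcases v with rfl | rfl | rfl <;> omega

end

end Pool.Agent.H619R2.QP
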