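import Pool.Agent.H619R2.QP.Bus

/-!
# Reading off an assignment
-/

namespace Pool.Agent.H619R2.QP

/-- A monotone instance: a list of pairs (positive triple, negative triple). -/
abbrev MI := List ((ℕ × ℕ × ℕ) × (ℕ × ℕ × ℕ))

/-- each positive triple contains a true variable, each negative triple contains a false one -/
def Sat (τ : ℕ → Prop) (I : MI) : Prop :=
  ∀ c ∈ I, (τ c.1.1 ∨ τ c.1.2.1 ∨ τ c.1.2.2) ∧ (¬ τ c.2.1 ∨ ¬ τ c.2.2.1 ∨ ¬ τ c.2.2.2)

/-- three different numbers below `n` -/
def Tri (n : ℕ) (t : ℕ × ℕ × ℕ) : Prop :=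
  t.1 < n ∧ t.2.1 < n ∧ t.2.2 < n ∧ t.1 ≠ t.2.1 ∧ t.1 ≠ t.2.2 ∧ t.2.1 ≠ t.2.2

/-- well-formed instances with variables below `n` -/
def Good (n : ℕ) (I : MI) : Prop := ∀ c ∈ I, Tri n c.1 ∧ Tri n c.2

/-- the triple treated at level `i` -/
def prI (I : MI) (i : ℕ) : ℕ × ℕ × ℕ :=
  if (i - 1) % 2 = 0 then (I.getD ((i - 1) / 10) ((0, 0, 0), (0, 0, 0))).1
  else (I.getD ((i - 1) / 10) ((0, 0, 0), (0, 0, 0))).2

/-- the three elements of the bus treated at level `i` -/
def trI (D : ℕ) (I : MI) (i x : ℕ) : Prop :=
  x = D + 5 * (prI I i).1 + (i - 1) % 10 / 2 ∨ x = D + 5 * (prI I i).2.1 + (i - 1) % 10 / 2 ∨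
    x = D + 5 * (prI I i).2.2 + (i - 1) % 10 / 2

section

variable {P M D nb : ℕ} {tr : ℕ → ℕ → Prop} {p : ℕ × ℕ → ℕ}

theorem rev_iff (h : Loc P M D nb tr p) (ho : Ord P M nb p) (hP : 9 ≤ P) {i : ℕ} (hi : 1 ≤ i)
    (hiM : i + 1 ≤ M) {e e' : ℕ} (he : e < nb) (he' : e' < nb) :
    p (2 * (i + 1) + 1, e) < p (2 * (i + 1) + 1, e') ↔ p (2 * i + 1, e') < p (2 * i + 1, e) := by
  constructor
  · intro h1
    rcases lt_trichotomy (p (2 * i + 1, e')) (p (2 * i + 1, e)) with h2 | h2 | h2
    · exact h2
    · have := h.inj _ _ (Or.inr (BVmk hi (by omega) he')) (Or.inr (BVmk hi (by omega) he)) h2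
      rw [Prod.mk.injEq] at this
      rw [this.2] at h1
      omega
    · have := rev h ho hP hi hiM he he' h2
      omega
  · exact rev h ho hP hi hiM he' he

theorem transfer (h : Loc P M D nb tr p) (ho : Ord P M nb p) (hP : 9 ≤ P) {i : ℕ} (hi : 1 ≤ i) :
    i ≤ M → ∀ e < nb, ∀ e' < nb,
      (i % 2 = 1 → (p (2 * i + 1, e) < p (2 * i + 1, e') ↔ p (3, e) < p (3, e'))) ∧
      (i % 2 = 0 → (p (2 * i + 1, e) < p (2 * i + 1, e') ↔ p (3, e') < p (3, e))) := by
  induction i, hi using Nat.le_induction with
  | base =>
    intro hM e he e' he'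
    exact ⟨fun _ => Iff.rfl, fun h => by omega⟩
  | succ i hi ih =>
    intro hM e he e' he'
    obtain ⟨h1, h2⟩ := ih (by omega) e' he' e he
    have h3 := rev_iff h ho hP hi hM he he'
    constructor
    · intro hpar
      rw [h3]
      exact h2 (by omega)
    · intro hpar
      rw [h3]
      exact h1 (by omega)

/-- a copy of the variables which avoids the extreme elements of the bus -/
theorem clean (h : Loc P M D nb tr p) (hM : 1 ≤ M) {nv : ℕ} (hnb : D + 5 * nv ≤ nb) :
    ∃ c < 5, ∀ y < nv,
      2 ≤ ((Finset.range nb).filter (fun e => p (3, D + 5 * y + c) < p (3, e))).card ∧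
      2 ≤ ((Finset.range nb).filter (fun e => p (3, e) < p (3, D + 5 * y + c))).card := by
  by_contra hcon
  push Not at hcon
  set R := fun x => ((Finset.range nb).filter (fun e => p (3, x) < p (3, e))).card with hR
  set L := fun x => ((Finset.range nb).filter (fun e => p (3, e) < p (3, x))).card with hL
  have hc : ∀ c, c < 5 → ∃ y < nv, R (D + 5 * y + c) < 2 ∨ L (D + 5 * y + c) < 2 := by
    intro c hc
    obtain ⟨y, hy, hyc⟩ := hcon c hc
    refine ⟨y, hy, ?_⟩
    by_cases h1 : 2 ≤ R (D + 5 * y + c)
    · exact Or.inr (hyc h1)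
    · exact Or.inl (by omega)
  have hinj : ∀ x < nb, ∀ y < nb, p (3, x) = p (3, y) → x = y := by
    intro x hx y hy hxy
    have := h.inj _ _ (Or.inr (BVmk (i := 1) le_rfl hM hx)) (Or.inr (BVmk (i := 1) le_rfl hM hy))
      hxy
    rw [Prod.mk.injEq] at this
    exact this.2
  have hRlt : ∀ x < nb, ∀ y < nb, p (3, x) < p (3, y) → R y < R x := by
    intro x hx y hy hxy
    refine Finset.card_lt_card ⟨fun e he => ?_, fun hsub => ?_⟩
    · rw [Finset.mem_filter] at he ⊢
      exact ⟨he.1, hxy.trans he.2⟩
    · have : y ∈ (Finset.range nb).filter (fun e => p (3, y) < p (3, e)) := hsub (by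
        rw [Finset.mem_filter, Finset.mem_range]
        exact ⟨hy, hxy⟩)
      rw [Finset.mem_filter] at this
      exact absurd this.2 (lt_irrefl _)
  have hLlt : ∀ x < nb, ∀ y < nb, p (3, x) < p (3, y) → L x < L y := by
    intro x hx y hy hxy
    refine Finset.card_lt_card ⟨fun e he => ?_, fun hsub => ?_⟩
    · rw [Finset.mem_filter] at he ⊢
      exact ⟨he.1, he.2.trans hxy⟩
    · have : x ∈ (Finset.range nb).filter (fun e => p (3, e) < p (3, x)) := hsub (by
        rw [Finset.mem_filter, Finset.mem_range]
        exact ⟨hx, hxy⟩)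
      rw [Finset.mem_filter] at this
      exact absurd this.2 (lt_irrefl _)
  have hRi : ∀ x < nb, ∀ y < nb, R x = R y → x = y := by
    intro x hx y hy hxy
    rcases lt_trichotomy (p (3, x)) (p (3, y)) with h1 | h1 | h1
    · have := hRlt x hx y hy h1
      omega
    · exact hinj x hx y hy h1
    · have := hRlt y hy x hx h1
      omega
  have hLi : ∀ x < nb, ∀ y < nb, L x = L y → x = y := by
    intro x hx y hy hxy
    rcases lt_trichotomy (p (3, x)) (p (3, y)) with h1 | h1 | h1
    · have := hLlt x hx y hy h1
      omega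
    · exact hinj x hx y hy h1
    · have := hLlt y hy x hx h1
      omega
  choose! y hy hy' using hc
  obtain ⟨c1, hc1, c2, hc2, hne, heq⟩ := Finset.exists_ne_map_eq_of_card_lt_of_maps_to
    (s := Finset.range 5) (t := Finset.range 4) (by simp)
    (f := fun c => if R (D + 5 * y c + c) < 2 then R (D + 5 * y c + c)
      else 2 + L (D + 5 * y c + c)) (by
      intro c hc
      rw [Finset.mem_coe, Finset.mem_range] at hc
      rw [Finset.mem_coe, Finset.mem_range]
      have := hy' c hc
      dsimp only
      split_ifs <;> omega)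
  rw [Finset.mem_range] at hc1 hc2
  have b1 := hy c1 hc1
  have b2 := hy c2 hc2
  have d1 := hy' c1 hc1
  have d2 := hy' c2 hc2
  have : D + 5 * y c1 + c1 = D + 5 * y c2 + c2 := by
    split_ifs at heq with h1 h2 h2
    · exact hRi _ (by omega) _ (by omega) heq
    · omega
    · omega
    · exact hLi _ (by omega) _ (by omega) (by omega)
  omega

theorem card_tri {D c n : ℕ} {t : ℕ × ℕ × ℕ} (ht : Tri n t) :
    ({D + 5 * t.1 + c, D + 5 * t.2.1 + c, D + 5 * t.2.2 + c} : Finset ℕ).card = 3 := by
  obtain ⟨_, _, _, h1, h2, h3⟩ := ht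
  rw [Finset.card_eq_three]
  exact ⟨_, _, _, by omega, by omega, by omega, rfl⟩

theorem sound_local {nv : ℕ} {I : MI} (hI : Good nv I) (hP : 9 ≤ P)
    (h : Loc P (10 * I.length) (2 * P - 7) (2 * P - 7 + 5 * nv) (trI (2 * P - 7) I) p) :
    ∃ τ, Sat τ I := by
  obtain ⟨p, h, ho⟩ := h.exists_ord hP
  by_cases hM : I.length = 0
  · refine ⟨fun _ => True, ?_⟩
    rw [List.length_eq_zero_iff] at hM
    subst hM
    intro c hc
    simp at hc
  set D := 2 * P - 7 with hD
  set nb := D + 5 * nv with hnb
  obtain ⟨c, hc, hcl⟩ := clean h (by omega) (nv := nv) le_rfl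
  set bef := fun x => ((Finset.range D).filter (fun d => p (3, d) < p (3, x))).card with hbef
  refine ⟨fun y => bef (D + 5 * y + c) < P - 3, ?_⟩
  intro pr hpr
  obtain ⟨m, hm, hpr'⟩ := List.mem_iff_getElem.1 hpr
  have hget : I.getD m ((0, 0, 0), (0, 0, 0)) = pr := by
    rw [List.getD_eq_getElem _ _ hm, hpr']
  obtain ⟨hg1, hg2⟩ := hI pr hpr
  constructor
  · by_contra hcon
    push Not at hcon
    set i := 10 * m + 2 * c + 1 with hi
    have hpri : prI I i = pr.1 := by
      unfold prI
      rw [if_pos (by omega), show (i - 1) / 10 = m by omega, hget]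
    have hci : (i - 1) % 10 / 2 = c := by omega
    have hiM : i ≤ 10 * I.length := by omega
    have htr := fun e he e' he' => (transfer h ho hP (i := i) (by omega) hiM e he e' he').1 (by omega)
    have hXn : ∀ x ∈ ({D + 5 * pr.1.1 + c, D + 5 * pr.1.2.1 + c, D + 5 * pr.1.2.2 + c} : Finset ℕ),
        x < nb := by
      intro x hx
      simp only [Finset.mem_insert, Finset.mem_singleton] at hx
      obtain ⟨h1, h2, h3, _⟩ := hg1
      rcases hx with rfl | rfl | rfl <;> omega
    refine level_contra h ho hP (by omega) (i := i) (by omega) hiM (card_tri (c := c) (D := D) hg1)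
      hXn (fun x hx => ?_) (fun x hx => ?_) (fun x hx => ?_)
    · unfold trI
      rw [hpri, hci]
      simpa only [Finset.mem_insert, Finset.mem_singleton] using hx
    · have hxn := hXn x hx
      have he : (Finset.range D).filter (fun d => p (2 * i + 1, d) < p (2 * i + 1, x)) =
          (Finset.range D).filter (fun d => p (3, d) < p (3, x)) := by
        refine Finset.filter_congr (fun d hd => ?_)
        rw [Finset.mem_range] at hd
        exact htr d (by omega) x hxn
      rw [he]
      simp only [Finset.mem_insert, Finset.mem_singleton] at hx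
      rcases hx with rfl | rfl | rfl
      · exact hcon.1
      · exact hcon.2.1
      · exact hcon.2.2
    · have hxn := hXn x hx
      have he : (Finset.range nb).filter (fun e => p (2 * i + 1, x) < p (2 * i + 1, e)) =
          (Finset.range nb).filter (fun e => p (3, x) < p (3, e)) := by
        refine Finset.filter_congr (fun d hd => ?_)
        rw [Finset.mem_range] at hd
        exact htr x hxn d hd
      rw [he]
      simp only [Finset.mem_insert, Finset.mem_singleton] at hx
      rcases hx with rfl | rfl | rfl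
      · exact (hcl _ hg1.1).1
      · exact (hcl _ hg1.2.1).1
      · exact (hcl _ hg1.2.2.1).1
  · by_contra hcon
    push Not at hcon
    set i := 10 * m + 2 * c + 2 with hi
    have hpri : prI I i = pr.2 := by
      unfold prI
      rw [if_neg (by omega), show (i - 1) / 10 = m by omega, hget]
    have hci : (i - 1) % 10 / 2 = c := by omega
    have hiM : i ≤ 10 * I.length := by omega
    have htr := fun e he e' he' => (transfer h ho hP (i := i) (by omega) hiM e he e' he').2 (by omega)
    have hXn : ∀ x ∈ ({D + 5 * pr.2.1 + c, D + 5 * pr.2.2.1 + c, D + 5 * pr.2.2.2 + c} : Finset ℕ),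
        x < nb := by
      intro x hx
      simp only [Finset.mem_insert, Finset.mem_singleton] at hx
      obtain ⟨h1, h2, h3, _⟩ := hg2
      rcases hx with rfl | rfl | rfl <;> omega
    refine level_contra h ho hP (by omega) (i := i) (by omega) hiM (card_tri (c := c) (D := D) hg2)
      hXn (fun x hx => ?_) (fun x hx => ?_) (fun x hx => ?_)
    · unfold trI
      rw [hpri, hci]
      simpa only [Finset.mem_insert, Finset.mem_singleton] using hx
    · have hxn := hXn x hx
      have hb : bef x < P - 3 ∧ D ≤ x := by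
        simp only [Finset.mem_insert, Finset.mem_singleton] at hx
        rcases hx with rfl | rfl | rfl
        · exact ⟨hcon.1, by omega⟩
        · exact ⟨hcon.2.1, by omega⟩
        · exact ⟨hcon.2.2, by omega⟩
      have he : (Finset.range D).filter (fun d => p (2 * i + 1, d) < p (2 * i + 1, x)) =
          (Finset.range D).filter (fun d => ¬ p (3, d) < p (3, x)) := by
        refine Finset.filter_congr (fun d hd => ?_)
        rw [Finset.mem_range] at hd
        rw [htr d (by omega) x hxn]
        constructor
        · intro h1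
          omega
        · intro h1
          have h2 : p (3, x) ≠ p (3, d) := by
            intro h3
            have := h.inj _ _ (Or.inr (BVmk (i := 1) le_rfl (by omega) hxn))
              (Or.inr (BVmk (i := 1) le_rfl (by omega) (show d < nb by omega))) h3
            rw [Prod.mk.injEq] at this
            omega
          omega
      rw [he]
      have hcard := Finset.card_filter_add_card_filter_not (s := Finset.range D)
        (fun d => p (3, d) < p (3, x))
      rw [Finset.card_range] at hcard
      have hb1 := hb.1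
      rw [hbef] at hb1
      dsimp only at hb1
      omega
    · have hxn := hXn x hx
      have he : (Finset.range nb).filter (fun e => p (2 * i + 1, x) < p (2 * i + 1, e)) =
          (Finset.range nb).filter (fun e => p (3, e) < p (3, x)) := by
        refine Finset.filter_congr (fun d hd => ?_)
        rw [Finset.mem_range] at hd
        exact htr x hxn d hd
      rw [he]
      simp only [Finset.mem_insert, Finset.mem_singleton] at hx
      rcases hx with rfl | rfl | rfl
      · exact (hcl _ hg2.1).2
      · exact (hcl _ hg2.2.1).2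
      · exact (hcl _ hg2.2.2.1).2

end

end Pool.Agent.H619R2.QP
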