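import Pool.Agent.H619R2.QP.Global
import Pool.Agent.H619R2.QP.Inst

/-!
# The intended order has no long twist
-/

namespace Pool.Agent.H619R2.QP

/-- the place of a vertex in its segment -/
def off (ord : ℕ → ℕ → ℕ) (v : ℕ × ℕ × ℕ) : ℕ :=
  if v.2.1 % 2 = 1 then ord (v.2.1 / 2) v.2.2 else v.2.2

theorem off_even {ord : ℕ → ℕ → ℕ} {h s o : ℕ} (hs : s % 2 = 0) : off ord (h, s, o) = o := by
  unfold off
  rw [if_neg]
  dsimp only
  omega

theorem off_odd {ord : ℕ → ℕ → ℕ} {h s o : ℕ} (hs : s % 2 = 1) :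
    off ord (h, s, o) = ord (s / 2) o := by
  unfold off
  rw [if_pos]
  exact hs

/-- the intended order -/
def Lt (ord : ℕ → ℕ → ℕ) (u v : ℕ × ℕ × ℕ) : Prop :=
  u.1 < v.1 ∨ (u.1 = v.1 ∧ (u.2.1 < v.2.1 ∨ (u.2.1 = v.2.1 ∧ off ord u < off ord v)))

theorem Lt.irrefl {ord : ℕ → ℕ → ℕ} {u : ℕ × ℕ × ℕ} (h : Lt ord u u) : False := by
  unfold Lt at h
  omega

theorem Lt.asymm {ord : ℕ → ℕ → ℕ} {u v : ℕ × ℕ × ℕ} (h : Lt ord u v) (h' : Lt ord v u) :
    False := by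
  unfold Lt at h h'
  omega

/-- the position of a vertex in the intended order -/
def lpos (ord : ℕ → ℕ → ℕ) (A C : ℕ) (v : ℕ × ℕ × ℕ) : ℕ := (v.1 * A + v.2.1) * C + off ord v

theorem lex2 {x x' c c' C : ℕ} (hc : c < C) (hc' : c' < C) :
    x * C + c < x' * C + c' ↔ x < x' ∨ (x = x' ∧ c < c') := by
  rcases lt_trichotomy x x' with h | h | h
  · have : (x + 1) * C ≤ x' * C := Nat.mul_le_mul_right C h
    rw [Nat.add_mul] at this
    constructor
    · intro _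
      exact Or.inl h
    · intro _
      omega
  · subst h
    constructor
    · intro h
      exact Or.inr ⟨rfl, by omega⟩
    · rintro (h | ⟨_, h⟩)
      · omega
      · omega
  · have : (x' + 1) * C ≤ x * C := Nat.mul_le_mul_right C h
    rw [Nat.add_mul] at this
    constructor
    · intro _
      omega
    · rintro (h | ⟨_, h⟩) <;> omega

theorem lpos_lt {ord : ℕ → ℕ → ℕ} {A C : ℕ} {u v : ℕ × ℕ × ℕ} (hu : u.2.1 < A) (hv : v.2.1 < A)
    (hu' : off ord u < C) (hv' : off ord v < C) :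
    lpos ord A C u < lpos ord A C v ↔ Lt ord u v := by
  unfold lpos Lt
  rw [lex2 hu' hv', lex2 hu hv]
  constructor
  · rintro ((h | h) | ⟨h, h'⟩)
    · omega
    · omega
    · have : u.1 = v.1 ∧ u.2.1 = v.2.1 := by
        rcases lt_trichotomy u.1 v.1 with h1 | h1 | h1
        · have := (lex2 hu hv).2 (Or.inl h1)
          omega
        · rw [h1] at h
          omega
        · have := (lex2 hv hu).2 (Or.inl h1)
          omega
      omega
  · rintro (h | ⟨h, h' | ⟨h', h''⟩⟩)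
    · omega
    · omega
    · rw [h, h']
      omega

section

variable {P M D nb T : ℕ} {tr : ℕ → ℕ → Prop} {ord : ℕ → ℕ → ℕ}

/-- an edge with its left end first -/
def OE (P M D nb T : ℕ) (tr : ℕ → ℕ → Prop) (e : (ℕ × ℕ × ℕ) × (ℕ × ℕ × ℕ)) : Prop :=
  GV P M nb T e.1 ∧ GV P M nb T e.2 ∧ gadj P M D tr e.1 e.2

/-- the edges which cross the edge `(x, y)` and have their left ends to the left of `x` -/
structure RS (P M D nb T : ℕ) (tr : ℕ → ℕ → Prop) (ord : ℕ → ℕ → ℕ)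
    (R : Finset ((ℕ × ℕ × ℕ) × (ℕ × ℕ × ℕ))) (x y : ℕ × ℕ × ℕ) : Prop where
  edge : ∀ e ∈ R, OE P M D nb T tr e
  lx : ∀ e ∈ R, Lt ord e.1 x
  xr : ∀ e ∈ R, Lt ord x e.2
  ry : ∀ e ∈ R, Lt ord e.2 y
  cr : ∀ e ∈ R, ∀ f ∈ R, e ≠ f → (Lt ord e.1 f.1 ∧ Lt ord e.2 f.2) ∨
    (Lt ord f.1 e.1 ∧ Lt ord f.2 e.2)

theorem RS.left_inj {R : Finset ((ℕ × ℕ × ℕ) × (ℕ × ℕ × ℕ))} {x y : ℕ × ℕ × ℕ}
    (h : RS P M D nb T tr ord R x y) {e f} (he : e ∈ R) (hf : f ∈ R) (hef : e.1 = f.1) :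
    e = f := by
  by_contra hne
  rcases h.cr e he f hf hne with h1 | h1
  · rw [hef] at h1
    exact h1.1.irrefl
  · rw [hef] at h1
    exact h1.1.irrefl

theorem RS.right_inj {R : Finset ((ℕ × ℕ × ℕ) × (ℕ × ℕ × ℕ))} {x y : ℕ × ℕ × ℕ}
    (h : RS P M D nb T tr ord R x y) {e f} (he : e ∈ R) (hf : f ∈ R) (hef : e.2 = f.2) :
    e = f := by
  by_contra hne
  rcases h.cr e he f hf hne with h1 | h1
  · rw [hef] at h1
    exact h1.2.irrefl
  · rw [hef] at h1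
    exact h1.2.irrefl

theorem card_le_label {β : Type*} {R : Finset β} {n : ℕ} (lab : β → ℕ) (h1 : ∀ e ∈ R, lab e < n)
    (h2 : ∀ e ∈ R, ∀ f ∈ R, lab e = lab f → e = f) : R.card ≤ n := by
  have := Finset.card_le_card_of_injOn (s := R) (t := Finset.range n) lab
    (fun e he => by
      rw [Finset.mem_coe, Finset.mem_range]
      exact h1 e he)
    (fun e he f hf hef => h2 e he f hf hef)
  rwa [Finset.card_range] at this

/-- edges which end at the bus -/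
theorem bus_end {h1 s1 o1 h2 s2 o2 : ℕ} (he : OE P M D nb T tr ((h1, s1, o1), (h2, s2, o2)))
    (hs : s2 % 2 = 1) : h1 = h2 ∧ 1 ≤ h1 ∧ o2 < nb ∧
      ((s1 + 2 = s2 ∧ 3 ≤ s1 ∧ o1 = o2) ∨ (s1 = 0 ∧ o1 = P - 1 ∧ s2 = 3)) := by
  obtain ⟨g1, g2, g3⟩ := he
  unfold GV HV FV BV at g1 g2
  unfold gadj loc at g3
  dsimp only at g1 g2 g3
  rcases g3 with g3 | ⟨g3, g4, g5⟩
  · omega
  · rcases g5 with g5 | g5 | g5 | g5 | g5 | g5
    · omega
    · omega
    · omega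
    · omega
    · omega
    · have := g5.2.1
      have := g5.1
      omega

theorem no_par (hrev : ∀ i e e', e < nb → e' < nb → ord i e < ord i e' →
      ord (i + 1) e' < ord (i + 1) e)
    {h1 s1 o1 h2 s2 o2 h3 s3 o3 h4 o4 : ℕ} (he : OE P M D nb T tr ((h1, s1, o1), (h2, s2, o2)))
    (hf : OE P M D nb T tr ((h3, s3, o3), (h4, s2, o4))) (hs : s2 % 2 = 1)
    (hl : Lt ord (h1, s1, o1) (h3, s3, o3)) (hr : Lt ord (h2, s2, o2) (h4, s2, o4))
    (hh : h2 = h4) : False := by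
  obtain ⟨a1, a2, a3, a4⟩ := bus_end he hs
  obtain ⟨b1, b2, b3, b4⟩ := bus_end hf hs
  unfold Lt at hl hr
  dsimp only at hl hr
  rcases a4 with ⟨a4, a5, a6⟩ | ⟨a4, a5, a6⟩
  · rcases b4 with ⟨b4, b5, b6⟩ | ⟨b4, b5, b6⟩
    · subst a6 b6
      have e1 : s3 = s1 := by omega
      subst e1
      rw [off_odd (by omega), off_odd (by omega)] at hl hr
      have e2 := hrev (s3 / 2) o1 o3 a3 b3 (by omega)
      rw [show s3 / 2 + 1 = s2 / 2 by omega] at e2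
      omega
    · omega
  · rcases b4 with ⟨b4, b5, b6⟩ | ⟨b4, b5, b6⟩
    · omega
    · subst a4 b4 a5 b5
      rw [off_even (by omega), off_even (by omega)] at hl
      omega

theorem RS.bus_unique (hrev : ∀ i e e', e < nb → e' < nb → ord i e < ord i e' →
      ord (i + 1) e' < ord (i + 1) e) {R : Finset ((ℕ × ℕ × ℕ) × (ℕ × ℕ × ℕ))} {x y : ℕ × ℕ × ℕ}
    (h : RS P M D nb T tr ord R x y) {e f} (he : e ∈ R) (hf : f ∈ R) (hh : e.2.1 = f.2.1)
    (hs : e.2.2.1 = f.2.2.1) (hodd : e.2.2.1 % 2 = 1) : e = f := by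
  by_contra hne
  have he' := h.edge e he
  have hf' := h.edge f hf
  have hc := h.cr e he f hf hne
  obtain ⟨⟨h1, s1, o1⟩, ⟨h2, s2, o2⟩⟩ := e
  obtain ⟨⟨h3, s3, o3⟩, ⟨h4, s4, o4⟩⟩ := f
  dsimp only at hh hs hodd hc
  subst hs
  rcases hc with hc | hc
  · exact no_par hrev he' hf' hodd hc.1 hc.2 hh
  · exact no_par hrev hf' he' hodd hc.1 hc.2 hh.symm

end

end Pool.Agent.H619R2.QP
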