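import Pool.Agent.H619R2.QP.Global
import Pool.Agent.H619R2.QP.Inst

/-!
# Some copy of the gadget lies in one gap of the hub
-/

namespace Pool.Agent.H619R2.QP

section

variable {P M D nb T : ℕ} {tr : ℕ → ℕ → Prop} {pos : ℕ × ℕ × ℕ → ℕ}

/-- a block vertex with few block vertices of its gap on one side -/
def Bad (P M T : ℕ) (pos : ℕ × ℕ × ℕ → ℕ) (v : ℕ × ℕ × ℕ) : Prop :=
  (Yf P M T pos v).card < P + 1 ∨ (Zf P M T pos v).card < P + 1

theorem bad_card [DecidablePred (Bad P M T pos)]
    (hinj : ∀ u v, GV P M nb T u → GV P M nb T v → pos u = pos v → u = v) :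
    ((Ff P M T).filter (Bad P M T pos)).card ≤ (P + 2) * (2 * (P + 1)) := by
  classical
  have hY : ∀ u ∈ Ff P M T, ∀ v ∈ Ff P M T, Gp P pos u = Gp P pos v → pos u < pos v →
      (Yf P M T pos u).card < (Yf P M T pos v).card := by
    intro u hu v hv hG hlt
    refine Finset.card_lt_card ⟨fun x hx => ?_, fun hsub => ?_⟩
    · rw [mem_Yf] at hx ⊢
      exact ⟨hx.1, hx.2.1.trans hG, hx.2.2.trans hlt⟩
    · have : u ∈ Yf P M T pos u := hsub (mem_Yf.2 ⟨hu, hG, hlt⟩)
      exact absurd (mem_Yf.1 this).2.2 (lt_irrefl _)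
  have hZ : ∀ u ∈ Ff P M T, ∀ v ∈ Ff P M T, Gp P pos u = Gp P pos v → pos u < pos v →
      (Zf P M T pos v).card < (Zf P M T pos u).card := by
    intro u hu v hv hG hlt
    refine Finset.card_lt_card ⟨fun x hx => ?_, fun hsub => ?_⟩
    · rw [mem_Zf] at hx ⊢
      exact ⟨hx.1, hx.2.1.trans hG.symm, hlt.trans hx.2.2⟩
    · have : v ∈ Zf P M T pos v := hsub (mem_Zf.2 ⟨hv, hG.symm, hlt⟩)
      exact absurd (mem_Zf.1 this).2.2 (lt_irrefl _)
  have : ((Ff P M T).filter (Bad P M T pos)).card ≤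
      (Finset.range (P + 2) ×ˢ Finset.range (2 * (P + 1))).card := by
    refine Finset.card_le_card_of_injOn (fun v => ((Gp P pos v).card,
      if (Yf P M T pos v).card < P + 1 then (Yf P M T pos v).card
      else P + 1 + (Zf P M T pos v).card)) ?_ ?_
    · intro v hv
      rw [Finset.mem_coe, Finset.mem_filter] at hv
      rw [Finset.mem_coe, Finset.mem_product, Finset.mem_range, Finset.mem_range]
      have h1 := Gp_card_le (P := P) (pos := pos) v
      have h2 := hv.2
      unfold Bad at h2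
      dsimp only
      split_ifs <;> omega
    · intro u hu v hv huv
      rw [Finset.mem_coe, Finset.mem_filter] at hu hv
      dsimp only at huv
      rw [Prod.mk.injEq] at huv
      obtain ⟨h1, h2⟩ := huv
      have hG := Gp_eq h1
      have bu := hu.2
      have bv := hv.2
      unfold Bad at bu bv
      rcases lt_trichotomy (pos u) (pos v) with h | h | h
      · have e1 := hY u hu.1 v hv.1 hG h
        have e2 := hZ u hu.1 v hv.1 hG h
        split_ifs at h2 <;> omega
      · exact hinj u v (GV_F hu.1) (GV_F hv.1) h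
      · have e1 := hY v hv.1 u hu.1 hG.symm h
        have e2 := hZ v hv.1 u hu.1 hG.symm h
        split_ifs at h2 <;> omega
  rwa [Finset.card_product, Finset.card_range, Finset.card_range] at this

/-- there is a copy all of whose block vertices are deep -/
theorem exists_deep (hinj : ∀ u v, GV P M nb T u → GV P M nb T v → pos u = pos v → u = v)
    (hT : (P + 2) * (2 * (P + 1)) < T) :
    ∃ h, 1 ≤ h ∧ h ≤ T ∧ ∀ u, FV P M u → ¬ Bad P M T pos (h, u) := by
  classical
  by_contra hcon
  push Not at hcon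
  have h1 : ∀ h ∈ Finset.Icc 1 T, ∃ u, FV P M u ∧ Bad P M T pos (h, u) := by
    intro h hh
    rw [Finset.mem_Icc] at hh
    exact hcon h hh.1 hh.2
  choose! u hu hu' using h1
  have h2 : (Finset.Icc 1 T).card ≤ ((Ff P M T).filter (Bad P M T pos)).card := by
    refine Finset.card_le_card_of_injOn (fun h => (h, u h)) ?_ ?_
    · intro h hh
      rw [Finset.mem_coe] at hh
      rw [Finset.mem_coe, Finset.mem_filter, mem_Ff]
      have hh' := Finset.mem_Icc.1 hh
      exact ⟨⟨hh'.1, hh'.2, hu h hh⟩, hu' h hh⟩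
    · intro a _ b _ hab
      exact (Prod.mk.inj hab).1
  have h3 := bad_card hinj
  rw [Nat.card_Icc] at h2
  omega

/-- all vertices of a deep copy are in the same gap -/
theorem copy_gap (hP : 9 ≤ P) (hinj : ∀ u v, GV P M nb T u → GV P M nb T v → pos u = pos v → u = v)
    (hnt : NT (P + 2) pos (GA P M D nb T tr)) {h : ℕ} (h1 : 1 ≤ h) (hT : h ≤ T)
    (hdeep : ∀ u, FV P M u → ¬ Bad P M T pos (h, u)) :
    ∀ u, HV P M nb u → Gp P pos (h, u) = Gp P pos (h, (0, 0)) := by
  have key : ∀ u v, HV P M nb u → FV P M v → (loc P M D tr u v ∨ loc P M D tr v u) →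
      Gp P pos (h, u) = Gp P pos (h, v) := by
    intro u v hu hv huv
    have hb := hdeep v hv
    unfold Bad at hb
    push Not at hb
    refine same_gap (tr := tr) (D := D) (nb := nb) hinj hnt (mem_Ff.2 ⟨h1, hT, hv⟩)
      ⟨Or.inr ⟨h1, hT, hu⟩, Or.inr ⟨h1, hT, Or.inl hv⟩, ?_⟩ ?_ hb.1 hb.2
    · rcases huv with huv | huv
      · exact Or.inl (Or.inr ⟨h1, rfl, huv⟩)
      · exact Or.inr (Or.inr ⟨h1, rfl, huv⟩)
    · intro hw
      have := (mem_Wf.1 hw).1
      dsimp only at this
      omega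
  have hblock : ∀ j, j ≤ M + 3 → Gp P pos (h, (2 * j, 0)) = Gp P pos (h, (0, 0)) := by
    intro j
    induction j with
    | zero => intro _; rfl
    | succ j ih =>
      intro hj
      rw [← ih (by omega)]
      refine key _ _ (Or.inl (FVmk (by omega) (by omega))) (FVmk (by omega) (by omega)) (Or.inr ?_)
      exact Or.inr (Or.inl ⟨by dsimp only; omega, by dsimp only; omega, Or.inl (by simp)⟩)
  rintro ⟨s, o⟩ hu
  rcases hu with hu | hu
  · obtain ⟨hs, hs', ho⟩ := hu
    dsimp only at hs hs' ho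
    obtain ⟨j, rfl⟩ : ∃ j, s = 2 * j := ⟨s / 2, by omega⟩
    by_cases ho0 : o = 0
    · subst ho0
      exact hblock j (by omega)
    · rw [← hblock j (by omega)]
      refine key _ _ (Or.inl (FVmk (by omega) ho)) (FVmk (by omega) (by omega)) (Or.inr ?_)
      exact Or.inl ⟨by dsimp only; omega, rfl, by dsimp only; omega⟩
  · obtain ⟨hs, hs', hs'', ho⟩ := hu
    dsimp only at hs hs' hs'' ho
    obtain ⟨i, rfl⟩ : ∃ i, s = 2 * i + 1 := ⟨s / 2, by omega⟩
    rw [← hblock (i + 1) (by omega)]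
    refine key _ _ (Or.inr (BVmk (by omega) (by omega) ho)) (FVmk (by omega) (by omega))
      (Or.inl ?_)
    exact Or.inr (Or.inr (Or.inr (Or.inr (Or.inr ⟨by dsimp only; omega, by dsimp only; omega,
      Or.inl rfl⟩))))

/-- a ladder in the copy which passes over many block vertices extends to a long ladder -/
theorem guard (hinj : ∀ u v, GV P M nb T u → GV P M nb T v → pos u = pos v → u = v)
    (hnt : NT (P + 2) pos (GA P M D nb T tr)) {h : ℕ} (h1 : 1 ≤ h) (hT : h ≤ T)
    (hgap : ∀ u, HV P M nb u → Gp P pos (h, u) = Gp P pos (h, (0, 0)))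
    {l : List ((ℕ × ℕ × ℕ) × (ℕ × ℕ × ℕ))} {A B : Set (ℕ × ℕ × ℕ)}
    (hl : Lad pos (GA P M D nb T tr) l A B) (hA : ∀ a ∈ A, a.1 = h ∧ HV P M nb a.2)
    (hB : ∀ a ∈ B, a.1 = h ∧ HV P M nb a.2) (hAB : ∀ a ∈ A, ∀ b ∈ B, pos a < pos b)
    {S : Finset (ℕ × ℕ × ℕ)} (hS : ∀ s ∈ S, s.1 = h ∧ FV P M s.2)
    (hAS : ∀ a ∈ A, ∀ s ∈ S, pos a < pos s) (hSB : ∀ s ∈ S, ∀ b ∈ B, pos s < pos b)
    (hc : S.card ≤ P + 1) : l.length + S.card < P + 2 := by
  classical
  by_contra hcon
  set g := Gp P pos (h, (0, 0)) with hg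
  have hgW : g ⊆ Wf P := Finset.filter_subset _ _
  have hgc : g.card ≤ P + 1 := Gp_card_le _
  have hV : ∀ a : ℕ × ℕ × ℕ, a.1 = h → HV P M nb a.2 → GV P M nb T a := by
    intro a ha ha'
    exact Or.inr ⟨by omega, by omega, ha'⟩
  have q1 : ∀ w ∈ g, ∀ a : ℕ × ℕ × ℕ, a.1 = h → HV P M nb a.2 → pos w < pos a := by
    rintro w hw ⟨a1, a2⟩ ha ha'
    dsimp only at ha ha'
    subst ha
    rw [← hgap a2 ha'] at hw
    exact (mem_Gp.1 hw).2
  have q2 : ∀ w ∈ Wf P, w ∉ g → ∀ a : ℕ × ℕ × ℕ, a.1 = h → HV P M nb a.2 → pos a < pos w := by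
    rintro w hw hwg ⟨a1, a2⟩ ha ha'
    dsimp only at ha ha'
    subst ha
    rw [← hgap a2 ha', mem_Gp] at hwg
    push Not at hwg
    have h2 := hwg hw
    have h3 : pos w ≠ pos (a1, a2) := by
      intro he
      have := hinj _ _ (GV_W hw) (hV _ rfl ha') he
      rw [this, mem_Wf] at hw
      dsimp only at hw
      omega
    omega
  have hSF : ∀ s ∈ S, s ∈ Ff P M T := fun s hs => by
    rw [mem_Ff]
    obtain ⟨e1, e2⟩ := hS s hs
    exact ⟨by omega, by omega, e2⟩
  have hSH : ∀ s ∈ S, HV P M nb s.2 := fun s hs => Or.inl (hS s hs).2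
  obtain ⟨S1, S2, hS1, hS2, hcS1, hcS2, hSS⟩ := split (pos := pos) (S := S)
    (n1 := S.card - min S.card g.card) (n2 := min S.card g.card)
    (injOn_of hinj (fun x hx => GV_F (hSF x hx))) (by omega)
  obtain ⟨l1, hl1, L1⟩ := Lad.of_sets (pos := pos) (Adj := GA P M D nb T tr)
    (A := g) (B := S2) (n := min S.card g.card) (min_le_right _ _) hcS2.ge
    (fun x hx y hy => adjWF (hgW hx) (hSF y (hS2 hy)))
    (injOn_of hinj (fun x hx => GV_W (hgW hx)))
    (injOn_of hinj (fun x hx => GV_F (hSF x (hS2 hx))))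
  obtain ⟨l3, hl3, L3⟩ := Lad.of_sets (pos := pos) (Adj := GA P M D nb T tr)
    (A := S1) (B := Wf P \ g) (n := S.card - min S.card g.card) hcS1.ge
    (by rw [Finset.card_sdiff_of_subset hgW, card_Wf]; omega)
    (fun x hx y hy => (adjWF (Finset.mem_sdiff.1 hy).1 (hSF x (hS1 hx))).symm)
    (injOn_of hinj (fun x hx => GV_F (hSF x (hS1 hx))))
    (injOn_of hinj (fun x hx => GV_W (Finset.mem_sdiff.1 hx).1))
  have L12 := L1.append hl (fun a ha a' ha' => q1 a ha a' (hA a' ha').1 (hA a' ha').2)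
    (fun b hb b' hb' => hSB b (hS2 hb) b' hb')
  have L := L12.append L3 (by
      intro a ha a' ha'
      rcases ha with ha | ha
      · exact q1 a ha a' (hS a' (hS1 ha')).1 (hSH a' (hS1 ha'))
      · exact hAS a ha a' (hS1 ha')) (by
      intro b hb b' hb'
      obtain ⟨e1, e2⟩ := Finset.mem_sdiff.1 (Finset.mem_coe.1 hb')
      rcases hb with hb | hb
      · exact q2 b' e1 e2 b (hS b (hS2 hb)).1 (hSH b (hS2 hb))
      · exact q2 b' e1 e2 b (hB b hb).1 (hB b hb).2)
  have := hnt.lad L (by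
    intro a ha b hb
    rcases hb with (hb | hb) | hb
    · have hb1 := (hS b (hS2 hb)).1
      have hb2 := hSH b (hS2 hb)
      rcases ha with (ha | ha) | ha
      · exact q1 a ha b hb1 hb2
      · exact hAS a ha b (hS2 hb)
      · exact hSS a ha b hb
    · rcases ha with (ha | ha) | ha
      · exact q1 a ha b (hB b hb).1 (hB b hb).2
      · exact hAB a ha b hb
      · exact hSB a (hS1 ha) b hb
    · obtain ⟨e1, e2⟩ := Finset.mem_sdiff.1 (Finset.mem_coe.1 hb)
      rcases ha with (ha | ha) | ha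
      · have h00 : HV P M nb (0, 0) ∨ ∃ x, HV P M nb x := by
          by_contra hno
          push Not at hno
          have hSe : S = ∅ := by
            rw [Finset.eq_empty_iff_forall_notMem]
            exact fun s hs => hno.2 s.2 (hSH s hs)
          have hle : l = [] := by
            rw [List.eq_nil_iff_forall_not_mem]
            exact fun e he => hno.2 _ (hA _ (hl.mem e he).1).2
          rw [hSe, hle] at hcon
          simp at hcon
        obtain ⟨x, hx⟩ : ∃ x, HV P M nb x := by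
          rcases h00 with h | h
          · exact ⟨_, h⟩
          · exact h
        exact (q1 a ha (h, x) rfl hx).trans (q2 b e1 e2 (h, x) rfl hx)
      · exact q2 b e1 e2 a (hA a ha).1 (hA a ha).2
      · exact q2 b e1 e2 a (hS a (hS1 ha)).1 (hSH a (hS1 ha)))
  simp only [List.length_append, hl1, hl3] at this
  omega

theorem adjH {h : ℕ} (h1 : 1 ≤ h) (hT : h ≤ T) {u v : ℕ × ℕ} (huv : LA P M D nb tr u v) :
    GA P M D nb T tr (h, u) (h, v) := by
  refine ⟨Or.inr ⟨h1, hT, huv.1⟩, Or.inr ⟨h1, hT, huv.2.1⟩, ?_⟩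
  rcases huv.2.2 with e | e
  · exact Or.inl (Or.inr ⟨h1, rfl, e⟩)
  · exact Or.inr (Or.inr ⟨h1, rfl, e⟩)

theorem copy_loc (hP : 9 ≤ P) (hinj : ∀ u v, GV P M nb T u → GV P M nb T v → pos u = pos v → u = v)
    (hnt : NT (P + 2) pos (GA P M D nb T tr)) {h : ℕ} (h1 : 1 ≤ h) (hT : h ≤ T)
    (hgap : ∀ u, HV P M nb u → Gp P pos (h, u) = Gp P pos (h, (0, 0))) :
    Loc P M D nb tr (fun u => pos (h, u)) := by
  classical
  have inj1 : Function.Injective (fun u : ℕ × ℕ => (h, u)) := fun a b hab => (Prod.mk.inj hab).2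
  refine ⟨?_, ?_, ?_, ?_, ?_⟩
  · intro u v hu hv huv
    exact inj1 (hinj _ _ (Or.inr ⟨h1, hT, hu⟩) (Or.inr ⟨h1, hT, hv⟩) huv)
  · intro u v huv S hS
    by_contra hc
    push Not at hc
    obtain ⟨S', hS', hcS'⟩ := Finset.exists_subset_card_eq (show P + 1 ≤ S.card by omega)
    have huv' : S'.Nonempty := by
      rw [← Finset.card_pos]
      omega
    obtain ⟨x0, hx0⟩ := huv'
    have hx0' := hS x0 (hS' hx0)
    have := guard hinj hnt h1 hT hgap (Lad.single (pos := pos) (adjH h1 hT huv))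
      (by rintro a rfl; exact ⟨rfl, huv.1⟩) (by rintro a rfl; exact ⟨rfl, huv.2.1⟩)
      (by rintro a rfl b rfl; omega) (S := S'.image (fun u => (h, u)))
      (by
        intro s hs
        rw [Finset.mem_image] at hs
        obtain ⟨t, ht, rfl⟩ := hs
        exact ⟨rfl, (hS t (hS' ht)).1⟩)
      (by
        rintro a rfl s hs
        rw [Finset.mem_image] at hs
        obtain ⟨t, ht, rfl⟩ := hs
        exact (hS t (hS' ht)).2.1)
      (by
        rintro s hs a rfl
        rw [Finset.mem_image] at hs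
        obtain ⟨t, ht, rfl⟩ := hs
        exact (hS t (hS' ht)).2.2)
      (by rw [Finset.card_image_of_injective _ inj1, hcS'])
    rw [Finset.card_image_of_injective _ inj1, hcS', List.length_singleton] at this
    omega
  · intro u v u' v' huv huv' e1 e2 e3 S hS
    by_contra hc
    push Not at hc
    obtain ⟨S', hS', hcS'⟩ := Finset.exists_subset_card_eq hc
    have L := (Lad.single (pos := pos) (adjH h1 hT huv)).append
      (Lad.single (pos := pos) (adjH h1 hT huv')) (by rintro a rfl b rfl; exact e1)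
      (by rintro a rfl b rfl; exact e3)
    have := guard hinj hnt h1 hT hgap L
      (by rintro a (rfl | rfl); exacts [⟨rfl, huv.1⟩, ⟨rfl, huv'.1⟩])
      (by rintro a (rfl | rfl); exacts [⟨rfl, huv.2.1⟩, ⟨rfl, huv'.2.1⟩])
      (by
        rintro a (rfl | rfl) b (rfl | rfl) <;> omega) (S := S'.image (fun u => (h, u)))
      (by
        intro s hs
        rw [Finset.mem_image] at hs
        obtain ⟨t, ht, rfl⟩ := hs
        exact ⟨rfl, (hS t (hS' ht)).1⟩)
      (by
        rintro a (rfl | rfl) s hs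
        all_goals
          rw [Finset.mem_image] at hs
          obtain ⟨t, ht, rfl⟩ := hs
          have := (hS t (hS' ht)).2.1
          omega)
      (by
        rintro s hs a (rfl | rfl)
        all_goals
          rw [Finset.mem_image] at hs
          obtain ⟨t, ht, rfl⟩ := hs
          have := (hS t (hS' ht)).2.2
          omega)
      (by rw [Finset.card_image_of_injective _ inj1, hcS']; omega)
    rw [Finset.card_image_of_injective _ inj1, hcS'] at this
    simp only [List.length_append, List.length_singleton] at this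
    omega
  · intro l hl hE hp
    refine hnt (l.map (fun e => ((h, e.1), (h, e.2)))) (by simpa using hl) ?_ ?_
    · intro e he
      rw [List.mem_map] at he
      obtain ⟨f, hf, rfl⟩ := he
      exact adjH h1 hT (hE f hf)
    · rw [List.pairwise_map]
      exact hp
  · refine ⟨(Finset.range (2 * M + 7) ×ˢ Finset.range (P + nb)).sup (fun u => pos (h, u)) + 1,
      fun u hu => ?_⟩
    have : u ∈ Finset.range (2 * M + 7) ×ˢ Finset.range (P + nb) := by
      rw [Finset.mem_product, Finset.mem_range, Finset.mem_range]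
      rcases hu with hu | hu
      · exact ⟨by have := hu.2.1; omega, by have := hu.2.2; omega⟩
      · exact ⟨by have := hu.2.2.1; omega, by have := hu.2.2.2; omega⟩
    exact Nat.lt_succ_of_le (Finset.le_sup (f := fun u => pos (h, u)) this)

/-- **Soundness.** -/
theorem sound {nv : ℕ} {I : MI} (hI : Good nv I) (hP : 9 ≤ P)
    (hT : (P + 2) * (2 * (P + 1)) < T)
    (hinj : ∀ u v, GV P (10 * I.length) (2 * P - 7 + 5 * nv) T u →
      GV P (10 * I.length) (2 * P - 7 + 5 * nv) T v → pos u = pos v → u = v)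
    (hnt : NT (P + 2) pos (GA P (10 * I.length) (2 * P - 7) (2 * P - 7 + 5 * nv) T
      (trI (2 * P - 7) I))) : ∃ τ, Sat τ I := by
  obtain ⟨h, h1, h2, hd⟩ := exists_deep hinj hT
  exact sound_local hI hP (copy_loc hP hinj hnt h1 h2 (copy_gap hP hinj hnt h1 h2 hd))

end

end Pool.Agent.H619R2.QP
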