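import Mathlib

/-!
# A chain of overlapping intervals is laid out in its natural order

`q` places the points `0, 1, 2, …`; every interval `[T l, T l + P + 2)` is convex for this placement.
Then, up to a reflection, `x < T (l + 1) ≤ y` implies `q x < q y`.
-/

namespace Pool.Agent.H619R2.QP

/-- the points of the `l`-th clique lie convexly among all points -/
def Conv (q T : ℕ → ℕ) (P N l : ℕ) : Prop :=
  ∀ s < N, ∀ x y, T l ≤ x → x < T l + P + 2 → T l ≤ y → y < T l + P + 2 → q x < q s → q s < q y →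
    T l ≤ s ∧ s < T l + P + 2

theorem conv_of_count {q T : ℕ → ℕ} {P N l : ℕ}
    (h : ∀ x y, T l ≤ x → x < T l + P + 2 → T l ≤ y → y < T l + P + 2 → ∀ S : Finset ℕ,
      (∀ s ∈ S, s < N ∧ q x < q s ∧ q s < q y) → S.card ≤ P)
    (hN : T l + P + 2 ≤ N) (hinj : ∀ x < N, ∀ y < N, q x = q y → x = y) : Conv q T P N l := by
  classical
  intro s hs x y hx1 hx2 hy1 hy2 hxs hsy
  by_contra hcon
  set K := Finset.Ico (T l) (T l + P + 2) with hK
  have hKne : K.Nonempty := ⟨x, by rw [hK, Finset.mem_Ico]; exact ⟨hx1, hx2⟩⟩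
  obtain ⟨x0, hx0, hx0'⟩ := K.exists_min_image q hKne
  obtain ⟨y0, hy0, hy0'⟩ := K.exists_max_image q hKne
  have hxK : x ∈ K := by rw [hK, Finset.mem_Ico]; exact ⟨hx1, hx2⟩
  have hyK : y ∈ K := by rw [hK, Finset.mem_Ico]; exact ⟨hy1, hy2⟩
  have h1 := hx0' x hxK
  have h2 := hy0' y hyK
  have hsK : s ∉ K := by
    rw [hK, Finset.mem_Ico]
    exact hcon
  have hx0n : x0 ≠ y0 := by
    rintro rfl
    omega
  rw [hK, Finset.mem_Ico] at hx0 hy0
  have := h x0 y0 hx0.1 hx0.2 hy0.1 hy0.2 (insert s ((K.erase x0).erase y0)) (by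
    intro t ht
    rw [Finset.mem_insert, Finset.mem_erase, Finset.mem_erase] at ht
    rcases ht with rfl | ⟨ht1, ht2, ht3⟩
    · exact ⟨hs, by omega, by omega⟩
    · have h3 := hx0' t ht3
      have h4 := hy0' t ht3
      rw [hK, Finset.mem_Ico] at ht3
      have h5 : q x0 ≠ q t := fun h => ht2 (hinj _ (by omega) _ (by omega) h).symm
      have h6 : q t ≠ q y0 := fun h => ht1 (hinj _ (by omega) _ (by omega) h)
      exact ⟨by omega, by omega, by omega⟩)
  rw [Finset.card_insert_of_notMem, Finset.card_erase_of_mem, Finset.card_erase_of_mem, hK,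
    Nat.card_Ico] at this
  · omega
  · rw [hK, Finset.mem_Ico]; exact hx0
  · rw [Finset.mem_erase, hK, Finset.mem_Ico]; exact ⟨Ne.symm hx0n, hy0⟩
  · rw [Finset.mem_erase, Finset.mem_erase]
    exact fun h => hsK h.2.2

section

variable {q T : ℕ → ℕ} {P N n : ℕ}

/-- the `l`-th interval is to the left of the next clique -/
def Dir (q T : ℕ → ℕ) (P l : ℕ) : Prop :=
  ∀ x y, T l ≤ x → x < T (l + 1) → T (l + 1) ≤ y → y < T (l + 1) + P + 2 → q x < q y

/-- the `l`-th interval is to the right of the next clique -/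
def Dir' (q T : ℕ → ℕ) (P l : ℕ) : Prop :=
  ∀ x y, T l ≤ x → x < T (l + 1) → T (l + 1) ≤ y → y < T (l + 1) + P + 2 → q y < q x

theorem dir_or (hT : ∀ l, T (l + 1 + 1) = T l + P) (hT' : ∀ l, T l + 3 ≤ T (l + 1))
    (hN : ∀ l ≤ n, T l + P + 2 ≤ N)
    (hinj : ∀ x < N, ∀ y < N, q x = q y → x = y) (hC : ∀ l ≤ n, Conv q T P N l)
    {l : ℕ} (hl : l + 1 ≤ n) : Dir q T P l ∨ Dir' q T P l := by
  have a1 := hT l
  have a2 := hT' l
  have a3 := hT' (l + 1)
  have a4 := hN l (by omega)
  have a5 := hN (l + 1) hl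
  have c0 := hC l (by omega)
  have c1 := hC (l + 1) hl
  -- a point of the l-th interval is on one side
  have side : ∀ x, T l ≤ x → x < T (l + 1) →
      (∀ y, T (l + 1) ≤ y → y < T (l + 1) + P + 2 → q x < q y) ∨
      (∀ y, T (l + 1) ≤ y → y < T (l + 1) + P + 2 → q y < q x) := by
    intro x hx1 hx2
    by_contra hcon
    push Not at hcon
    obtain ⟨⟨y1, hy1, hy1', hy1''⟩, ⟨y2, hy2, hy2', hy2''⟩⟩ := hcon
    have e1 : q y1 ≠ q x := fun h => by
      have := hinj _ (by omega) _ (by omega) h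
      omega
    have e2 : q y2 ≠ q x := fun h => by
      have := hinj _ (by omega) _ (by omega) h
      omega
    have := c1 x (by omega) y1 y2 hy1 hy1' hy2 hy2' (by omega) (by omega)
    omega
  by_contra hcon
  unfold Dir Dir' at hcon
  push Not at hcon
  obtain ⟨⟨x1, y1, hx1, hx1', hy1, hy1', hxy1⟩, ⟨x2, y2, hx2, hx2', hy2, hy2', hxy2⟩⟩ := hcon
  have s1 : ∀ y, T (l + 1) ≤ y → y < T (l + 1) + P + 2 → q y < q x1 := by
    rcases side x1 hx1 hx1' with h | h
    · have := h y1 hy1 hy1'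
      omega
    · exact h
  have s2 : ∀ y, T (l + 1) ≤ y → y < T (l + 1) + P + 2 → q x2 < q y := by
    rcases side x2 hx2 hx2' with h | h
    · exact h
    · have := h y2 hy2 hy2'
      omega
  have e1 := s1 (T l + P + 2) (by omega) (by omega)
  have e2 := s2 (T l + P + 2) (by omega) (by omega)
  have := c0 (T l + P + 2) (by omega) x2 x1 hx2 (by omega) hx1 (by omega) e2 e1
  omega

theorem dir_step (hT : ∀ l, T (l + 1 + 1) = T l + P) (hT' : ∀ l, T l + 3 ≤ T (l + 1))
    (hN : ∀ l ≤ n, T l + P + 2 ≤ N)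
    (hinj : ∀ x < N, ∀ y < N, q x = q y → x = y) (hC : ∀ l ≤ n, Conv q T P N l)
    {l : ℕ} (hl : l + 2 ≤ n) (hD : Dir q T P l) : Dir q T P (l + 1) := by
  rcases dir_or hT hT' hN hinj hC (show l + 1 + 1 ≤ n by omega) with h | h
  · exact h
  · exfalso
    have a1 := hT l
    have a2 := hT' l
    have a3 := hT' (l + 1)
    have a4 := hN (l + 1) (by omega)
    have e1 := hD (T l) (T l + P + 2) (by omega) (by omega) (by omega) (by omega)
    have e2 := h (T (l + 1)) (T l + P + 2) (by omega) (by omega)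
      (by omega) (by omega)
    have := hC l (by omega) (T l + P + 2) (by omega) (T l) (T (l + 1)) (by omega) (by omega)
      (by omega) (by omega) e1 e2
    omega

theorem dir_all (hT : ∀ l, T (l + 1 + 1) = T l + P) (hT' : ∀ l, T l + 3 ≤ T (l + 1))
    (hN : ∀ l ≤ n, T l + P + 2 ≤ N)
    (hinj : ∀ x < N, ∀ y < N, q x = q y → x = y) (hC : ∀ l ≤ n, Conv q T P N l)
    (hD : Dir q T P 0) : ∀ l, l + 1 ≤ n → Dir q T P l := by
  intro l
  induction l with
  | zero => intro _; exact hD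
  | succ m ih =>
    intro hm
    exact dir_step hT hT' hN hinj hC (by omega) (ih (by omega))

theorem chain (hT' : ∀ l, T l + 3 ≤ T (l + 1))
    (hD : ∀ l, l + 1 ≤ n → Dir q T P l) {i x : ℕ} (hx : T i ≤ x) (hx' : x < T (i + 1)) :
    ∀ j, i < j → j ≤ n → ∀ y, T j ≤ y → y < T j + P + 2 → q x < q y := by
  intro j
  induction j with
  | zero => intro h; omega
  | succ m ih =>
    intro him hm y hy hy'
    rcases Nat.lt_or_ge i m with h | h
    · have a := hT' m
      have h1 := ih h (by omega) (T m) le_rfl (by omega)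
      exact h1.trans (hD m hm (T m) y le_rfl (by omega) hy hy')
    · obtain rfl : i = m := by omega
      exact hD i hm x y hx hx' hy hy'

end

end Pool.Agent.H619R2.QP
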