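import Pool.Agent.H619R2.QP.Graph

/-!
# The reduction is computable in polynomial time
-/

namespace Pool.Agent.H619R2.QP

open Pool.Agent.NPC

@[fun_prop]
theorem Poly_lv {α : Type} [TEnc α] {l : α → Lit ℕ} (hl : NPC.Poly l) :
    NPC.Poly (fun a => lv (l a)) := by
  unfold lv
  fun_prop

@[fun_prop]
theorem Poly_gdt {α : Type} [TEnc α] {v : α → ℕ} (hv : NPC.Poly v) :
    NPC.Poly (fun a => gdt (v a)) := by
  unfold gdt
  fun_prop

@[fun_prop]
theorem Poly_cls {α : Type} [TEnc α] {c : α → Lit ℕ × Lit ℕ × Lit ℕ} (hc : NPC.Poly c) :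
    NPC.Poly (fun a => cls (c a)) := by
  unfold cls
  fun_prop

@[fun_prop]
theorem Poly_mono : NPC.Poly mono := by
  unfold mono
  exact NPC.Poly.flatMap (F := fun (_ : F3) c => cls c) NPC.Poly.id (by fun_prop)

theorem UPoly_gg : UPoly gg :=
  UPoly.add (UPoly.mul (UPoly.const 3) (UPoly.length NPC.Poly.id)) (UPoly.const 1)

theorem UPoly_Mf : UPoly Mf := UPoly.mul (UPoly.const 10) (UPoly.length Poly_mono)

theorem UPoly_nbf (P : ℕ) : UPoly (nbf P) :=
  UPoly.add (UPoly.const _) (UPoly.mul (UPoly.const 5) (UPoly.mul (UPoly.const 8) UPoly_gg))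

@[fun_prop]
theorem Poly_Mf : NPC.Poly Mf := UPoly_Mf.toPoly

@[fun_prop]
theorem Poly_nbf (P : ℕ) : NPC.Poly (nbf P) := (UPoly_nbf P).toPoly

theorem poly_prod {α β γ : Type} [TEnc α] [TEnc β] [TEnc γ] {l : α → List β} {l' : α → List γ}
    (hl : NPC.Poly l) (hl' : NPC.Poly l') : NPC.Poly (fun a => (l a).product (l' a)) := by
  unfold List.product
  refine NPC.Poly.flatMap (F := fun a b => (l' a).map (Prod.mk b)) hl ?_
  refine NPC.Poly.map (F := fun (p : α × β) c => (p.2, c)) (hl'.comp (NPC.Poly.fst NPC.Poly.id)) ?_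
  fun_prop

theorem poly_box (P T : ℕ) : NPC.Poly (box P T) := by
  have h1 : NPC.Poly (fun _ : F3 => List.range (T + 1)) := NPC.Poly.const _
  have h2 : NPC.Poly (fun φ : F3 => List.range (2 * Mf φ + 7)) :=
    UPoly.range (UPoly.add (UPoly.mul (UPoly.const 2) UPoly_Mf) (UPoly.const 7))
  have h3 : NPC.Poly (fun φ : F3 => List.range (nbf P φ + P + 1)) :=
    UPoly.range (UPoly.add (UPoly.add (UPoly_nbf P) (UPoly.const P)) (UPoly.const 1))
  exact poly_prod h1 (poly_prod h2 h3)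

theorem poly_gvB (P T : ℕ) : NPC.Poly (fun p : F3 × (ℕ × ℕ × ℕ) => gvB P T p.1 p.2) := by
  unfold gvB
  fun_prop

theorem poly_VL (P T : ℕ) : NPC.Poly (VL P T) := by
  unfold VL
  exact NPC.Poly.filter (p := gvB P T) (poly_box P T) (poly_gvB P T)

theorem poly_prI {α : Type} [TEnc α] {I : α → MI} {i : α → ℕ} (hI : NPC.Poly I)
    (hi : NPC.Poly i) : NPC.Poly (fun a => prI (I a) (i a)) := by
  unfold prI
  fun_prop

attribute [fun_prop] poly_prI

@[fun_prop]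
theorem poly_trB {α : Type} [TEnc α] (D : ℕ) {I : α → MI} {i x : α → ℕ} (hI : NPC.Poly I)
    (hi : NPC.Poly i) (hx : NPC.Poly x) : NPC.Poly (fun a => trB D (I a) (i a) (x a)) := by
  unfold trB
  fun_prop

theorem poly_gaB (P : ℕ) : NPC.Poly (fun p : F3 × ((ℕ × ℕ × ℕ) × (ℕ × ℕ × ℕ)) =>
    gaB P p.1 p.2.1 p.2.2) := by
  unfold gaB
  fun_prop

theorem poly_EL (P T : ℕ) : NPC.Poly (EL P T) := by
  have h := poly_prod (poly_VL P T) (poly_VL P T)
  exact NPC.Poly.filter (p := fun (φ : F3) (q : (ℕ × ℕ × ℕ) × (ℕ × ℕ × ℕ)) => gaB P φ q.1 q.2)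
    h (poly_gaB P)

theorem poly_cd {α : Type} [TEnc α] (P : ℕ) {φ : α → F3} {v : α → ℕ × ℕ × ℕ} (hφ : NPC.Poly φ)
    (hv : NPC.Poly v) : NPC.Poly (fun a => cd P (φ a) (v a)) := by
  have h1 : NPC.Poly (fun a => Mf (φ a)) := Poly_Mf.comp hφ
  have h2 : NPC.Poly (fun a => nbf P (φ a)) := (Poly_nbf P).comp hφ
  unfold cd
  fun_prop

theorem poly_gr1 (P T : ℕ) : NPC.Poly (fun φ : F3 => (VL P T φ).map (cd P φ)) :=
  NPC.Poly.map (F := fun (φ : F3) (v : ℕ × ℕ × ℕ) => cd P φ v) (poly_VL P T)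
    (poly_cd P (NPC.Poly.fst NPC.Poly.id) (NPC.Poly.snd NPC.Poly.id))

theorem poly_gr2 (P T : ℕ) : NPC.Poly (fun φ : F3 =>
    (EL P T φ).map (fun p => (cd P φ p.1, cd P φ p.2))) :=
  NPC.Poly.map (F := fun (φ : F3) (p : (ℕ × ℕ × ℕ) × (ℕ × ℕ × ℕ)) => (cd P φ p.1, cd P φ p.2))
    (poly_EL P T)
    (NPC.Poly.pair (poly_cd P (NPC.Poly.fst NPC.Poly.id)
        (NPC.Poly.fst (NPC.Poly.snd NPC.Poly.id)))
      (poly_cd P (NPC.Poly.fst NPC.Poly.id) (NPC.Poly.snd (NPC.Poly.snd NPC.Poly.id))))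

theorem poly_gr (P T : ℕ) : NPC.Poly (gr P T) := NPC.Poly.pair (poly_gr1 P T) (poly_gr2 P T)

theorem small_ren3 (φ : F3) : Small (ren3 φ) := by
  have hlen : (vars3 φ).length = 3 * φ.length := by
    unfold vars3
    rw [List.length_flatMap]
    simp [mul_comm]
  have hg : gg (ren3 φ) = 3 * φ.length + 1 := by
    unfold gg ren3
    rw [List.length_map]
  have key : ∀ v ∈ vars3 φ, index (vars3 φ) v < gg (ren3 φ) := by
    intro v hv
    have h := getElem?_index hv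
    have := (List.getElem?_eq_some_iff.1 h).1
    omega
  intro c hc
  unfold ren3 at hc
  rw [List.mem_map] at hc
  obtain ⟨d, hd, rfl⟩ := hc
  obtain ⟨h1, h2, h3⟩ := mem_vars3 hd
  exact ⟨key _ h1, key _ h2, key _ h3⟩

/-- 3SAT with different variables in each clause and small names of variables. -/
theorem hardPr : HardPr (fun φ : F3 => Distinct3 φ ∧ Small φ) SAT3 :=
  hardPr_SAT3.trans (f := ren3 (V := ℕ)) ren3_poly
    (fun φ h => ⟨ren3_distinct h, small_ren3 φ⟩) (fun φ _ => ren3_sat φ)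

end Pool.Agent.H619R2.QP
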