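import Pool.Agent.H619R2.QP.Local

/-!
# The hub forces one copy of the gadget to lie in one gap
-/

namespace Pool.Agent.H619R2.QP

/-- The vertices: `(0, 0, w)` is a hub vertex, `(h, u)` is the vertex `u` of copy `h ≥ 1`. -/
def GV (P M nb T : ℕ) (v : ℕ × ℕ × ℕ) : Prop :=
  (v.1 = 0 ∧ v.2.1 = 0 ∧ v.2.2 < P + 1) ∨ (1 ≤ v.1 ∧ v.1 ≤ T ∧ HV P M nb v.2)

/-- the edges, from left to right -/
def gadj (P M D : ℕ) (tr : ℕ → ℕ → Prop) (u v : ℕ × ℕ × ℕ) : Prop :=
  (u.1 = 0 ∧ 1 ≤ v.1 ∧ v.2.1 % 2 = 0) ∨ (1 ≤ u.1 ∧ v.1 = u.1 ∧ loc P M D tr u.2 v.2)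

/-- adjacency -/
def GA (P M D nb T : ℕ) (tr : ℕ → ℕ → Prop) (u v : ℕ × ℕ × ℕ) : Prop :=
  GV P M nb T u ∧ GV P M nb T v ∧ (gadj P M D tr u v ∨ gadj P M D tr v u)

theorem GA.symm {P M D nb T : ℕ} {tr : ℕ → ℕ → Prop} {u v : ℕ × ℕ × ℕ}
    (h : GA P M D nb T tr u v) : GA P M D nb T tr v u := ⟨h.2.1, h.1, h.2.2.symm⟩

/-- the hub -/
def Wf (P : ℕ) : Finset (ℕ × ℕ × ℕ) := (Finset.range (P + 1)).image (fun w => (0, 0, w))

/-- all block vertices -/
def Ff (P M T : ℕ) : Finset (ℕ × ℕ × ℕ) :=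
  (Finset.Icc 1 T ×ˢ (Finset.range (M + 4) ×ˢ Finset.range P)).image
    (fun x => (x.1, 2 * x.2.1, x.2.2))

theorem mem_Wf {P : ℕ} {v : ℕ × ℕ × ℕ} : v ∈ Wf P ↔ v.1 = 0 ∧ v.2.1 = 0 ∧ v.2.2 < P + 1 := by
  unfold Wf
  rw [Finset.mem_image]
  constructor
  · rintro ⟨w, hw, rfl⟩
    rw [Finset.mem_range] at hw
    exact ⟨rfl, rfl, hw⟩
  · rintro ⟨h1, h2, h3⟩
    obtain ⟨a, b, c⟩ := v
    dsimp only at *
    subst h1 h2
    exact ⟨c, Finset.mem_range.2 h3, rfl⟩

theorem card_Wf (P : ℕ) : (Wf P).card = P + 1 := by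
  unfold Wf
  rw [Finset.card_image_of_injective, Finset.card_range]
  intro a b h
  simpa using h

theorem mem_Ff {P M T : ℕ} {v : ℕ × ℕ × ℕ} : v ∈ Ff P M T ↔ 1 ≤ v.1 ∧ v.1 ≤ T ∧ FV P M v.2 := by
  unfold Ff FV
  rw [Finset.mem_image]
  constructor
  · rintro ⟨⟨h, j, o⟩, hx, rfl⟩
    rw [Finset.mem_product, Finset.mem_product, Finset.mem_Icc, Finset.mem_range,
      Finset.mem_range] at hx
    dsimp only at *
    omega
  · rintro ⟨h1, h2, h3, h4, h5⟩
    obtain ⟨h, s, o⟩ := v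
    refine ⟨(h, s / 2, o), ?_, ?_⟩
    · rw [Finset.mem_product, Finset.mem_product, Finset.mem_Icc, Finset.mem_range,
        Finset.mem_range]
      dsimp only at *
      omega
    · dsimp only at *
      rw [Prod.mk.injEq, Prod.mk.injEq]
      exact ⟨rfl, by omega, rfl⟩

section

variable {P M D nb T : ℕ} {tr : ℕ → ℕ → Prop} {pos : ℕ × ℕ × ℕ → ℕ}

theorem GV_W {w : ℕ × ℕ × ℕ} (hw : w ∈ Wf P) : GV P M nb T w := Or.inl (mem_Wf.1 hw)

theorem GV_F {w : ℕ × ℕ × ℕ} (hw : w ∈ Ff P M T) : GV P M nb T w := by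
  obtain ⟨h1, h2, h3⟩ := mem_Ff.1 hw
  exact Or.inr ⟨h1, h2, Or.inl h3⟩

theorem WF_disj {w f : ℕ × ℕ × ℕ} (hw : w ∈ Wf P) (hf : f ∈ Ff P M T) : w ≠ f := by
  rintro rfl
  have h1 := mem_Wf.1 hw
  have h2 := mem_Ff.1 hf
  omega

theorem adjWF {w f : ℕ × ℕ × ℕ} (hw : w ∈ Wf P) (hf : f ∈ Ff P M T) :
    GA P M D nb T tr w f := by
  have h1 := mem_Wf.1 hw
  have h2 := mem_Ff.1 hf
  exact ⟨GV_W hw, GV_F hf, Or.inl (Or.inl ⟨h1.1, h2.1, h2.2.2.1⟩)⟩

/-- the hub vertices to the left of `v` -/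
def Gp (P : ℕ) (pos : ℕ × ℕ × ℕ → ℕ) (v : ℕ × ℕ × ℕ) : Finset (ℕ × ℕ × ℕ) :=
  (Wf P).filter (fun w => pos w < pos v)

theorem mem_Gp {v w : ℕ × ℕ × ℕ} : w ∈ Gp P pos v ↔ w ∈ Wf P ∧ pos w < pos v := by
  unfold Gp
  rw [Finset.mem_filter]

theorem Gp_mono {u v : ℕ × ℕ × ℕ} (h : pos u ≤ pos v) : Gp P pos u ⊆ Gp P pos v := by
  intro w hw
  rw [mem_Gp] at hw ⊢
  exact ⟨hw.1, by omega⟩

theorem Gp_card_le (v : ℕ × ℕ × ℕ) : (Gp P pos v).card ≤ P + 1 := by
  rw [← card_Wf P]
  exact Finset.card_filter_le _ _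

theorem Gp_eq {u v : ℕ × ℕ × ℕ} (h : (Gp P pos u).card = (Gp P pos v).card) :
    Gp P pos u = Gp P pos v := by
  rcases le_total (pos u) (pos v) with h1 | h1
  · exact Finset.eq_of_subset_of_card_le (Gp_mono h1) h.ge
  · exact (Finset.eq_of_subset_of_card_le (Gp_mono h1) h.le).symm

/-- block vertices of the same gap to the left -/
def Yf (P M T : ℕ) (pos : ℕ × ℕ × ℕ → ℕ) (v : ℕ × ℕ × ℕ) : Finset (ℕ × ℕ × ℕ) :=
  (Ff P M T).filter (fun f => Gp P pos f = Gp P pos v ∧ pos f < pos v)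

/-- block vertices of the same gap to the right -/
def Zf (P M T : ℕ) (pos : ℕ × ℕ × ℕ → ℕ) (v : ℕ × ℕ × ℕ) : Finset (ℕ × ℕ × ℕ) :=
  (Ff P M T).filter (fun f => Gp P pos f = Gp P pos v ∧ pos v < pos f)

theorem mem_Yf {v f : ℕ × ℕ × ℕ} :
    f ∈ Yf P M T pos v ↔ f ∈ Ff P M T ∧ Gp P pos f = Gp P pos v ∧ pos f < pos v := by
  unfold Yf
  rw [Finset.mem_filter]

theorem mem_Zf {v f : ℕ × ℕ × ℕ} :
    f ∈ Zf P M T pos v ↔ f ∈ Ff P M T ∧ Gp P pos f = Gp P pos v ∧ pos v < pos f := by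
  unfold Zf
  rw [Finset.mem_filter]

theorem injOn_of {S : Finset (ℕ × ℕ × ℕ)}
    (hinj : ∀ u v, GV P M nb T u → GV P M nb T v → pos u = pos v → u = v)
    (hS : ∀ x ∈ S, GV P M nb T x) : Set.InjOn pos S :=
  fun x hx y hy hxy => hinj x y (hS x hx) (hS y hy) hxy

/-- neighbours of deep block vertices are in the same gap -/
theorem same_gap (hinj : ∀ u v, GV P M nb T u → GV P M nb T v → pos u = pos v → u = v)
    (hnt : NT (P + 2) pos (GA P M D nb T tr)) {u v : ℕ × ℕ × ℕ} (hv : v ∈ Ff P M T)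
    (huv : GA P M D nb T tr u v) (hu : u ∉ Wf P) (hY : P + 1 ≤ (Yf P M T pos v).card)
    (hZ : P + 1 ≤ (Zf P M T pos v).card) : Gp P pos u = Gp P pos v := by
  classical
  by_contra hne
  have hvV : GV P M nb T v := GV_F hv
  have hWne : ∀ w ∈ Wf P, ∀ x, GV P M nb T x → x ∉ Wf P → pos w ≠ pos x := by
    intro w hw x hx hxW he
    have := hinj w x (GV_W hw) hx he
    exact hxW (this ▸ hw)
  have hFW : ∀ f ∈ Ff P M T, f ∉ Wf P := fun f hf hw => WF_disj hw hf rfl
  have hvW := hFW v hv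
  have hsub : ∀ x, Gp P pos x ⊆ Wf P := fun x => Finset.filter_subset _ _
  have cu := Gp_card_le (P := P) (pos := pos) u
  have cv := Gp_card_le (P := P) (pos := pos) v
  have card_diff : ∀ x, (Wf P \ Gp P pos x).card = P + 1 - (Gp P pos x).card := by
    intro x
    rw [Finset.card_sdiff_of_subset (hsub x), card_Wf]
  have hYF : ∀ y ∈ Yf P M T pos v, y ∈ Ff P M T ∧ Gp P pos y = Gp P pos v ∧ pos y < pos v :=
    fun y hy => mem_Yf.1 hy
  have hZF : ∀ y ∈ Zf P M T pos v, y ∈ Ff P M T ∧ Gp P pos y = Gp P pos v ∧ pos v < pos y :=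
    fun y hy => mem_Zf.1 hy
  -- hub vertices to the left of v are to the left of every vertex of the same gap
  have k1 : ∀ w ∈ Gp P pos v, ∀ y, Gp P pos y = Gp P pos v → pos w < pos y := by
    intro w hw y hy
    rw [← hy] at hw
    exact (mem_Gp.1 hw).2
  have k2 : ∀ w ∈ Wf P, w ∉ Gp P pos v → ∀ y ∈ Ff P M T, Gp P pos y = Gp P pos v →
      pos y < pos w := by
    intro w hw hwv y hyF hy
    rw [← hy, mem_Gp] at hwv
    have := hWne w hw y (GV_F hyF) (hFW y hyF)
    push Not at hwv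
    have := hwv hw
    omega
  have k3 : ∀ w ∈ Wf P, w ∉ Gp P pos u → pos u < pos w := by
    intro w hw hwu
    rw [mem_Gp] at hwu
    have := hWne w hw u huv.1 hu
    push Not at hwu
    have := hwu hw
    omega
  have k4 : ∀ w ∈ Gp P pos u, pos w < pos u := fun w hw => (mem_Gp.1 hw).2
  rcases lt_trichotomy (pos v) (pos u) with hlt | heq | hlt
  · -- v before u
    have hss : Gp P pos v ⊆ Gp P pos u := Gp_mono hlt.le
    have hcard : (Gp P pos v).card < (Gp P pos u).card := by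
      by_contra hc
      exact hne (Finset.eq_of_subset_of_card_le hss (by omega)).symm
    have k5 : ∀ y, Gp P pos y = Gp P pos v → pos y < pos u := by
      intro y hy
      by_contra hc
      have := Gp_mono (P := P) (pos := pos) (u := u) (v := y) (by omega)
      rw [hy] at this
      exact hne (Finset.Subset.antisymm this hss)
    obtain ⟨Z1, Z2, hZ1, hZ2, hcZ1, hcZ2, hZZ⟩ := split (pos := pos) (S := Zf P M T pos v)
      (n1 := P + 1 - (Gp P pos u).card) (n2 := (Gp P pos v).card)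
      (injOn_of hinj (fun x hx => GV_F (hZF x hx).1)) (by omega)
    obtain ⟨l1, hl1, L1⟩ := Lad.of_sets (pos := pos) (Adj := GA P M D nb T tr)
      (A := Gp P pos v) (B := Z2) (n := (Gp P pos v).card) le_rfl hcZ2.ge
      (fun x hx y hy => adjWF (hsub _ hx) (hZF y (hZ2 hy)).1)
      (injOn_of hinj (fun x hx => GV_W (hsub _ hx)))
      (injOn_of hinj (fun x hx => GV_F (hZF x (hZ2 hx)).1))
    obtain ⟨l2, hl2, L2⟩ := Lad.of_sets (pos := pos) (Adj := GA P M D nb T tr)
      (A := Yf P M T pos v) (B := Gp P pos u \ Gp P pos v)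
      (n := (Gp P pos u).card - (Gp P pos v).card) (by omega)
      (by rw [Finset.card_sdiff_of_subset hss])
      (fun x hx y hy => (adjWF (hsub _ (Finset.mem_sdiff.1 hy).1) (hYF x hx).1).symm)
      (injOn_of hinj (fun x hx => GV_F (hYF x hx).1))
      (injOn_of hinj (fun x hx => GV_W (hsub _ (Finset.mem_sdiff.1 hx).1)))
    obtain ⟨l4, hl4, L4⟩ := Lad.of_sets (pos := pos) (Adj := GA P M D nb T tr)
      (A := Z1) (B := Wf P \ Gp P pos u)
      (n := P + 1 - (Gp P pos u).card) hcZ1.ge (by rw [card_diff])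
      (fun x hx y hy => (adjWF (Finset.mem_sdiff.1 hy).1 (hZF x (hZ1 hx)).1).symm)
      (injOn_of hinj (fun x hx => GV_F (hZF x (hZ1 hx)).1))
      (injOn_of hinj (fun x hx => GV_W (Finset.mem_sdiff.1 hx).1))
    have L3 := Lad.single (pos := pos) huv.symm
    have L12 := L1.append L2
      (fun a ha a' ha' => k1 a ha a' (hYF a' ha').2.1)
      (fun b hb b' hb' => k2 b' (hsub _ (Finset.mem_sdiff.1 hb').1) (Finset.mem_sdiff.1 hb').2 b
        (hZF b (hZ2 hb)).1 (hZF b (hZ2 hb)).2.1)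
    have L123 := L12.append L3 (by
        intro a ha a' ha'
        rw [Set.mem_singleton_iff] at ha'
        subst ha'
        rcases ha with ha | ha
        · exact k1 a ha _ rfl
        · exact (hYF a ha).2.2) (by
        intro b hb b' hb'
        rw [Set.mem_singleton_iff] at hb'
        subst hb'
        rcases hb with hb | hb
        · exact k5 b (hZF b (hZ2 hb)).2.1
        · exact k4 b (Finset.mem_sdiff.1 hb).1)
    have L := L123.append L4 (by
        intro a ha a' ha'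
        have ha'' := hZF a' (hZ1 ha')
        rcases ha with (ha | ha) | ha
        · exact k1 a ha _ ha''.2.1
        · exact (hYF a ha).2.2.trans ha''.2.2
        · rw [Set.mem_singleton_iff] at ha
          subst ha
          exact ha''.2.2) (by
        intro b hb b' hb'
        obtain ⟨hb1, hb2⟩ := Finset.mem_sdiff.1 hb'
        have hb3 : b' ∉ Gp P pos v := fun h => hb2 (hss h)
        have hub := k3 b' hb1 hb2
        rcases hb with (hb | hb) | hb
        · exact k2 b' hb1 hb3 b (hZF b (hZ2 hb)).1 (hZF b (hZ2 hb)).2.1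
        · exact (k4 b (Finset.mem_sdiff.1 hb).1).trans hub
        · rw [Set.mem_singleton_iff] at hb
          subst hb
          exact hub)
    have := hnt.lad L (by
      have hW' : ∀ a ∈ ((↑(Gp P pos v) ∪ ↑(Yf P M T pos v) ∪ {v} ∪ ↑Z1 : Set (ℕ × ℕ × ℕ))),
          ∀ w ∈ Wf P, w ∉ Gp P pos v → pos a < pos w := by
        intro a ha w hw hwv
        have hvw := k2 w hw hwv v hv rfl
        rcases ha with ((ha | ha) | ha) | ha
        · exact (k1 a ha _ rfl).trans hvw
        · exact (hYF a ha).2.2.trans hvw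
        · rw [Set.mem_singleton_iff] at ha
          subst ha
          exact hvw
        · exact k2 w hw hwv a (hZF a (hZ1 ha)).1 (hZF a (hZ1 ha)).2.1
      have hu' : ∀ a ∈ ((↑(Gp P pos v) ∪ ↑(Yf P M T pos v) ∪ {v} ∪ ↑Z1 : Set (ℕ × ℕ × ℕ))),
          pos a < pos u := by
        intro a ha
        rcases ha with ((ha | ha) | ha) | ha
        · exact (k1 a ha _ rfl).trans hlt
        · exact (hYF a ha).2.2.trans hlt
        · rw [Set.mem_singleton_iff] at ha
          subst ha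
          exact hlt
        · exact k5 a (hZF a (hZ1 ha)).2.1
      intro a ha b hb
      rcases hb with ((hb | hb) | hb) | hb
      · have hb' := hZF b (hZ2 hb)
        rcases ha with ((ha | ha) | ha) | ha
        · exact k1 a ha _ hb'.2.1
        · exact (hYF a ha).2.2.trans hb'.2.2
        · rw [Set.mem_singleton_iff] at ha
          subst ha
          exact hb'.2.2
        · exact hZZ a ha b hb
      · obtain ⟨hb1, hb2⟩ := Finset.mem_sdiff.1 hb
        exact hW' a ha b (hsub _ hb1) hb2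
      · rw [Set.mem_singleton_iff] at hb
        subst hb
        exact hu' a ha
      · obtain ⟨hb1, hb2⟩ := Finset.mem_sdiff.1 hb
        exact hW' a ha b hb1 (fun h => hb2 (hss h)))
    simp only [List.length_append, List.length_singleton, hl1, hl2, hl4] at this
    omega
  · exact hne (Finset.Subset.antisymm (Gp_mono heq.ge) (Gp_mono heq.le))
  · -- u before v
    have hss : Gp P pos u ⊆ Gp P pos v := Gp_mono hlt.le
    have hcard : (Gp P pos u).card < (Gp P pos v).card := by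
      by_contra hc
      exact hne (Finset.eq_of_subset_of_card_le hss (by omega))
    have k5 : ∀ y, Gp P pos y = Gp P pos v → pos u < pos y := by
      intro y hy
      by_contra hc
      have := Gp_mono (P := P) (pos := pos) (u := y) (v := u) (by omega)
      rw [hy] at this
      exact hne (Finset.Subset.antisymm hss this)
    obtain ⟨Y1, Y2, hY1, hY2, hcY1, hcY2, hYY⟩ := split (pos := pos) (S := Yf P M T pos v)
      (n1 := P + 1 - (Gp P pos v).card) (n2 := (Gp P pos u).card)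
      (injOn_of hinj (fun x hx => GV_F (hYF x hx).1)) (by omega)
    obtain ⟨l1, hl1, L1⟩ := Lad.of_sets (pos := pos) (Adj := GA P M D nb T tr)
      (A := Gp P pos u) (B := Y2) (n := (Gp P pos u).card) le_rfl hcY2.ge
      (fun x hx y hy => adjWF (hsub _ hx) (hYF y (hY2 hy)).1)
      (injOn_of hinj (fun x hx => GV_W (hsub _ hx)))
      (injOn_of hinj (fun x hx => GV_F (hYF x (hY2 hx)).1))
    obtain ⟨l3, hl3, L3⟩ := Lad.of_sets (pos := pos) (Adj := GA P M D nb T tr)
      (A := Gp P pos v \ Gp P pos u) (B := Zf P M T pos v)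
      (n := (Gp P pos v).card - (Gp P pos u).card)
      (by rw [Finset.card_sdiff_of_subset hss]) (by omega)
      (fun x hx y hy => adjWF (hsub _ (Finset.mem_sdiff.1 hx).1) (hZF y hy).1)
      (injOn_of hinj (fun x hx => GV_W (hsub _ (Finset.mem_sdiff.1 hx).1)))
      (injOn_of hinj (fun x hx => GV_F (hZF x hx).1))
    obtain ⟨l4, hl4, L4⟩ := Lad.of_sets (pos := pos) (Adj := GA P M D nb T tr)
      (A := Y1) (B := Wf P \ Gp P pos v)
      (n := P + 1 - (Gp P pos v).card) hcY1.ge (by rw [card_diff])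
      (fun x hx y hy => (adjWF (Finset.mem_sdiff.1 hy).1 (hYF x (hY1 hx)).1).symm)
      (injOn_of hinj (fun x hx => GV_F (hYF x (hY1 hx)).1))
      (injOn_of hinj (fun x hx => GV_W (Finset.mem_sdiff.1 hx).1))
    have L2 := Lad.single (pos := pos) huv
    have L12 := L1.append L2 (by
        intro a ha a' ha'
        rw [Set.mem_singleton_iff] at ha'
        subst ha'
        exact k4 a ha) (by
        intro b hb b' hb'
        rw [Set.mem_singleton_iff] at hb'
        subst hb'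
        exact (hYF b (hY2 hb)).2.2)
    have L123 := L12.append L3 (by
        intro a ha a' ha'
        obtain ⟨h1, h2⟩ := Finset.mem_sdiff.1 ha'
        have h3 := k3 a' (hsub _ h1) h2
        rcases ha with ha | ha
        · exact (k4 a ha).trans h3
        · rw [Set.mem_singleton_iff] at ha
          subst ha
          exact h3) (by
        intro b hb b' hb'
        have hb'' := hZF b' hb'
        rcases hb with hb | hb
        · exact (hYF b (hY2 hb)).2.2.trans hb''.2.2
        · rw [Set.mem_singleton_iff] at hb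
          subst hb
          exact hb''.2.2)
    have hAy : ∀ a ∈ ((↑(Gp P pos u) ∪ {u} ∪ ↑(Gp P pos v \ Gp P pos u) : Set (ℕ × ℕ × ℕ))),
        ∀ y ∈ Yf P M T pos v, pos a < pos y := by
      intro a ha y hy
      have hy' := hYF y hy
      rcases ha with (ha | ha) | ha
      · exact k1 a (hss ha) _ hy'.2.1
      · rw [Set.mem_singleton_iff] at ha
        subst ha
        exact k5 y hy'.2.1
      · rw [Finset.mem_coe] at ha
        exact k1 a (Finset.mem_sdiff.1 ha).1 _ hy'.2.1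
    have hBw : ∀ b ∈ ((↑Y2 ∪ {v} ∪ ↑(Zf P M T pos v) : Set (ℕ × ℕ × ℕ))),
        ∀ w ∈ Wf P \ Gp P pos v, pos b < pos w := by
      intro b hb w hw
      obtain ⟨h1, h2⟩ := Finset.mem_sdiff.1 hw
      rcases hb with (hb | hb) | hb
      · exact k2 w h1 h2 b (hYF b (hY2 hb)).1 (hYF b (hY2 hb)).2.1
      · rw [Set.mem_singleton_iff] at hb
        subst hb
        exact k2 w h1 h2 _ hv rfl
      · exact k2 w h1 h2 b (hZF b hb).1 (hZF b hb).2.1
    have L := L123.append L4 (fun a ha a' ha' => hAy a ha a' (hY1 ha'))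
      (fun b hb b' hb' => hBw b hb b' hb')
    have := hnt.lad L (by
      have hav : ∀ a ∈ ((↑(Gp P pos u) ∪ {u} ∪ ↑(Gp P pos v \ Gp P pos u) ∪ ↑Y1 :
          Set (ℕ × ℕ × ℕ))), pos a < pos v := by
        intro a ha
        rcases ha with ((ha | ha) | ha) | ha
        · exact k1 a (hss ha) _ rfl
        · rw [Set.mem_singleton_iff] at ha
          subst ha
          exact hlt
        · rw [Finset.mem_coe] at ha
          exact k1 a (Finset.mem_sdiff.1 ha).1 _ rfl
        · exact (hYF a (hY1 ha)).2.2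
      intro a ha b hb
      rcases hb with ((hb | hb) | hb) | hb
      · rcases ha with ha | ha
        · exact hAy a ha b (hY2 hb)
        · exact hYY a ha b hb
      · rw [Set.mem_singleton_iff] at hb
        subst hb
        exact hav a ha
      · exact (hav a ha).trans (hZF b hb).2.2
      · obtain ⟨hb1, hb2⟩ := Finset.mem_sdiff.1 (Finset.mem_coe.1 hb)
        exact (hav a ha).trans (k2 b hb1 hb2 v hv rfl))
    simp only [List.length_append, List.length_singleton, hl1, hl3, hl4] at this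
    omega

end

end Pool.Agent.H619R2.QP
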