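import Pool.Agent.H619R2.QP.Cases

/-!
# The intended order has no long twist: conclusion
-/

namespace Pool.Agent.H619R2.QP

section

variable {P M D nb T : ℕ} {tr : ℕ → ℕ → Prop} {ord : ℕ → ℕ → ℕ}
  {R : Finset ((ℕ × ℕ × ℕ) × (ℕ × ℕ × ℕ))}

theorem card_R (hrev : ∀ i e e', e < nb → e' < nb → ord i e < ord i e' →
      ord (i + 1) e' < ord (i + 1) e) (hP : 9 ≤ P)
    (hstar : ∀ i, 1 ≤ i → i ≤ M → ∃ t1 t2 t3, (∀ x, tr i x → x = t1 ∨ x = t2 ∨ x = t3) ∧
      ∃ x, (x = t1 ∨ x = t2 ∨ x = t3) ∧ ∀ d < D, ord i x < ord i d)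
    {x y : ℕ × ℕ × ℕ} (hxy : OE P M D nb T tr (x, y)) (hR : RS P M D nb T tr ord R x y) :
    R.card ≤ P := by
  obtain ⟨gx, gy, g⟩ := hxy
  dsimp only at gx gy g
  rcases g with g | ⟨g1, g2, g3⟩
  · exact card_hub hR gx g.1
  · obtain ⟨h, s, o⟩ := x
    obtain ⟨h', s', o'⟩ := y
    dsimp only at g1 g2 g3
    subst g2
    unfold GV HV FV BV at gx gy
    unfold loc at g3
    dsimp only at gx gy g3
    rcases g3 with ⟨q1, q2, q3⟩ | ⟨q1, q2, q3⟩ | ⟨q1, q2, q3⟩ | ⟨q1, q2, q3⟩ | ⟨q1, q2, q3⟩ |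
      ⟨q1, q2, q3⟩
    · subst q2
      exact card_block hR q1 (by omega)
    · subst q2
      exact card_t3 hrev hR g1 q1 (by omega) (by omega) q3
    · subst q2 q3
      refine card_arc hrev hP hstar hR q1 (by omega) (by omega) (fun e he => ?_)
      have h0 := hR.lx e he
      have h1 := hR.xr e he
      have h2 := hR.ry e he
      have h3 := hR.edge e he
      have g := h3.2.1
      obtain ⟨⟨c3, s3, o3⟩, ⟨c4, s4, o4⟩⟩ := e
      unfold Lt at h0 h1 h2
      unfold GV HV FV BV at g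
      dsimp only at h0 h1 h2 g ⊢
      by_cases hs4 : s4 = s + 2
      · exfalso
        subst hs4
        obtain ⟨p1, p2, p3, p4⟩ := bus_end h3 (by omega)
        have p5 : s3 = s ∧ o3 = o4 := by omega
        obtain ⟨rfl, rfl⟩ := p5
        rw [off_odd q1, off_odd q1] at h0
        rw [off_odd (show (s3 + 2) % 2 = 1 by omega), off_odd (show (s3 + 2) % 2 = 1 by omega)] at h2
        have := hrev (s3 / 2) o3 o' p3 (by omega) (by omega)
        rw [show s3 / 2 + 1 = (s3 + 2) / 2 by omega] at this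
        omega
      · omega
    · subst q1 q2 q3
      exact card_t5 hR g1 hP
    · subst q1 q2 q3
      refine card_arc hrev hP hstar hR (by omega) (by omega) (by omega) (fun e he => ?_)
      have h1 := hR.xr e he
      have h2 := hR.ry e he
      have g := (hR.edge e he).2.1
      obtain ⟨⟨c3, s3, o3⟩, ⟨c4, s4, o4⟩⟩ := e
      unfold Lt at h1 h2
      rw [off_even (show (2 * M + 4) % 2 = 0 by omega)] at h2
      unfold GV HV FV BV at g
      dsimp only at h1 h2 g ⊢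
      omega
    · subst q2
      exact card_t7 hrev hR q1 (by omega)

theorem gadj_Lt (hP : 9 ≤ P) {u v : ℕ × ℕ × ℕ} (h : OE P M D nb T tr (u, v)) : Lt ord u v := by
  obtain ⟨gx, gy, g⟩ := h
  dsimp only at gx gy g
  obtain ⟨h, s, o⟩ := u
  obtain ⟨h', s', o'⟩ := v
  unfold GV HV FV BV at gx gy
  unfold gadj loc at g
  unfold Lt
  dsimp only at gx gy g ⊢
  rcases g with g | ⟨g1, g2, g3⟩
  · omega
  · subst g2
    rcases g3 with ⟨q1, q2, q3⟩ | ⟨q1, q2, q3⟩ | ⟨q1, q2, q3⟩ | ⟨q1, q2, q3⟩ | ⟨q1, q2, q3⟩ |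
      ⟨q1, q2, q3⟩
    · subst q2
      rw [off_even q1, off_even q1]
      omega
    all_goals omega

/-- crossing for edges with their left ends first -/
def CrL (ord : ℕ → ℕ → ℕ) (e f : (ℕ × ℕ × ℕ) × (ℕ × ℕ × ℕ)) : Prop :=
  (Lt ord e.1 f.1 ∧ Lt ord f.1 e.2 ∧ Lt ord e.2 f.2) ∨
  (Lt ord f.1 e.1 ∧ Lt ord e.1 f.2 ∧ Lt ord f.2 e.2)

theorem not_twist (hrev : ∀ i e e', e < nb → e' < nb → ord i e < ord i e' →
      ord (i + 1) e' < ord (i + 1) e) (hP : 9 ≤ P)
    (hstar : ∀ i, 1 ≤ i → i ≤ M → ∃ t1 t2 t3, (∀ x, tr i x → x = t1 ∨ x = t2 ∨ x = t3) ∧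
      ∃ x, (x = t1 ∨ x = t2 ∨ x = t3) ∧ ∀ d < D, ord i x < ord i d)
    {S : Finset ((ℕ × ℕ × ℕ) × (ℕ × ℕ × ℕ))} (hS : ∀ e ∈ S, OE P M D nb T tr e)
    (hcr : ∀ e ∈ S, ∀ f ∈ S, e ≠ f → CrL ord e f)
    {pos : ℕ × ℕ × ℕ → ℕ} (hpos : ∀ e ∈ S, ∀ f ∈ S, pos e.1 < pos f.1 ↔ Lt ord e.1 f.1) :
    S.card ≤ P + 1 := by
  classical
  by_contra hc
  push Not at hc
  have hne : S.Nonempty := by
    rw [← Finset.card_pos]
    omega
  obtain ⟨m, hm, hmax⟩ := S.exists_max_image (fun e => pos e.1) hne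
  have hR : RS P M D nb T tr ord (S.erase m) m.1 m.2 := by
    have key : ∀ e ∈ S.erase m, Lt ord e.1 m.1 ∧ Lt ord m.1 e.2 ∧ Lt ord e.2 m.2 := by
      intro e he
      rw [Finset.mem_erase] at he
      rcases hcr e he.2 m hm he.1 with h | h
      · exact h
      · exfalso
        have h1 := (hpos m hm e he.2).2 h.1
        have h2 := hmax e he.2
        omega
    refine ⟨fun e he => hS e (Finset.mem_of_mem_erase he), fun e he => (key e he).1,
      fun e he => (key e he).2.1, fun e he => (key e he).2.2, fun e he f hf hne => ?_⟩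
    rcases hcr e (Finset.mem_of_mem_erase he) f (Finset.mem_of_mem_erase hf) hne with h | h
    · exact Or.inl ⟨h.1, h.2.2⟩
    · exact Or.inr ⟨h.1, h.2.2⟩
  have := card_R hrev hP hstar (hS m hm) hR
  rw [Finset.card_erase_of_mem hm] at this
  omega

theorem off_lt {C : ℕ} (hlt : ∀ i e, e < nb → ord i e < C) (hC : P + 1 ≤ C) {u : ℕ × ℕ × ℕ}
    (hu : GV P M nb T u) : off ord u < C ∧ u.2.1 < 2 * M + 7 := by
  obtain ⟨h, s, o⟩ := u
  unfold GV HV FV BV at hu
  dsimp only at hu ⊢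
  by_cases hs : s % 2 = 1
  · rw [off_odd hs]
    exact ⟨hlt _ _ (by omega), by omega⟩
  · rw [off_even (by omega)]
    omega

theorem complete_ord {C : ℕ} (hlt : ∀ i e, e < nb → ord i e < C) (hC : P + 1 ≤ C)
    (hrev : ∀ i e e', e < nb → e' < nb → ord i e < ord i e' →
      ord (i + 1) e' < ord (i + 1) e) (hP : 9 ≤ P)
    (hstar : ∀ i, 1 ≤ i → i ≤ M → ∃ t1 t2 t3, (∀ x, tr i x → x = t1 ∨ x = t2 ∨ x = t3) ∧
      ∃ x, (x = t1 ∨ x = t2 ∨ x = t3) ∧ ∀ d < D, ord i x < ord i d) :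
    NT (P + 2) (lpos ord (2 * M + 7) C) (GA P M D nb T tr) := by
  classical
  intro l hl hE hp
  have hltp : ∀ u v, GV P M nb T u → GV P M nb T v →
      (lpos ord (2 * M + 7) C u < lpos ord (2 * M + 7) C v ↔ Lt ord u v) := fun u v hu hv =>
    lpos_lt (off_lt hlt hC hu).2 (off_lt hlt hC hv).2 (off_lt hlt hC hu).1 (off_lt hlt hC hv).1
  set orient : (ℕ × ℕ × ℕ) × (ℕ × ℕ × ℕ) → (ℕ × ℕ × ℕ) × (ℕ × ℕ × ℕ) :=
    fun e => if Lt ord e.1 e.2 then e else (e.2, e.1) with hor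
  have ho : ∀ e ∈ l, OE P M D nb T tr (orient e) ∧ Lt ord (orient e).1 (orient e).2 ∧
      (orient e = e ∨ orient e = (e.2, e.1)) := by
    intro e he
    obtain ⟨g1, g2, g3⟩ := hE e he
    rw [hor]
    dsimp only
    rcases g3 with g3 | g3
    · have h1 : OE P M D nb T tr (e.1, e.2) := ⟨g1, g2, g3⟩
      have h2 := gadj_Lt (ord := ord) hP h1
      rw [if_pos h2]
      exact ⟨h1, h2, Or.inl rfl⟩
    · have h1 : OE P M D nb T tr (e.2, e.1) := ⟨g2, g1, g3⟩
      have h2 := gadj_Lt (ord := ord) hP h1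
      rw [if_neg (fun h => h.asymm h2)]
      exact ⟨h1, h2, Or.inr rfl⟩
  have hp' : (l.map orient).Pairwise (CrL ord) := by
    rw [List.pairwise_map]
    refine List.Pairwise.imp_of_mem ?_ hp
    intro e f he hf hef
    obtain ⟨e1, e2, e3⟩ := ho e he
    obtain ⟨f1, f2, f3⟩ := ho f hf
    have hef' : cr (lpos ord (2 * M + 7) C (orient e).1, lpos ord (2 * M + 7) C (orient e).2)
        (lpos ord (2 * M + 7) C (orient f).1, lpos ord (2 * M + 7) C (orient f).2) := by
      unfold Cr cr at hef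
      unfold cr
      dsimp only at hef ⊢
      rcases e3 with e3 | e3 <;> rcases f3 with f3 | f3 <;> rw [e3, f3] <;> (try dsimp only) <;> omega
    have a1 := (hltp _ _ e1.1 e1.2.1).2 e2
    have a2 := (hltp _ _ f1.1 f1.2.1).2 f2
    unfold CrL
    rw [← hltp _ _ e1.1 f1.1, ← hltp _ _ f1.1 e1.2.1, ← hltp _ _ e1.2.1 f1.2.1,
      ← hltp _ _ f1.1 e1.1, ← hltp _ _ e1.1 f1.2.1, ← hltp _ _ f1.2.1 e1.2.1]
    unfold cr at hef'
    dsimp only at hef'
    omega
  have hirr : ∀ e, ¬ CrL ord e e := by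
    intro e he
    rcases he with he | he
    · exact he.1.irrefl
    · exact he.1.irrefl
  have hnd : (l.map orient).Nodup := by
    refine List.Pairwise.imp ?_ hp'
    intro e f hef hne
    subst hne
    exact hirr _ hef
  haveI hsymm : Std.Symm (CrL ord) := by
    refine ⟨fun e f hef => ?_⟩
    rcases hef with hef | hef
    · exact Or.inr hef
    · exact Or.inl hef
  have hall : ∀ e ∈ l.map orient, OE P M D nb T tr e := by
    intro e he
    rw [List.mem_map] at he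
    obtain ⟨f, hf, rfl⟩ := he
    exact (ho f hf).1
  have := not_twist (S := (l.map orient).toFinset) (pos := lpos ord (2 * M + 7) C) hrev hP hstar
    (fun e he => hall e (List.mem_toFinset.1 he))
    (fun e he f hf hne => hp'.forall (List.mem_toFinset.1 he) (List.mem_toFinset.1 hf) hne)
    (fun e he f hf => hltp _ _ (hall e (List.mem_toFinset.1 he)).1
      (hall f (List.mem_toFinset.1 hf)).1)
  rw [List.toFinset_card_of_nodup hnd, List.length_map, hl] at this
  omega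

theorem lpos_inj {C : ℕ} (hlt : ∀ i e, e < nb → ord i e < C) (hC : P + 1 ≤ C)
    (hoi : ∀ i e e', e < nb → e' < nb → ord i e = ord i e' → e = e') {u v : ℕ × ℕ × ℕ}
    (hu : GV P M nb T u) (hv : GV P M nb T v)
    (huv : lpos ord (2 * M + 7) C u = lpos ord (2 * M + 7) C v) : u = v := by
  have h1 := off_lt hlt hC hu
  have h2 := off_lt hlt hC hv
  have n1 := (lpos_lt (A := 2 * M + 7) h1.2 h2.2 h1.1 h2.1).not
  have n2 := (lpos_lt (A := 2 * M + 7) h2.2 h1.2 h2.1 h1.1).not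
  have m1 := n1.1 (by omega)
  have m2 := n2.1 (by omega)
  unfold Lt at m1 m2
  obtain ⟨h, s, o⟩ := u
  obtain ⟨h', s', o'⟩ := v
  dsimp only at m1 m2
  have e1 : h = h' ∧ s = s' := by omega
  obtain ⟨rfl, rfl⟩ := e1
  unfold GV HV FV BV at hu hv
  dsimp only at hu hv
  by_cases hs : s % 2 = 1
  · rw [off_odd hs, off_odd hs] at m1 m2
    rw [hoi (s / 2) o o' (by omega) (by omega) (by omega)]
  · rw [off_even (by omega), off_even (by omega)] at m1 m2
    rw [show o = o' by omega]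

end

/-- the class of an element of the bus: true variables, dummies, false variables -/
noncomputable def clsv (τ : ℕ → Prop) [DecidablePred τ] (D e : ℕ) : ℕ :=
  if e < D then 1 else if τ ((e - D) / 5) then 0 else 2

/-- the order of the bus at level `i` -/
noncomputable def ordv (τ : ℕ → Prop) [DecidablePred τ] (D nb i e : ℕ) : ℕ :=
  if i % 2 = 1 then e + nb * clsv τ D e else 3 * nb - 1 - (e + nb * clsv τ D e)

section

variable {τ : ℕ → Prop} [DecidablePred τ] {D nb : ℕ}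

theorem clsv_val (e : ℕ) : clsv τ D e = 0 ∨ clsv τ D e = 1 ∨ clsv τ D e = 2 := by
  unfold clsv
  split_ifs <;> omega

theorem base_lt {e : ℕ} (he : e < nb) : e + nb * clsv τ D e < 3 * nb := by
  rcases clsv_val (τ := τ) (D := D) e with h | h | h <;> rw [h] <;> omega

theorem ordv_lt {i e : ℕ} (he : e < nb) : ordv τ D nb i e < 3 * nb := by
  have := base_lt (τ := τ) (D := D) he
  unfold ordv
  split_ifs <;> omega

theorem ordv_rev {i e e' : ℕ} (he : e < nb) (he' : e' < nb)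
    (h : ordv τ D nb i e < ordv τ D nb i e') : ordv τ D nb (i + 1) e' < ordv τ D nb (i + 1) e := by
  have h1 := base_lt (τ := τ) (D := D) he
  have h2 := base_lt (τ := τ) (D := D) he'
  unfold ordv at *
  rcases Nat.mod_two_eq_zero_or_one i with hi | hi
  · rw [if_neg (by omega), if_neg (by omega)] at h
    rw [if_pos (by omega), if_pos (by omega)]
    omega
  · rw [if_pos (by omega), if_pos (by omega)] at h
    rw [if_neg (by omega), if_neg (by omega)]
    omega

theorem ordv_inj {i e e' : ℕ} (he : e < nb) (he' : e' < nb)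
    (h : ordv τ D nb i e = ordv τ D nb i e') : e = e' := by
  have h1 := base_lt (τ := τ) (D := D) he
  have h2 := base_lt (τ := τ) (D := D) he'
  have h3 : e + nb * clsv τ D e = e' + nb * clsv τ D e' := by
    unfold ordv at h
    split_ifs at h <;> omega
  rcases clsv_val (τ := τ) (D := D) e with h4 | h4 | h4 <;>
    rcases clsv_val (τ := τ) (D := D) e' with h5 | h5 | h5 <;> rw [h4, h5] at h3 <;> omega

theorem ordv_star {I : MI} (hsat : Sat τ I) {i : ℕ} (hi : 1 ≤ i) (hi' : i ≤ 10 * I.length)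
    {nv : ℕ} (hI : Good nv I) (hnb : nb = D + 5 * nv) :
    ∃ t1 t2 t3, (∀ x, trI D I i x → x = t1 ∨ x = t2 ∨ x = t3) ∧
      ∃ x, (x = t1 ∨ x = t2 ∨ x = t3) ∧ ∀ d < D, ordv τ D nb i x < ordv τ D nb i d := by
  refine ⟨_, _, _, fun x hx => hx, ?_⟩
  have hm : (i - 1) / 10 < I.length := by omega
  have hget : I.getD ((i - 1) / 10) ((0, 0, 0), (0, 0, 0)) = I[(i - 1) / 10] :=
    List.getD_eq_getElem _ _ hm
  have hmem : I[(i - 1) / 10] ∈ I := List.getElem_mem hm
  obtain ⟨s1, s2⟩ := hsat _ hmem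
  obtain ⟨g1, g2⟩ := hI _ hmem
  rw [← hget] at s1 s2 g1 g2
  have cdum : ∀ d < D, clsv τ D d = 1 := by
    intro d hd
    unfold clsv
    rw [if_pos hd]
  have htrue : ∀ y, y < nv → τ y → i % 2 = 1 → ∀ d < D,
      ordv τ D nb i (D + 5 * y + (i - 1) % 10 / 2) < ordv τ D nb i d := by
    intro y hy hty hio d hd
    have : clsv τ D (D + 5 * y + (i - 1) % 10 / 2) = 0 := by
      unfold clsv
      rw [if_neg (by omega), show (D + 5 * y + (i - 1) % 10 / 2 - D) / 5 = y by omega, if_pos hty]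
    unfold ordv
    rw [if_pos hio, if_pos hio, this, cdum d hd]
    omega
  have hfalse : ∀ y, y < nv → ¬ τ y → i % 2 = 0 → ∀ d < D,
      ordv τ D nb i (D + 5 * y + (i - 1) % 10 / 2) < ordv τ D nb i d := by
    intro y hy hty hio d hd
    have : clsv τ D (D + 5 * y + (i - 1) % 10 / 2) = 2 := by
      unfold clsv
      rw [if_neg (by omega), show (D + 5 * y + (i - 1) % 10 / 2 - D) / 5 = y by omega, if_neg hty]
    unfold ordv
    rw [if_neg (by omega), if_neg (by omega), this, cdum d hd]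
    omega
  rcases Nat.mod_two_eq_zero_or_one i with hio | hio
  · have hpr : prI I i = (I.getD ((i - 1) / 10) ((0, 0, 0), (0, 0, 0))).2 := by
      unfold prI
      rw [if_neg (by omega)]
    rw [hpr]
    rcases s2 with h | h | h
    · exact ⟨_, Or.inl rfl, hfalse _ g2.1 h hio⟩
    · exact ⟨_, Or.inr (Or.inl rfl), hfalse _ g2.2.1 h hio⟩
    · exact ⟨_, Or.inr (Or.inr rfl), hfalse _ g2.2.2.1 h hio⟩
  · have hpr : prI I i = (I.getD ((i - 1) / 10) ((0, 0, 0), (0, 0, 0))).1 := by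
      unfold prI
      rw [if_pos (by omega)]
    rw [hpr]
    rcases s1 with h | h | h
    · exact ⟨_, Or.inl rfl, htrue _ g1.1 h hio⟩
    · exact ⟨_, Or.inr (Or.inl rfl), htrue _ g1.2.1 h hio⟩
    · exact ⟨_, Or.inr (Or.inr rfl), htrue _ g1.2.2.1 h hio⟩

end

/-- **Completeness.** -/
theorem complete {P T nv : ℕ} {I : MI} (hI : Good nv I) (hP : 9 ≤ P) {τ : ℕ → Prop}
    (hsat : Sat τ I) : ∃ pos : ℕ × ℕ × ℕ → ℕ,
      (∀ u v, GV P (10 * I.length) (2 * P - 7 + 5 * nv) T u →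
        GV P (10 * I.length) (2 * P - 7 + 5 * nv) T v → pos u = pos v → u = v) ∧
      NT (P + 2) pos (GA P (10 * I.length) (2 * P - 7) (2 * P - 7 + 5 * nv) T
        (trI (2 * P - 7) I)) := by
  classical
  set nb := 2 * P - 7 + 5 * nv with hnb
  have hlt : ∀ i e, e < nb → ordv τ (2 * P - 7) nb i e < 3 * nb + P + 1 := by
    intro i e he
    have := ordv_lt (τ := τ) (D := 2 * P - 7) (i := i) he
    omega
  refine ⟨lpos (ordv τ (2 * P - 7) nb) (2 * (10 * I.length) + 7) (3 * nb + P + 1), ?_, ?_⟩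
  · intro u v hu hv huv
    exact lpos_inj hlt (by omega) (fun i e e' he he' h => ordv_inj he he' h) hu hv huv
  · exact complete_ord hlt (by omega) (fun i e e' he he' h => ordv_rev he he' h) hP
      (fun i h1 h2 => ordv_star hsat h1 h2 hI hnb)

end Pool.Agent.H619R2.QP
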