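import Pool.Agent.H619R2.QP.Mono
import Pool.Agent.H619R2.QP.Copy
import Pool.Agent.H619R2.QP.Layout
import Pool.Agent.NPC.Dec
import Pool.Agent.H671R2.PolyAuto
import Pool.Agent.H634R2.GraphDefs

/-!
# The graph of the reduction as a pair of lists
-/

namespace Pool.Agent.H619R2.QP

open Pool.Agent.NPC

abbrev F3 : Type := List (Lit ℕ × Lit ℕ × Lit ℕ)

/-- number of levels -/
def Mf (φ : F3) : ℕ := 10 * (mono φ).length

/-- size of a level of the bus -/
def nbf (P : ℕ) (φ : F3) : ℕ := 2 * P - 7 + 5 * (8 * gg φ)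

/-- Boolean version of `GV` -/
def gvB (P T : ℕ) (φ : F3) (v : ℕ × ℕ × ℕ) : Bool :=
  (decide (v.1 = 0) && (decide (v.2.1 = 0) && decide (v.2.2 < P + 1))) ||
  (decide (1 ≤ v.1) && (decide (v.1 ≤ T) &&
    ((decide (v.2.1 % 2 = 0) && (decide (v.2.1 ≤ 2 * Mf φ + 6) && decide (v.2.2 < P))) ||
    (decide (v.2.1 % 2 = 1) && (decide (3 ≤ v.2.1) &&
      (decide (v.2.1 ≤ 2 * Mf φ + 1) && decide (v.2.2 < nbf P φ)))))))

theorem gvB_iff {P T : ℕ} {φ : F3} {v : ℕ × ℕ × ℕ} :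
    gvB P T φ v = true ↔ GV P (Mf φ) (nbf P φ) T v := by
  unfold gvB GV HV FV BV
  simp only [Bool.or_eq_true, Bool.and_eq_true, decide_eq_true_eq]

/-- Boolean version of `trI` -/
def trB (D : ℕ) (I : MI) (i x : ℕ) : Bool :=
  decide (x = D + 5 * (prI I i).1 + (i - 1) % 10 / 2) ||
    (decide (x = D + 5 * (prI I i).2.1 + (i - 1) % 10 / 2) ||
    decide (x = D + 5 * (prI I i).2.2 + (i - 1) % 10 / 2))

theorem trB_iff {D : ℕ} {I : MI} {i x : ℕ} : trB D I i x = true ↔ trI D I i x := by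
  unfold trB trI
  simp only [Bool.or_eq_true, decide_eq_true_eq]

/-- Boolean version of `gadj` -/
def gaB (P : ℕ) (φ : F3) (u v : ℕ × ℕ × ℕ) : Bool :=
  (decide (u.1 = 0) && (decide (1 ≤ v.1) && decide (v.2.1 % 2 = 0))) ||
  (decide (1 ≤ u.1) && (decide (v.1 = u.1) && (
  (decide (u.2.1 % 2 = 0) && (decide (v.2.1 = u.2.1) && decide (u.2.2 < v.2.2))) || (
  (decide (u.2.1 % 2 = 0) && (decide (v.2.1 = u.2.1 + 2) &&
    (decide (v.2.2 < 2) || (decide (P - 3 ≤ u.2.2) && decide (v.2.2 < P - 1))))) || (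
  (decide (u.2.1 % 2 = 1) && (decide (v.2.1 = u.2.1 + 2) && decide (v.2.2 = u.2.2))) || (
  (decide (u.2.1 = 0) && (decide (u.2.2 = P - 1) && decide (v.2.1 = 3))) || (
  (decide (u.2.1 = 2 * Mf φ + 1) && (decide (v.2.1 = 2 * Mf φ + 4) && decide (v.2.2 = 0))) ||
  (decide (u.2.1 % 2 = 1) && (decide (v.2.1 = u.2.1 + 1) &&
    (decide (v.2.2 = 0) || ((decide (u.2.2 < 2 * P - 7) && decide (v.2.2 < P - 3)) ||
    (trB (2 * P - 7) (mono φ) (u.2.1 / 2) u.2.2 && decide (P - 3 ≤ v.2.2)))))))))))))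

theorem gaB_iff {P : ℕ} {φ : F3} {u v : ℕ × ℕ × ℕ} :
    gaB P φ u v = true ↔ gadj P (Mf φ) (2 * P - 7) (trI (2 * P - 7) (mono φ)) u v := by
  unfold gaB gadj loc
  simp only [Bool.or_eq_true, Bool.and_eq_true, decide_eq_true_eq, trB_iff]

/-- a box which contains the vertices -/
def box (P T : ℕ) (φ : F3) : List (ℕ × ℕ × ℕ) :=
  (List.range (T + 1)).product ((List.range (2 * Mf φ + 7)).product (List.range (nbf P φ + P + 1)))

/-- the vertices as triples -/
def VL (P T : ℕ) (φ : F3) : List (ℕ × ℕ × ℕ) := (box P T φ).filter (gvB P T φ)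

/-- the edges as pairs of triples -/
def EL (P T : ℕ) (φ : F3) : List ((ℕ × ℕ × ℕ) × (ℕ × ℕ × ℕ)) :=
  ((VL P T φ).product (VL P T φ)).filter (fun p => gaB P φ p.1 p.2)

/-- names of the vertices -/
def cd (P : ℕ) (φ : F3) (v : ℕ × ℕ × ℕ) : ℕ :=
  (v.1 * (2 * Mf φ + 7) + v.2.1) * (nbf P φ + P + 1) + v.2.2

/-- from names to triples -/
def dc (P : ℕ) (φ : F3) (n : ℕ) : ℕ × ℕ × ℕ :=
  (n / (nbf P φ + P + 1) / (2 * Mf φ + 7), n / (nbf P φ + P + 1) % (2 * Mf φ + 7),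
    n % (nbf P φ + P + 1))

/-- the graph -/
def gr (P T : ℕ) (φ : F3) : List ℕ × List (ℕ × ℕ) :=
  ((VL P T φ).map (cd P φ), (EL P T φ).map (fun p => (cd P φ p.1, cd P φ p.2)))

section

variable {P T : ℕ} {φ : F3}

theorem gr_fst : (gr P T φ).1 = (VL P T φ).map (cd P φ) := rfl

theorem gr_snd : (gr P T φ).2 = (EL P T φ).map (fun p => (cd P φ p.1, cd P φ p.2)) := rfl

theorem mem_VL {v : ℕ × ℕ × ℕ} : v ∈ VL P T φ ↔ GV P (Mf φ) (nbf P φ) T v := by
  unfold VL
  rw [List.mem_filter, gvB_iff]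
  constructor
  · exact fun h => h.2
  · intro h
    refine ⟨?_, h⟩
    unfold box
    obtain ⟨a, b, c⟩ := v
    rw [List.pair_mem_product, List.pair_mem_product, List.mem_range, List.mem_range,
      List.mem_range]
    unfold GV HV FV BV at h
    dsimp only at h
    omega

theorem mem_EL {p : (ℕ × ℕ × ℕ) × (ℕ × ℕ × ℕ)} : p ∈ EL P T φ ↔
    OE P (Mf φ) (2 * P - 7) (nbf P φ) T (trI (2 * P - 7) (mono φ)) p := by
  unfold EL OE
  obtain ⟨u, v⟩ := p
  rw [List.mem_filter, List.pair_mem_product, mem_VL, mem_VL, gaB_iff]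
  tauto

theorem dc_cd {v : ℕ × ℕ × ℕ} (hv : GV P (Mf φ) (nbf P φ) T v) : dc P φ (cd P φ v) = v := by
  obtain ⟨a, b, c⟩ := v
  have hb : b < 2 * Mf φ + 7 := by
    unfold GV HV FV BV at hv
    dsimp only at hv
    omega
  have hc : c < nbf P φ + P + 1 := by
    unfold GV HV FV BV at hv
    dsimp only at hv
    omega
  have h1 : ((a * (2 * Mf φ + 7) + b) * (nbf P φ + P + 1) + c) / (nbf P φ + P + 1) =
      a * (2 * Mf φ + 7) + b := by
    rw [Nat.mul_comm _ (nbf P φ + P + 1), Nat.mul_add_div (by omega), Nat.div_eq_of_lt hc,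
      Nat.add_zero]
  have h2 : ((a * (2 * Mf φ + 7) + b) * (nbf P φ + P + 1) + c) % (nbf P φ + P + 1) = c := by
    rw [Nat.mul_comm _ (nbf P φ + P + 1), Nat.mul_add_mod, Nat.mod_eq_of_lt hc]
  have h3 : (a * (2 * Mf φ + 7) + b) / (2 * Mf φ + 7) = a := by
    rw [Nat.mul_comm a, Nat.mul_add_div (by omega), Nat.div_eq_of_lt hb, Nat.add_zero]
  have h4 : (a * (2 * Mf φ + 7) + b) % (2 * Mf φ + 7) = b := by
    rw [Nat.mul_comm a, Nat.mul_add_mod, Nat.mod_eq_of_lt hb]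
  unfold dc cd
  dsimp only
  rw [h1, h2, h3, h4]

theorem cd_inj {u v : ℕ × ℕ × ℕ} (hu : GV P (Mf φ) (nbf P φ) T u) (hv : GV P (Mf φ) (nbf P φ) T v)
    (h : cd P φ u = cd P φ v) : u = v := by
  rw [← dc_cd hu, ← dc_cd hv, h]

theorem gr_isGraph (hP : 9 ≤ P) : Pool.Agent.NPC.H634R2.IsGraph (gr P T φ).1 (gr P T φ).2 := by
  have hlt : ∀ p ∈ EL P T φ, Lt (fun _ e => e) p.1 p.2 := fun p hp =>
    gadj_Lt hP (u := p.1) (v := p.2) (mem_EL.1 hp)
  have hnd : (VL P T φ).Nodup := by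
    unfold VL box
    exact (List.Nodup.product List.nodup_range
      (List.Nodup.product List.nodup_range List.nodup_range)).filter _
  unfold Pool.Agent.NPC.H634R2.IsGraph
  rw [gr_fst, gr_snd]
  refine ⟨?_, ?_, ?_⟩
  · refine List.Nodup.map_on (fun x hx y hy hxy => cd_inj (mem_VL.1 hx) (mem_VL.1 hy) hxy) hnd
  · intro e he
    rw [List.mem_map] at he
    obtain ⟨p, hp, rfl⟩ := he
    have hp' := mem_EL.1 hp
    refine ⟨List.mem_map_of_mem (mem_VL.2 hp'.1), List.mem_map_of_mem (mem_VL.2 hp'.2.1), ?_⟩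
    intro heq
    have := cd_inj hp'.1 hp'.2.1 heq
    have h1 := hlt p hp
    rw [this] at h1
    exact h1.irrefl
  · rw [List.map_map]
    refine List.Nodup.map_on (fun x hx y hy hxy => ?_) ((hnd.product hnd).filter _)
    have hx' := mem_EL.1 hx
    have hy' := mem_EL.1 hy
    have h1 := hlt x hx
    have h2 := hlt y hy
    simp only [Function.comp_apply, Sym2.eq_iff] at hxy
    rcases hxy with ⟨e1, e2⟩ | ⟨e1, e2⟩
    · exact Prod.ext (cd_inj hx'.1 hy'.1 e1) (cd_inj hx'.2.1 hy'.2.1 e2)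
    · have e3 := cd_inj hx'.1 hy'.2.1 e1
      have e4 := cd_inj hx'.2.1 hy'.1 e2
      rw [e3, e4] at h1
      exact (h1.asymm h2).elim

end

/-- No `k` pairwise crossing edges of the graph, for the placement `pos` of the vertices. -/
def NoTwist (k : ℕ) (E : List (ℕ × ℕ)) (pos : ℕ → ℕ) : Prop :=
  ¬ ∃ S : Finset (ℕ × ℕ), S.card = k ∧ (∀ e ∈ S, e ∈ E) ∧ ∀ e ∈ S, ∀ f ∈ S, e ≠ f → Cr pos e f

theorem Cr_symm {α : Type*} {pos : α → ℕ} {e f : α × α} (h : Cr pos e f) : Cr pos f e := cr_symm h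

theorem Cr_irrefl {α : Type*} {pos : α → ℕ} {e : α × α} (h : Cr pos e e) : False := by
  unfold Cr cr at h
  omega

theorem Cr_swap {α : Type*} {pos : α → ℕ} {e f : α × α} (h : Cr pos e f) :
    Cr pos (e.2, e.1) f ∧ Cr pos e (f.2, f.1) ∧ Cr pos (e.2, e.1) (f.2, f.1) := by
  unfold Cr cr at *
  dsimp only at *
  omega

section

variable {P T : ℕ} {φ : F3}

theorem gr_sound (hP : 9 ≤ P) (hT : (P + 2) * (2 * (P + 1)) < T) (hd : Distinct3 φ)
    (hs : Small φ) {pos : ℕ → ℕ} (hinj : ∀ u ∈ (gr P T φ).1, ∀ v ∈ (gr P T φ).1,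
      pos u = pos v → u = v) (hnt : NoTwist (P + 2) (gr P T φ).2 pos) : SAT3 φ := by
  classical
  obtain ⟨τ, hτ⟩ := sound (T := T) (pos := fun v => pos (cd P φ v)) (good_mono hd hs) hP hT
    (fun u v hu hv huv => by
      rw [gr_fst] at hinj
      refine cd_inj (P := P) (T := T) hu hv (hinj _ ?_ _ ?_ huv)
      · exact List.mem_map_of_mem (mem_VL.2 hu)
      · exact List.mem_map_of_mem (mem_VL.2 hv)) (by
      intro l hl hE hp
      refine hnt ?_
      set g : (ℕ × ℕ × ℕ) × (ℕ × ℕ × ℕ) → ℕ × ℕ := fun e =>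
        if gaB P φ e.1 e.2 = true then (cd P φ e.1, cd P φ e.2) else (cd P φ e.2, cd P φ e.1)
        with hg
      have hgE : ∀ e ∈ l, g e ∈ (gr P T φ).2 := by
        intro e he
        obtain ⟨h1, h2, h3⟩ := hE e he
        rw [gr_snd, List.mem_map, hg]
        dsimp only
        split_ifs with h4
        · exact ⟨(e.1, e.2), mem_EL.2 ⟨h1, h2, gaB_iff.1 h4⟩, rfl⟩
        · refine ⟨(e.2, e.1), mem_EL.2 ⟨h2, h1, ?_⟩, rfl⟩
          rcases h3 with h3 | h3
          · exact absurd (gaB_iff.2 h3) h4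
          · exact h3
      have hgc : (l.map g).Pairwise (Cr pos) := by
        rw [List.pairwise_map]
        refine hp.imp ?_
        intro e f hef
        have hef' : Cr pos (cd P φ e.1, cd P φ e.2) (cd P φ f.1, cd P φ f.2) := hef
        have h1 := Cr_swap hef'
        rw [hg]
        dsimp only
        split_ifs
        · exact hef'
        · exact h1.2.1
        · exact h1.1
        · exact h1.2.2
      have hnd : (l.map g).Nodup := by
        refine hgc.imp ?_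
        rintro e f hef rfl
        exact Cr_irrefl hef
      have hsym : Std.Symm (Cr pos) := ⟨fun _ _ h => Cr_symm h⟩
      refine ⟨(l.map g).toFinset, ?_, ?_, ?_⟩
      · rw [List.toFinset_card_of_nodup hnd, List.length_map, hl]
      · intro e he
        rw [List.mem_toFinset, List.mem_map] at he
        obtain ⟨f, hf, rfl⟩ := he
        exact hgE f hf
      · intro e he f hf hne
        exact hgc.forall (List.mem_toFinset.1 he) (List.mem_toFinset.1 hf) hne)
  exact sat_of_mono hτ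

theorem gr_complete (hP : 9 ≤ P) (hd : Distinct3 φ) (hs : Small φ) (h : SAT3 φ) :
    ∃ pos : ℕ → ℕ, (∀ u ∈ (gr P T φ).1, ∀ v ∈ (gr P T φ).1, pos u = pos v → u = v) ∧
      NoTwist (P + 2) (gr P T φ).2 pos := by
  classical
  obtain ⟨τ, hτ⟩ := h
  obtain ⟨pos, hinj, hnt⟩ := complete (T := T) (good_mono hd hs) hP (mono_of_sat hτ)
  refine ⟨fun n => pos (dc P φ n), ?_, ?_⟩
  · intro u hu v hv huv
    rw [gr_fst, List.mem_map] at hu hv
    obtain ⟨u', hu', rfl⟩ := hu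
    obtain ⟨v', hv', rfl⟩ := hv
    rw [mem_VL] at hu' hv'
    dsimp only at huv
    rw [dc_cd hu', dc_cd hv'] at huv
    rw [hinj u' v' hu' hv' huv]
  · rintro ⟨S, hS, hSE, hcr⟩
    refine hnt (S.toList.map (fun e => (dc P φ e.1, dc P φ e.2))) ?_ ?_ ?_
    · rw [List.length_map, Finset.length_toList, hS]
    · intro e he
      rw [List.mem_map] at he
      obtain ⟨f, hf, rfl⟩ := he
      have hf' := hSE f (Finset.mem_toList.1 hf)
      rw [gr_snd, List.mem_map] at hf'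
      obtain ⟨p, hp, rfl⟩ := hf'
      have hp' := mem_EL.1 hp
      dsimp only
      rw [dc_cd hp'.1, dc_cd hp'.2.1]
      exact ⟨hp'.1, hp'.2.1, Or.inl hp'.2.2⟩
    · rw [List.pairwise_map]
      have := Finset.nodup_toList S
      refine List.Pairwise.imp_of_mem ?_ this
      intro e f he hf hne
      exact hcr e (Finset.mem_toList.1 he) f (Finset.mem_toList.1 hf) hne

end

end Pool.Agent.H619R2.QP
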