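import Pool.Agent.H619R2.QP.Basic
import Pool.Agent.H619R2.QP.Exact

/-!
# One copy of the gadget: definitions and the order of the blocks
-/

namespace Pool.Agent.H619R2.QP

/-- The edges (left end, right end) inside a copy.  A vertex is a pair (segment, number); even
segments are blocks of `P` vertices, odd segments `2i+1` are the levels of the bus. -/
def loc (P M D : ℕ) (tr : ℕ → ℕ → Prop) (u v : ℕ × ℕ) : Prop :=
  (u.1 % 2 = 0 ∧ v.1 = u.1 ∧ u.2 < v.2) ∨
  (u.1 % 2 = 0 ∧ v.1 = u.1 + 2 ∧ (v.2 < 2 ∨ (P - 3 ≤ u.2 ∧ v.2 < P - 1))) ∨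
  (u.1 % 2 = 1 ∧ v.1 = u.1 + 2 ∧ v.2 = u.2) ∨
  (u.1 = 0 ∧ u.2 = P - 1 ∧ v.1 = 3) ∨
  (u.1 = 2 * M + 1 ∧ v.1 = 2 * M + 4 ∧ v.2 = 0) ∨
  (u.1 % 2 = 1 ∧ v.1 = u.1 + 1 ∧
    (v.2 = 0 ∨ (u.2 < D ∧ v.2 < P - 3) ∨ (tr (u.1 / 2) u.2 ∧ P - 3 ≤ v.2)))

/-- the vertices of the blocks -/
def FV (P M : ℕ) (u : ℕ × ℕ) : Prop := u.1 % 2 = 0 ∧ u.1 ≤ 2 * M + 6 ∧ u.2 < P

/-- the vertices of the bus -/
def BV (M nb : ℕ) (u : ℕ × ℕ) : Prop := u.1 % 2 = 1 ∧ 3 ≤ u.1 ∧ u.1 ≤ 2 * M + 1 ∧ u.2 < nb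

/-- the vertices of a copy -/
def HV (P M nb : ℕ) (u : ℕ × ℕ) : Prop := FV P M u ∨ BV M nb u

/-- adjacency in a copy -/
def LA (P M D nb : ℕ) (tr : ℕ → ℕ → Prop) (u v : ℕ × ℕ) : Prop :=
  HV P M nb u ∧ HV P M nb v ∧ (loc P M D tr u v ∨ loc P M D tr v u)

theorem LA.symm {P M D nb : ℕ} {tr : ℕ → ℕ → Prop} {u v : ℕ × ℕ} (h : LA P M D nb tr u v) :
    LA P M D nb tr v u := ⟨h.2.1, h.1, h.2.2.symm⟩

/-- what the rest of the graph enforces on a copy -/
structure Loc (P M D nb : ℕ) (tr : ℕ → ℕ → Prop) (p : ℕ × ℕ → ℕ) : Prop where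
  inj : ∀ u v, HV P M nb u → HV P M nb v → p u = p v → u = v
  t1 : ∀ u v, LA P M D nb tr u v → ∀ S : Finset (ℕ × ℕ),
    (∀ x ∈ S, FV P M x ∧ p u < p x ∧ p x < p v) → S.card ≤ P
  t2 : ∀ u v u' v', LA P M D nb tr u v → LA P M D nb tr u' v' → p u < p u' → p u' < p v →
    p v < p v' → ∀ S : Finset (ℕ × ℕ), (∀ x ∈ S, FV P M x ∧ p u' < p x ∧ p x < p v) → S.card < P
  nt : NT (P + 2) p (LA P M D nb tr)
  bd : ∃ N, ∀ u, HV P M nb u → p u < N

theorem Loc.reflect {P M D nb : ℕ} {tr : ℕ → ℕ → Prop} {p : ℕ × ℕ → ℕ} (h : Loc P M D nb tr p) :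
    ∃ N, (∀ u, HV P M nb u → p u < N) ∧ Loc P M D nb tr (fun u => N - p u) := by
  obtain ⟨N, hN⟩ := h.bd
  refine ⟨N, hN, ?_, ?_, ?_, ?_, ?_⟩
  · intro u v hu hv huv
    have h1 := hN u hu
    have h2 := hN v hv
    refine h.inj u v hu hv ?_
    omega
  · intro u v huv S hS
    refine h.t1 v u huv.symm S (fun x hx => ?_)
    obtain ⟨h1, h2, h3⟩ := hS x hx
    have h4 := hN u huv.1
    have h5 := hN v huv.2.1
    have h6 := hN x (Or.inl h1)
    exact ⟨h1, by omega, by omega⟩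
  · intro u v u' v' huv huv' h1 h2 h3 S hS
    have e1 := hN u huv.1
    have e2 := hN v huv.2.1
    have e3 := hN u' huv'.1
    have e4 := hN v' huv'.2.1
    refine h.t2 v' u' v u huv'.symm huv.symm (by omega) (by omega) (by omega) S (fun x hx => ?_)
    obtain ⟨h1, h2, h3⟩ := hS x hx
    have h6 := hN x (Or.inl h1)
    exact ⟨h1, by omega, by omega⟩
  · intro l hl hE hp
    refine h.nt l hl hE (List.Pairwise.imp_of_mem ?_ hp)
    intro e f he hf hef
    exact cr_refl (hN _ (hE e he).1) (hN _ (hE e he).2.1) (hN _ (hE f hf).1) (hN _ (hE f hf).2.1)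
      hef
  · exact ⟨N + 1, fun u _ => by omega⟩

section

variable {P M D nb : ℕ} {tr : ℕ → ℕ → Prop} {p : ℕ × ℕ → ℕ}

theorem blk {P j j0 o : ℕ} (ho : o < P) (h1 : P * j0 ≤ P * j + o)
    (h2 : P * j + o < P * j0 + 2 * P) : j = j0 ∨ j = j0 + 1 := by
  have a : j0 ≤ j := by
    by_contra hcon
    have : P * (j + 1) ≤ P * j0 := Nat.mul_le_mul_left P (by omega)
    rw [Nat.mul_add] at this
    omega
  have b : j < j0 + 2 := by
    by_contra hcon
    have : P * (j0 + 2) ≤ P * j := Nat.mul_le_mul_left P (by omega)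
    rw [Nat.mul_add] at this
    omega
  omega

/-- first point of the `l`-th clique -/
def Tl (P l : ℕ) : ℕ := P * (l / 2) + if l % 2 = 0 then 0 else P - 3

/-- the vertex with a given index -/
def gv (P x : ℕ) : ℕ × ℕ := (2 * (x / P), x % P)

theorem gv_mk {j o : ℕ} (ho : o < P) : gv P (P * j + o) = (2 * j, o) := by
  unfold gv
  rw [Nat.mul_add_div (by omega), Nat.div_eq_of_lt ho, Nat.mul_add_mod, Nat.mod_eq_of_lt ho]
  simp

theorem idx (hP : 0 < P) (x : ℕ) : ∃ j o, o < P ∧ x = P * j + o :=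
  ⟨x / P, x % P, Nat.mod_lt _ hP, (Nat.div_add_mod x P).symm⟩

theorem Tl_even (j : ℕ) : Tl P (2 * j) = P * j := by
  unfold Tl
  simp

theorem Tl_odd (j : ℕ) : Tl P (2 * j + 1) = P * j + (P - 3) := by
  unfold Tl
  rw [show (2 * j + 1) / 2 = j by omega, if_neg (by omega)]

theorem lpar (l : ℕ) : ∃ j, l = 2 * j ∨ l = 2 * j + 1 := ⟨l / 2, by omega⟩

theorem Tl_step (_hP : 9 ≤ P) (l : ℕ) : Tl P (l + 1 + 1) = Tl P l + P := by
  obtain ⟨j, rfl | rfl⟩ := lpar l
  · rw [show 2 * j + 1 + 1 = 2 * (j + 1) by ring, Tl_even, Tl_even, Nat.mul_add, Nat.mul_one]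
  · rw [show 2 * j + 1 + 1 + 1 = 2 * (j + 1) + 1 by ring, Tl_odd, Tl_odd, Nat.mul_add, Nat.mul_one]
    omega

theorem Tl_gap (hP : 9 ≤ P) (l : ℕ) : Tl P l + 3 ≤ Tl P (l + 1) := by
  obtain ⟨j, rfl | rfl⟩ := lpar l
  · rw [Tl_odd, Tl_even]
    omega
  · rw [show 2 * j + 1 + 1 = 2 * (j + 1) by ring, Tl_even, Tl_odd, Nat.mul_add, Nat.mul_one]
    omega

theorem Tl_bound (hP : 9 ≤ P) {l : ℕ} (hl : l ≤ 2 * M + 4) : Tl P l + P + 2 ≤ P * (M + 4) := by
  obtain ⟨j, rfl | rfl⟩ := lpar l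
  · rw [Tl_even]
    have : P * j ≤ P * (M + 2) := Nat.mul_le_mul_left P (by omega)
    rw [Nat.mul_add] at *
    omega
  · rw [Tl_odd]
    have : P * j ≤ P * (M + 1) := Nat.mul_le_mul_left P (by omega)
    rw [Nat.mul_add] at *
    omega

theorem FV_gv (hP : 9 ≤ P) {x : ℕ} (hx : x < P * (M + 4)) : FV P M (gv P x) := by
  obtain ⟨j, o, ho, rfl⟩ := idx (by omega : 0 < P) x
  rw [gv_mk ho]
  refine ⟨by simp, ?_, ho⟩
  have : j < M + 4 := by
    by_contra hcon
    have : P * (M + 4) ≤ P * j := Nat.mul_le_mul_left P (by omega)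
    omega
  dsimp only
  omega

theorem gv_inj {x y : ℕ} (h : gv P x = gv P y) : x = y := by
  unfold gv at h
  rw [Prod.mk.injEq] at h
  rw [← Nat.div_add_mod x P, ← Nat.div_add_mod y P, h.2, show x / P = y / P by omega]

theorem LA_F {u v : ℕ × ℕ} (hu : FV P M u) (hv : FV P M v) (h : loc P M D tr u v) :
    LA P M D nb tr u v := ⟨Or.inl hu, Or.inl hv, Or.inl h⟩

theorem clique_adj (hP : 9 ≤ P) {l : ℕ} (hl : l ≤ 2 * M + 4) {x y : ℕ} (hxy : x < y)
    (hx : Tl P l ≤ x) (hy : y < Tl P l + P + 2) : loc P M D tr (gv P x) (gv P y) := by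
  obtain ⟨j1, o1, ho1, rfl⟩ := idx (by omega : 0 < P) x
  obtain ⟨j2, o2, ho2, rfl⟩ := idx (by omega : 0 < P) y
  rw [gv_mk ho1, gv_mk ho2]
  obtain ⟨j, rfl | rfl⟩ := lpar l
  · rw [Tl_even] at hx hy
    have e1 := blk (j := j1) (j0 := j) ho1 (by omega) (by omega)
    have e2 := blk (j := j2) (j0 := j) ho2 (by omega) (by omega)
    have m1 : P * (j + 1) = P * j + P := by ring
    rcases e1 with rfl | rfl
    · rcases e2 with rfl | rfl
      · left
        exact ⟨by simp, rfl, by dsimp only; omega⟩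
      · right
        left
        exact ⟨by simp, by dsimp only; omega, Or.inl (by dsimp only; omega)⟩
    · rcases e2 with rfl | rfl
      · omega
      · left
        exact ⟨by simp, rfl, by dsimp only; omega⟩
  · rw [Tl_odd] at hx hy
    have e1 := blk (j := j1) (j0 := j) ho1 (by omega) (by omega)
    have e2 := blk (j := j2) (j0 := j) ho2 (by omega) (by omega)
    have m1 : P * (j + 1) = P * j + P := by ring
    rcases e1 with rfl | rfl
    · rcases e2 with rfl | rfl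
      · left
        exact ⟨by simp, rfl, by dsimp only; omega⟩
      · right
        left
        exact ⟨by simp, by dsimp only; omega, Or.inr ⟨by dsimp only; omega, by dsimp only; omega⟩⟩
    · rcases e2 with rfl | rfl
      · omega
      · left
        exact ⟨by simp, rfl, by dsimp only; omega⟩

theorem Loc.conv (h : Loc P M D nb tr p) (hP : 9 ≤ P) {l : ℕ} (hl : l ≤ 2 * M + 4) :
    Conv (fun x => p (gv P x)) (Tl P) P (P * (M + 4)) l := by
  have hb := Tl_bound (M := M) hP hl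
  refine conv_of_count ?_ hb ?_
  · intro x y hx1 hx2 hy1 hy2 S hS
    by_cases hxy : x = y
    · subst hxy
      have : S = ∅ := by
        rw [Finset.eq_empty_iff_forall_notMem]
        intro s hs
        have := hS s hs
        omega
      rw [this]
      simp
    · have hadj : LA P M D nb tr (gv P x) (gv P y) := by
        rcases Nat.lt_or_ge x y with hlt | hge
        · exact LA_F (FV_gv hP (by omega)) (FV_gv hP (by omega)) (clique_adj hP hl hlt hx1 hy2)
        · exact (LA_F (FV_gv hP (by omega)) (FV_gv hP (by omega))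
            (clique_adj hP hl (by omega) hy1 hx2)).symm
      have := h.t1 _ _ hadj (S.image (gv P)) (by
        intro z hz
        rw [Finset.mem_image] at hz
        obtain ⟨s, hs, rfl⟩ := hz
        obtain ⟨h1, h2, h3⟩ := hS s hs
        exact ⟨FV_gv hP h1, h2, h3⟩)
      rwa [Finset.card_image_of_injective _ (fun a b => gv_inj)] at this
  · intro x hx y hy hxy
    exact gv_inj (h.inj _ _ (Or.inl (FV_gv hP hx)) (Or.inl (FV_gv hP hy)) hxy)

/-- the blocks are laid out from left to right -/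
structure Ord (P M nb : ℕ) (p : ℕ × ℕ → ℕ) : Prop where
  x1 : ∀ j j' o o', j < j' → j' ≤ M + 2 → o < P → o' < P → p (2 * j, o) < p (2 * j', o')
  x2 : ∀ j o o', j ≤ M + 1 → o < P - 3 → P - 3 ≤ o' → o' < P → p (2 * j, o) < p (2 * j, o')

theorem Loc.ord (h : Loc P M D nb tr p) (hP : 9 ≤ P)
    (hD : Dir (fun x => p (gv P x)) (Tl P) P 0) : Ord P M nb p := by
  have hall := dir_all (n := 2 * M + 4) (N := P * (M + 4)) (Tl_step hP) (Tl_gap hP)
    (fun l hl => Tl_bound hP hl)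
    (fun x hx y hy hxy => gv_inj (h.inj _ _ (Or.inl (FV_gv hP hx)) (Or.inl (FV_gv hP hy)) hxy))
    (fun l hl => h.conv hP hl) hD
  have key := fun {i x : ℕ} (h1 : Tl P i ≤ x) (h2 : x < Tl P (i + 1)) =>
    chain (n := 2 * M + 4) (Tl_gap hP) hall h1 h2
  have loc_x : ∀ j o, o < P → ∃ i, (i = 2 * j ∨ i = 2 * j + 1) ∧ Tl P i ≤ P * j + o ∧
      P * j + o < Tl P (i + 1) := by
    intro j o ho
    by_cases h3 : o < P - 3
    · exact ⟨2 * j, Or.inl rfl, by rw [Tl_even]; omega, by rw [Tl_odd]; omega⟩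
    · exact ⟨2 * j + 1, Or.inr rfl, by rw [Tl_odd]; omega, by
        rw [show 2 * j + 1 + 1 = 2 * (j + 1) by ring, Tl_even, Nat.mul_add, Nat.mul_one]; omega⟩
  constructor
  · intro j j' o o' hj hj' ho ho'
    obtain ⟨i, hi, h1, h2⟩ := loc_x j o ho
    have := key h1 h2 (2 * j') (by omega) (by omega) (P * j' + o') (by rw [Tl_even]; omega)
      (by rw [Tl_even]; omega)
    rwa [gv_mk ho, gv_mk ho'] at this
  · intro j o o' hj ho h3 ho'
    have := key (i := 2 * j) (x := P * j + o) (by rw [Tl_even]; omega) (by rw [Tl_odd]; omega)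
      (2 * j + 1) (by omega) (by omega) (P * j + o') (by rw [Tl_odd]; omega)
      (by rw [Tl_odd]; omega)
    rwa [gv_mk (by omega), gv_mk ho'] at this

/-- Every placement of a copy, or its mirror image, has the blocks in their order. -/
theorem Loc.exists_ord (h : Loc P M D nb tr p) (hP : 9 ≤ P) :
    ∃ p', Loc P M D nb tr p' ∧ Ord P M nb p' := by
  rcases dir_or (n := 2 * M + 4) (l := 0) (N := P * (M + 4)) (q := fun x => p (gv P x))
    (T := Tl P) (P := P) (Tl_step hP) (Tl_gap hP) (fun l hl => Tl_bound hP hl)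
    (fun x hx y hy hxy => gv_inj (h.inj _ _ (Or.inl (FV_gv hP hx)) (Or.inl (FV_gv hP hy)) hxy))
    (fun l hl => h.conv hP hl) (by omega) with hD | hD
  · exact ⟨p, h, h.ord hP hD⟩
  · obtain ⟨N, hN, hr⟩ := h.reflect
    refine ⟨_, hr, hr.ord hP ?_⟩
    intro x y hx1 hx2 hy1 hy2
    have h1 := hD x y hx1 hx2 hy1 hy2
    have b := Tl_bound (M := M) hP (l := 0 + 1) (by omega)
    have h2 := hN _ (Or.inl (FV_gv (M := M) hP (x := x) (by omega)))
    have h3 := hN _ (Or.inl (FV_gv (M := M) hP (x := y) (by omega)))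
    dsimp only at *
    omega

end

end Pool.Agent.H619R2.QP
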