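import Pool.Agent.H619R2.QP.Inst
import Pool.Agent.NPC.Sat

/-!
# From 3SAT to monotone instances
-/

namespace Pool.Agent.H619R2.QP

open Pool.Agent.NPC

/-- the variable of the monotone instance which stands for a literal -/
def lv (l : Lit ℕ) : ℕ := if l.1 = true then 8 * l.2 else 8 * l.2 + 1

/-- the pairs which make `8v` and `8v+1` complementary -/
def gdt (v : ℕ) : MI :=
  [((8 * v, 8 * v + 1, 8 * v + 2), (8 * v, 8 * v + 1, 8 * v + 5)),
    ((8 * v, 8 * v + 1, 8 * v + 3), (8 * v, 8 * v + 1, 8 * v + 6)),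
    ((8 * v, 8 * v + 1, 8 * v + 4), (8 * v, 8 * v + 1, 8 * v + 7)),
    ((8 * v + 5, 8 * v + 6, 8 * v + 7), (8 * v + 2, 8 * v + 3, 8 * v + 4))]

/-- the pairs of a clause -/
def cls (c : Lit ℕ × Lit ℕ × Lit ℕ) : MI :=
  ((lv c.1, lv c.2.1, lv c.2.2), (8 * c.1.2 + 2, 8 * c.1.2 + 3, 8 * c.1.2 + 4)) ::
    (gdt c.1.2 ++ (gdt c.2.1.2 ++ gdt c.2.2.2))

/-- the monotone instance -/
def mono (φ : List (Lit ℕ × Lit ℕ × Lit ℕ)) : MI := φ.flatMap cls

/-- a bound for the variables -/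
def gg (φ : List (Lit ℕ × Lit ℕ × Lit ℕ)) : ℕ := 3 * φ.length + 1

/-- all variables are small -/
def Small (φ : List (Lit ℕ × Lit ℕ × Lit ℕ)) : Prop :=
  ∀ c ∈ φ, c.1.2 < gg φ ∧ c.2.1.2 < gg φ ∧ c.2.2.2 < gg φ

theorem lv_eq (l : Lit ℕ) : lv l = 8 * l.2 ∨ lv l = 8 * l.2 + 1 := by
  unfold lv
  split_ifs <;> simp

theorem good_gdt {v n : ℕ} (h : v < n) : Good (8 * n) (gdt v) := by
  intro c hc
  unfold gdt at hc
  simp only [List.mem_cons, List.not_mem_nil, or_false] at hc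
  rcases hc with rfl | rfl | rfl | rfl <;> refine ⟨⟨?_, ?_, ?_, ?_, ?_, ?_⟩, ⟨?_, ?_, ?_, ?_, ?_, ?_⟩⟩ <;>
    dsimp only <;> omega

theorem good_mono {φ : List (Lit ℕ × Lit ℕ × Lit ℕ)} (hd : Distinct3 φ) (hs : Small φ) :
    Good (8 * gg φ) (mono φ) := by
  intro c hc
  unfold mono at hc
  rw [List.mem_flatMap] at hc
  obtain ⟨d, hd', hc⟩ := hc
  obtain ⟨h1, h2, h3⟩ := hd d hd'
  obtain ⟨s1, s2, s3⟩ := hs d hd'
  unfold cls at hc
  rw [List.mem_cons, List.mem_append, List.mem_append] at hc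
  rcases hc with rfl | hc | hc | hc
  · have e1 := lv_eq d.1
    have e2 := lv_eq d.2.1
    have e3 := lv_eq d.2.2
    refine ⟨⟨?_, ?_, ?_, ?_, ?_, ?_⟩, ⟨?_, ?_, ?_, ?_, ?_, ?_⟩⟩ <;> dsimp only <;> omega
  · exact good_gdt s1 c hc
  · exact good_gdt s2 c hc
  · exact good_gdt s3 c hc

theorem compl_of_sat {τ : ℕ → Prop} {v : ℕ} (h : Sat τ (gdt v)) : τ (8 * v + 1) ↔ ¬ τ (8 * v) := by
  have h1 := h ((8 * v, 8 * v + 1, 8 * v + 2), (8 * v, 8 * v + 1, 8 * v + 5)) (by simp [gdt])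
  have h2 := h ((8 * v, 8 * v + 1, 8 * v + 3), (8 * v, 8 * v + 1, 8 * v + 6)) (by simp [gdt])
  have h3 := h ((8 * v, 8 * v + 1, 8 * v + 4), (8 * v, 8 * v + 1, 8 * v + 7)) (by simp [gdt])
  have h4 := h ((8 * v + 5, 8 * v + 6, 8 * v + 7), (8 * v + 2, 8 * v + 3, 8 * v + 4))
    (by simp [gdt])
  dsimp only at h1 h2 h3 h4
  tauto

theorem sat_of_mono {φ : List (Lit ℕ × Lit ℕ × Lit ℕ)} {τ : ℕ → Prop} (h : Sat τ (mono φ)) :
    SAT3 φ := by
  classical
  refine ⟨fun v => decide (τ (8 * v)), fun c hc => ?_⟩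
  have hsub : ∀ d ∈ cls c, d ∈ mono φ := fun d hd => List.mem_flatMap.2 ⟨c, hc, hd⟩
  have g1 : τ (8 * c.1.2 + 1) ↔ ¬ τ (8 * c.1.2) := compl_of_sat (fun d hd => h d (hsub d (by
    unfold cls
    rw [List.mem_cons, List.mem_append, List.mem_append]
    exact Or.inr (Or.inl hd))))
  have g2 : τ (8 * c.2.1.2 + 1) ↔ ¬ τ (8 * c.2.1.2) := compl_of_sat (fun d hd => h d (hsub d (by
    unfold cls
    rw [List.mem_cons, List.mem_append, List.mem_append]
    exact Or.inr (Or.inr (Or.inl hd)))))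
  have g3 : τ (8 * c.2.2.2 + 1) ↔ ¬ τ (8 * c.2.2.2) := compl_of_sat (fun d hd => h d (hsub d (by
    unfold cls
    rw [List.mem_cons, List.mem_append, List.mem_append]
    exact Or.inr (Or.inr (Or.inr hd)))))
  have hp := (h _ (hsub _ (List.mem_cons_self))).1
  have key : ∀ l : Lit ℕ, (τ (8 * l.2 + 1) ↔ ¬ τ (8 * l.2)) → τ (lv l) →
      decide (τ (8 * l.2)) = l.1 := by
    rintro ⟨b, v⟩ hl ht
    unfold lv at ht
    cases b
    · simp only [Bool.false_eq_true, if_false] at ht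
      dsimp only at hl ⊢
      simpa using hl.1 ht
    · simp only [if_true] at ht
      simpa using ht
  dsimp only at hp
  rcases hp with hp | hp | hp
  · exact Or.inl (key _ g1 hp)
  · exact Or.inr (Or.inl (key _ g2 hp))
  · exact Or.inr (Or.inr (key _ g3 hp))

/-- the assignment of the monotone instance -/
def asg (τ : ℕ → Bool) (n : ℕ) : Prop :=
  if n % 8 = 0 then τ (n / 8) = true else if n % 8 = 1 then τ (n / 8) = false else 5 ≤ n % 8

theorem asg_0 (τ : ℕ → Bool) (v : ℕ) : asg τ (8 * v) ↔ τ v = true := by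
  unfold asg
  rw [if_pos (by omega), show 8 * v / 8 = v by omega]

theorem asg_1 (τ : ℕ → Bool) (v : ℕ) : asg τ (8 * v + 1) ↔ τ v = false := by
  unfold asg
  rw [if_neg (by omega), if_pos (by omega), show (8 * v + 1) / 8 = v by omega]

theorem asg_f (τ : ℕ → Bool) (v : ℕ) {i : ℕ} (h1 : 2 ≤ i) (h2 : i ≤ 4) :
    ¬ asg τ (8 * v + i) := by
  unfold asg
  rw [if_neg (by omega), if_neg (by omega)]
  omega

theorem asg_t (τ : ℕ → Bool) (v : ℕ) {i : ℕ} (h1 : 5 ≤ i) (h2 : i ≤ 7) : asg τ (8 * v + i) := by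
  unfold asg
  rw [if_neg (by omega), if_neg (by omega)]
  omega

theorem sat_gdt (τ : ℕ → Bool) (v : ℕ) : Sat (asg τ) (gdt v) := by
  have hc : asg τ (8 * v) ∨ asg τ (8 * v + 1) := by
    rw [asg_0, asg_1]
    cases τ v <;> simp
  have hc' : ¬ asg τ (8 * v) ∨ ¬ asg τ (8 * v + 1) := by
    rw [asg_0, asg_1]
    cases τ v <;> simp
  intro c hc
  unfold gdt at hc
  simp only [List.mem_cons, List.not_mem_nil, or_false] at hc
  have t1 := asg_t τ v (i := 5) le_rfl (by omega)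
  have t2 := asg_f τ v (i := 2) le_rfl (by omega)
  rcases hc with rfl | rfl | rfl | rfl
  · dsimp only
    tauto
  · dsimp only
    tauto
  · dsimp only
    tauto
  · exact ⟨Or.inl t1, Or.inl t2⟩

theorem mono_of_sat {φ : List (Lit ℕ × Lit ℕ × Lit ℕ)} {τ : ℕ → Bool}
    (h : ∀ c ∈ φ, τ c.1.2 = c.1.1 ∨ τ c.2.1.2 = c.2.1.1 ∨ τ c.2.2.2 = c.2.2.1) :
    Sat (asg τ) (mono φ) := by
  have key : ∀ l : Lit ℕ, τ l.2 = l.1 → asg τ (lv l) := by
    rintro ⟨b, v⟩ hl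
    unfold lv
    dsimp only at hl ⊢
    cases b
    · simp only [Bool.false_eq_true, if_false]
      rw [asg_1]
      exact hl
    · simp only [if_true]
      rw [asg_0]
      exact hl
  intro d hd
  unfold mono at hd
  rw [List.mem_flatMap] at hd
  obtain ⟨c, hc, hd⟩ := hd
  unfold cls at hd
  rw [List.mem_cons, List.mem_append, List.mem_append] at hd
  rcases hd with rfl | hd | hd | hd
  · refine ⟨?_, Or.inl (asg_f τ _ le_rfl (by omega))⟩
    rcases h c hc with h1 | h1 | h1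
    · exact Or.inl (key _ h1)
    · exact Or.inr (Or.inl (key _ h1))
    · exact Or.inr (Or.inr (key _ h1))
  · exact sat_gdt τ _ d hd
  · exact sat_gdt τ _ d hd
  · exact sat_gdt τ _ d hd

end Pool.Agent.H619R2.QP
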